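import Pool.Agent.Lib.MP_6bd702_nt.Defs

/-!
# Row P2: distances

`ed` is `dist (toC u) (toC v)`; `Pool.Agent.Perc.SmallClusters.dist_toC` gives the square.
`ed_le_sd`: `ed ≤ sqrt 2 * sd ≤ 3 / 2 * sd`. `sd_le_ed`: each coordinate difference is at most `ed`.
`stewart`: for three points on a vertical line
`(y₃ - y₁) ed(y)² = (y₃ - y) ed(y₁)² + (y - y₁) ed(y₃)² - (y₃ - y₁)(y - y₁)(y₃ - y)`.
-/

set_option autoImplicit false

namespace Pool.Agent.NT6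

open Finset Pool.Agent.MP_6bd702 Pool.Agent.MP_6bd702.H23 Pool.Agent.Perc

theorem ed_comm (u v : ℤ × ℤ) : ed u v = ed v u := dist_comm _ _

theorem ed_sq (u v : ℤ × ℤ) :
    ed u v ^ 2 = ((u.1 - v.1 : ℤ) : ℝ) ^ 2 + ((u.2 - v.2 : ℤ) : ℝ) ^ 2 :=
  Pool.Agent.Perc.SmallClusters.dist_toC u v

theorem ed_tri (u v w : ℤ × ℤ) : ed u w ≤ ed u v + ed v w := dist_triangle _ _ _

private theorem ed_nonneg' (u v : ℤ × ℤ) : 0 ≤ ed u v := dist_nonneg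

theorem ed_le_sd (u v : ℤ × ℤ) : ed u v ≤ 3 / 2 * (sd u v : ℝ) := by
  have h := ed_sq u v
  have h1 : |((u.1 - v.1 : ℤ) : ℝ)| ≤ (sd u v : ℝ) := by
    rw [← Int.cast_abs]
    exact_mod_cast le_max_left _ _
  have h2 : |((u.2 - v.2 : ℤ) : ℝ)| ≤ (sd u v : ℝ) := by
    rw [← Int.cast_abs]
    exact_mod_cast le_max_right _ _
  have h0 : 0 ≤ (sd u v : ℝ) := (abs_nonneg _).trans h1
  have h3 : ((u.1 - v.1 : ℤ) : ℝ) ^ 2 ≤ (sd u v : ℝ) ^ 2 := by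
    rw [← sq_abs]
    exact pow_le_pow_left₀ (abs_nonneg _) h1 2
  have h4 : ((u.2 - v.2 : ℤ) : ℝ) ^ 2 ≤ (sd u v : ℝ) ^ 2 := by
    rw [← sq_abs]
    exact pow_le_pow_left₀ (abs_nonneg _) h2 2
  have h5 : ed u v ^ 2 ≤ (3 / 2 * (sd u v : ℝ)) ^ 2 := by
    rw [h]
    nlinarith
  exact le_of_sq_le_sq h5 (by positivity)

theorem sd_le_ed (u v : ℤ × ℤ) : (sd u v : ℝ) ≤ ed u v := by
  have h := ed_sq u v
  have h0 := ed_nonneg' u v
  unfold sd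
  rw [Int.cast_max, max_le_iff]
  constructor
  · rw [Int.cast_abs]
    refine abs_le_of_sq_le_sq ?_ h0
    rw [h]
    nlinarith [sq_nonneg (((u.2 - v.2 : ℤ) : ℝ))]
  · rw [Int.cast_abs]
    refine abs_le_of_sq_le_sq ?_ h0
    rw [h]
    nlinarith [sq_nonneg (((u.1 - v.1 : ℤ) : ℝ))]

theorem sd_comm (u v : ℤ × ℤ) : sd u v = sd v u := by
  unfold sd
  rw [abs_sub_comm u.1 v.1, abs_sub_comm u.2 v.2]

theorem sd_tri (u v w : ℤ × ℤ) : sd u w ≤ sd u v + sd v w := by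
  unfold sd
  refine max_le ?_ ?_
  · exact (abs_sub_le u.1 v.1 w.1).trans (add_le_add (le_max_left _ _) (le_max_left _ _))
  · exact (abs_sub_le u.2 v.2 w.2).trans (add_le_add (le_max_right _ _) (le_max_right _ _))

/-- Strict convexity of the distance on a vertical line. -/
theorem stewart {x y₁ y y₃ : ℤ} {v : ℤ × ℤ} {B c κ : ℝ} (hB : 0 ≤ B) (hκ : 0 ≤ κ)
    (h1 : κ < ((y - y₁ : ℤ) : ℝ)) (h3 : κ < ((y₃ - y : ℤ) : ℝ))
    (hv1 : ed (x, y₁) v ≤ B) (hv3 : ed (x, y₃) v ≤ B) (hc : 0 ≤ c) (hvy : c ≤ ed (x, y) v) :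
    κ ^ 2 < B ^ 2 - c ^ 2 := by
  have e1 := ed_sq (x, y₁) v
  have e2 := ed_sq (x, y) v
  have e3 := ed_sq (x, y₃) v
  have b1 : ed (x, y₁) v ^ 2 ≤ B ^ 2 := pow_le_pow_left₀ (ed_nonneg' _ _) hv1 2
  have b3 : ed (x, y₃) v ^ 2 ≤ B ^ 2 := pow_le_pow_left₀ (ed_nonneg' _ _) hv3 2
  have b2 : c ^ 2 ≤ ed (x, y) v ^ 2 := pow_le_pow_left₀ hc hvy 2
  rw [e1] at b1
  rw [e2] at b2
  rw [e3] at b3
  simp only at b1 b2 b3
  push_cast at b1 b2 b3 h1 h3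
  set a : ℝ := (x : ℝ) - (v.1 : ℝ)
  set e : ℝ := (y : ℝ) - (v.2 : ℝ) with he
  set p : ℝ := (y : ℝ) - (y₁ : ℝ) with hp
  set q : ℝ := (y₃ : ℝ) - (y : ℝ) with hq
  have f1 : (y₁ : ℝ) - (v.2 : ℝ) = e - p := by rw [he, hp]; ring
  have f3 : (y₃ : ℝ) - (v.2 : ℝ) = e + q := by rw [he, hq]; ring
  rw [f1] at b1
  rw [f3] at b3
  have hp0 : 0 < p := lt_of_le_of_lt hκ h1
  have hq0 : 0 < q := lt_of_le_of_lt hκ h3
  have g1 := mul_le_mul_of_nonneg_left b1 hq0.le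
  have g3 := mul_le_mul_of_nonneg_left b3 hp0.le
  have g : (p + q) * (a ^ 2 + e ^ 2 + p * q) ≤ (p + q) * B ^ 2 := by nlinarith
  have g' : a ^ 2 + e ^ 2 + p * q ≤ B ^ 2 := le_of_mul_le_mul_left g (by linarith)
  have k : κ ^ 2 < p * q := by
    rw [sq]
    exact mul_lt_mul'' h1 h3 hκ hκ
  linarith

/-- Moving to the right increases the distance to a point which is far to the left. -/
theorem ed_shift {u v : ℤ × ℤ} {t θ : ℤ} {n : ℝ} (hn : 0 < n) (ht : 0 ≤ t) (hθ : 0 ≤ θ)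
    (h : θ ≤ u.1 - v.1) (h1 : ed u v ≤ 3 * n) (h2 : (t : ℝ) ≤ n) :
    ed u v + t * θ / (4 * n) ≤ ed (u.1 + t, u.2) v := by
  have e1 := ed_sq u v
  have e2 := ed_sq (u.1 + t, u.2) v
  simp only at e2
  push_cast at e1 e2
  have ht' : (0 : ℝ) ≤ (t : ℝ) := by exact_mod_cast ht
  have hθ' : (0 : ℝ) ≤ (θ : ℝ) := by exact_mod_cast hθ
  have h' : (θ : ℝ) ≤ (u.1 : ℝ) - (v.1 : ℝ) := by exact_mod_cast h
  have hE0 := ed_nonneg' u v
  set E := ed u v with hE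
  set a : ℝ := (u.1 : ℝ) - (v.1 : ℝ) with ha
  set b : ℝ := (u.2 : ℝ) - (v.2 : ℝ) with hb
  have f : (u.1 : ℝ) + (t : ℝ) - (v.1 : ℝ) = a + t := by rw [ha]; ring
  rw [f] at e2
  have ha0 : 0 ≤ a := hθ'.trans h'
  have haE : a ≤ E := by
    refine le_of_sq_le_sq ?_ hE0
    rw [e1]
    nlinarith [sq_nonneg b]
  have hθE : (θ : ℝ) ≤ 3 * n := (h'.trans haE).trans h1
  refine le_of_sq_le_sq ?_ (ed_nonneg' _ _)
  rw [e2]
  set s : ℝ := (t : ℝ) * θ with hs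
  have hs0 : 0 ≤ s := mul_nonneg ht' hθ'
  have hs1 : s ≤ 3 * n ^ 2 := by
    calc s ≤ n * (3 * n) := mul_le_mul h2 hθE hθ' hn.le
      _ = 3 * n ^ 2 := by ring
  have hx : s / (4 * n) * (4 * n) = s := by field_simp
  set X : ℝ := s / (4 * n) with hX
  have hX0 : 0 ≤ X := by positivity
  have k1 : E * X ≤ 3 / 4 * s := by
    calc E * X ≤ 3 * n * X := mul_le_mul_of_nonneg_right h1 hX0
      _ = 3 / 4 * (X * (4 * n)) := by ring
      _ = 3 / 4 * s := by rw [hx]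
  have k2 : X ≤ 3 / 4 * n := by
    have : X * (4 * n) ≤ 3 / 4 * n * (4 * n) := by rw [hx]; nlinarith
    exact le_of_mul_le_mul_right this (by positivity)
  have k3 : X ^ 2 ≤ 3 / 16 * s := by
    calc X ^ 2 = X * X := by ring
      _ ≤ 3 / 4 * n * X := mul_le_mul_of_nonneg_right k2 hX0
      _ = 3 / 16 * (X * (4 * n)) := by ring
      _ = 3 / 16 * s := by rw [hx]
  have k4 : s ≤ t * a := by
    rw [hs]
    exact mul_le_mul_of_nonneg_left h' ht'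
  calc (E + X) ^ 2 = E ^ 2 + 2 * (E * X) + X ^ 2 := by ring
    _ ≤ E ^ 2 + 2 * (t * a) + (t : ℝ) ^ 2 := by nlinarith [sq_nonneg (t : ℝ)]
    _ = (a + t) ^ 2 + b ^ 2 := by rw [e1]; ring

end Pool.Agent.NT6
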