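import Pool.Agent.Lib.MP_6bd702_nt.P1
import Pool.Agent.Lib.MP_6bd702_nt.P2

/-!
# Row A1: one arm

Scales `ρᵢ = 4 ^ (i + 1) ρ`, `i < m`. On `Arm x ρ r` with `2 ρ_{m-1} ≤ r` and for every `i` the path leads from
`sd ≤ ρᵢ` to `sd ≥ 2 ρᵢ`, so one of the four rectangles of the square annulus between `ρᵢ` and `2 ρᵢ` is crossed in the
short direction. All four are not crossed with probability at least `c ^ 4` (`rsw`, Harris), and the annuli
are disjoint.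
-/

set_option autoImplicit false

namespace Pool.Agent.NT6

open Finset Pool.Agent.MP_6bd702 Pool.Agent.MP_6bd702.H23 Pool.Agent.Perc

/-- One of the four rectangles of the square annulus is crossed in the short direction. -/
private def Cross4 (x : ℤ × ℤ) (s : ℤ) : Set (Set Ed) :=
  ({ω | HC (x.1 + s) (x.1 + 2 * s) (x.2 - 2 * s) (x.2 + 2 * s) ω} ∪
    {ω | HC (x.1 - 2 * s) (x.1 - s) (x.2 - 2 * s) (x.2 + 2 * s) ω}) ∪
  ({ω | VC (x.1 - 2 * s) (x.1 + 2 * s) (x.2 + s) (x.2 + 2 * s) ω} ∪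
    {ω | VC (x.1 - 2 * s) (x.1 + 2 * s) (x.2 - 2 * s) (x.2 - s) ω})

/-- The edges of the square annulus. -/
private noncomputable def EA (x : ℤ × ℤ) (s : ℤ) : Finset Ed :=
  (EW (x.1 + s) (x.1 + 2 * s) (x.2 - 2 * s) (x.2 + 2 * s) ∪
    EW (x.1 - 2 * s) (x.1 - s) (x.2 - 2 * s) (x.2 + 2 * s)) ∪
  (EW (x.1 - 2 * s) (x.1 + 2 * s) (x.2 + s) (x.2 + 2 * s) ∪
    EW (x.1 - 2 * s) (x.1 + 2 * s) (x.2 - 2 * s) (x.2 - s))

private theorem loc_union {W : Finset Ed} {A B : Set (Set Ed)} (hA : Loc W A) (hB : Loc W B) :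
    Loc W (A ∪ B) := fun ω => or_congr (hA ω) (hB ω)

private theorem loc_cross4 (x : ℤ × ℤ) (s : ℤ) : Loc (EA x s) (Cross4 x s) := by
  refine loc_union (loc_union ?_ ?_) (loc_union ?_ ?_)
  · exact PercW.Loc.mono (fun e he => mem_union_left _ (mem_union_left _ he)) (HC_loc _ _ _ _)
  · exact PercW.Loc.mono (fun e he => mem_union_left _ (mem_union_right _ he)) (HC_loc _ _ _ _)
  · exact PercW.Loc.mono (fun e he => mem_union_right _ (mem_union_left _ he)) (VC_loc _ _ _ _)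
  · exact PercW.Loc.mono (fun e he => mem_union_right _ (mem_union_right _ he)) (VC_loc _ _ _ _)

private theorem ea_far {x : ℤ × ℤ} {s : ℤ} (hs : 0 ≤ s) {e : Ed} (he : e ∈ EA x s) :
    sd (ea e) x ≤ 2 * s ∧ s ≤ sd (ea e) x := by
  unfold EA at he
  simp only [mem_union, mem_EW, mem_Rect] at he
  unfold sd
  rcases he with (h | h) | (h | h)
  · constructor
    · rw [max_le_iff, abs_le, abs_le]; omega
    · exact le_max_of_le_left (by rw [le_abs]; omega)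
  · constructor
    · rw [max_le_iff, abs_le, abs_le]; omega
    · exact le_max_of_le_left (by rw [le_abs]; omega)
  · constructor
    · rw [max_le_iff, abs_le, abs_le]; omega
    · exact le_max_of_le_right (by rw [le_abs]; omega)
  · constructor
    · rw [max_le_iff, abs_le, abs_le]; omega
    · exact le_max_of_le_right (by rw [le_abs]; omega)

private theorem hc_no {c₀ : ℝ} (h : ∀ w t : ℤ, 0 < w → 2 ≤ t → w ≤ (8 : ℕ) * t → c₀ ≤ hp w t)
    {a b c d s : ℤ} (hs : 3 ≤ s) (h1 : b - a = s) (h2 : d - c = 4 * s) (W : Finset Ed) :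
    c₀ ≤ pr W {ω | HC a b c d ω}ᶜ := by
  have h3 : c₀ ≤ pr W {ω | du ω ∈ {ω | VC a (b - 1) (c - 1) d ω}} := by
    refine le_trans ?_ (pr_dual_ge W (VC_loc _ _ _ _) (VC_mono _ _ _ _))
    rw [pr_vc]
    refine h _ _ (by omega) (by omega) ?_
    push_cast
    omega
  refine h3.trans (pr_mono fun ω hω h4 => ?_)
  exact block' (by omega) (by omega) h4 hω

private theorem vc_no {c₀ : ℝ} (h : ∀ w t : ℤ, 0 < w → 2 ≤ t → w ≤ (8 : ℕ) * t → c₀ ≤ hp w t)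
    {a b c d s : ℤ} (hs : 3 ≤ s) (h1 : d - c = s) (h2 : b - a = 4 * s) (W : Finset Ed) :
    c₀ ≤ pr W {ω | VC a b c d ω}ᶜ := by
  have h3 : c₀ ≤ pr W {ω | du ω ∈ {ω | HC (a - 1) b c (d - 1) ω}} := by
    refine le_trans ?_ (pr_dual_ge W (HC_loc _ _ _ _) (HC_mono _ _ _ _))
    rw [pr_hc]
    refine h _ _ (by omega) (by omega) ?_
    push_cast
    omega
  refine h3.trans (pr_mono fun ω hω h4 => ?_)
  exact block (by omega) (by omega) h4 hω

private theorem pr_cross4 : ∃ q : ℝ, 0 ≤ q ∧ q < 1 ∧ ∀ (x : ℤ × ℤ) (s : ℤ), 3 ≤ s → ∀ W : Finset Ed,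
    pr W (Cross4 x s) ≤ q := by
  obtain ⟨c₀, hc₀, h⟩ := rsw 8
  have hc1 : c₀ ≤ 1 := (h 1 2 (by norm_num) le_rfl (by norm_num)).trans (pr_le_one _ _)
  have hc4 : (c₀ * c₀) * (c₀ * c₀) ≤ 1 := by
    have h5 : c₀ * c₀ ≤ 1 := mul_le_one₀ hc1 hc₀.le hc1
    exact mul_le_one₀ h5 (by positivity) h5
  refine ⟨1 - (c₀ * c₀) * (c₀ * c₀), by linarith, by nlinarith [mul_pos (mul_pos hc₀ hc₀) (mul_pos hc₀ hc₀)],
    fun x s hs W => ?_⟩
  have low : ∀ {A : Set (Set Ed)}, IsUpperSet A → IsLowerSet Aᶜ := fun h => h.compl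
  have e1 := hc_no h (a := x.1 + s) (b := x.1 + 2 * s) (c := x.2 - 2 * s) (d := x.2 + 2 * s) hs
    (by ring) (by ring) W
  have e2 := hc_no h (a := x.1 - 2 * s) (b := x.1 - s) (c := x.2 - 2 * s) (d := x.2 + 2 * s) hs
    (by ring) (by ring) W
  have e3 := vc_no h (a := x.1 - 2 * s) (b := x.1 + 2 * s) (c := x.2 + s) (d := x.2 + 2 * s) hs
    (by ring) (by ring) W
  have e4 := vc_no h (a := x.1 - 2 * s) (b := x.1 + 2 * s) (c := x.2 - 2 * s) (d := x.2 - s) hs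
    (by ring) (by ring) W
  have f1 := harris_lo (W := W) (low (HC_mono (x.1 + s) (x.1 + 2 * s) (x.2 - 2 * s) (x.2 + 2 * s)))
    (low (HC_mono (x.1 - 2 * s) (x.1 - s) (x.2 - 2 * s) (x.2 + 2 * s)))
  have f2 := harris_lo (W := W) (low (VC_mono (x.1 - 2 * s) (x.1 + 2 * s) (x.2 + s) (x.2 + 2 * s)))
    (low (VC_mono (x.1 - 2 * s) (x.1 + 2 * s) (x.2 - 2 * s) (x.2 - s)))
  have g1 := (mul_le_mul e1 e2 hc₀.le (pr_nonneg _ _)).trans f1
  have g2 := (mul_le_mul e3 e4 hc₀.le (pr_nonneg _ _)).trans f2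
  have f3 := harris_lo (W := W)
    ((low (HC_mono (x.1 + s) (x.1 + 2 * s) (x.2 - 2 * s) (x.2 + 2 * s))).inter
      (low (HC_mono (x.1 - 2 * s) (x.1 - s) (x.2 - 2 * s) (x.2 + 2 * s))))
    ((low (VC_mono (x.1 - 2 * s) (x.1 + 2 * s) (x.2 + s) (x.2 + 2 * s))).inter
      (low (VC_mono (x.1 - 2 * s) (x.1 + 2 * s) (x.2 - 2 * s) (x.2 - s))))
  have g3 := (mul_le_mul g1 g2 (by positivity) (pr_nonneg _ _)).trans f3
  rw [← Set.compl_union, ← Set.compl_union, ← Set.compl_union, pr_compl] at g3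
  change _ ≤ 1 - pr W (Cross4 x s) at g3
  linarith

private theorem arm_sub {x : ℤ × ℤ} {ρ r s : ℤ} (hρ : ρ ≤ s) (hs : 0 < s) (hr : 2 * s ≤ r) :
    Arm x ρ r ⊆ Cross4 x s := by
  rintro ω ⟨u, v, hu, hv, h⟩
  have hu' : |u.1 - x.1| ≤ ρ ∧ |u.2 - x.2| ≤ ρ := max_le_iff.1 hu
  rw [abs_le, abs_le] at hu'
  have hv' : r ≤ |v.1 - x.1| ∨ r ≤ |v.2 - x.2| := le_max_iff.1 hv
  rw [le_abs, le_abs] at hv'
  have huR : u ∈ Rect (x.1 - 2 * s) (x.1 + 2 * s) (x.2 - 2 * s) (x.2 + 2 * s) := by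
    rw [mem_Rect]; omega
  obtain ⟨w, hwR, hw, hc⟩ := exit_rect (a := x.1 - 2 * s) (b := x.1 + 2 * s) (c := x.2 - 2 * s)
    (d := x.2 + 2 * s) huR (by omega) h
  rw [Set.univ_inter] at hc
  rcases hw with hw | hw | hw | hw
  · left; right
    exact hc_strip le_rfl (by omega) (by omega) hw.le hwR (by omega) hc.symm
  · left; left
    exact hc_strip (by omega) (by omega) le_rfl (by omega) huR (by omega) hc
  · right; right
    exact vc_strip le_rfl (by omega) (by omega) hw.le hwR (by omega) hc.symm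
  · right; left
    exact vc_strip (by omega) (by omega) le_rfl (by omega) huR (by omega) hc

private theorem pr_many {q : ℝ} (hq0 : 0 ≤ q) (hq : ∀ (x : ℤ × ℤ) (s : ℤ), 3 ≤ s → ∀ W : Finset Ed,
    pr W (Cross4 x s) ≤ q) (W : Finset Ed) (x : ℤ × ℤ) {ρ : ℤ} (hρ : 1 ≤ ρ) (m : ℕ) :
    pr W {ω | ∀ i < m, ω ∈ Cross4 x (4 ^ (i + 1) * ρ)} ≤ q ^ m := by
  have hpos : ∀ i : ℕ, (1 : ℤ) ≤ 4 ^ i := fun i => one_le_pow₀ (by norm_num)
  have hsc : ∀ i : ℕ, 4 ≤ (4 : ℤ) ^ (i + 1) * ρ := by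
    intro i
    have h1 : (4 : ℤ) ≤ 4 ^ (i + 1) := by rw [pow_succ]; have := hpos i; omega
    nlinarith
  refine PercW.pr_iInter_le hq0 (fun i => EA x (4 ^ (i + 1) * ρ))
    (fun i => Cross4 x (4 ^ (i + 1) * ρ)) ?_ (fun i => loc_cross4 _ _) m
    (fun i _ => hq x _ (by have := hsc i; omega) W)
  intro i j hij
  rw [Finset.disjoint_left]
  intro e h1 h2
  have h3 := (ea_far (by have := hsc i; omega) h1).1
  have h4 := (ea_far (by have := hsc j; omega) h2).2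
  have h5 : (4 : ℤ) ^ (i + 1) * 4 ≤ 4 ^ (j + 1) := by
    rw [← pow_succ]; exact pow_le_pow_right₀ (by norm_num) (by omega)
  have h6 : (4 : ℤ) ^ (i + 1) * 4 * ρ ≤ 4 ^ (j + 1) * ρ := mul_le_mul_of_nonneg_right h5 (by omega)
  have h7 := hsc i
  have h8 : (4 : ℤ) ^ (i + 1) * 4 * ρ = 4 * (4 ^ (i + 1) * ρ) := by ring
  omega

/-- One arm: long arms are unlikely in every window. -/
theorem one_arm : ∀ ε : ℝ, 0 < ε → ∃ K : ℕ, 1 ≤ K ∧ ∀ (W : Finset Ed) (x : ℤ × ℤ) (ρ r : ℤ),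
    1 ≤ ρ → K * ρ ≤ r → pr W (Arm x ρ r) ≤ ε := by
  intro ε hε
  obtain ⟨q, hq0, hq1, hq⟩ := pr_cross4
  obtain ⟨m, hm⟩ := exists_pow_lt_of_lt_one hε hq1
  refine ⟨2 * 4 ^ m, by have := Nat.one_le_pow m 4 (by norm_num); omega, fun W x ρ r hρ hr => ?_⟩
  have hpos : ∀ i : ℕ, (1 : ℤ) ≤ 4 ^ i := fun i => one_le_pow₀ (by norm_num)
  have hsc : ∀ i : ℕ, ρ ≤ 4 ^ (i + 1) * ρ ∧ 4 ≤ 4 ^ (i + 1) * ρ := by
    intro i
    have h1 : (4 : ℤ) ≤ 4 ^ (i + 1) := by rw [pow_succ]; have := hpos i; omega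
    constructor <;> nlinarith
  refine le_trans (pr_mono ?_) ((pr_many hq0 hq W x hρ m).trans hm.le)
  intro ω hω i hi
  refine arm_sub (hsc i).1 (by have := (hsc i).2; omega) ?_ hω
  have h2 : (4 : ℤ) ^ (i + 1) ≤ 4 ^ m := pow_le_pow_right₀ (by norm_num) (by omega)
  push_cast at hr
  nlinarith

end Pool.Agent.NT6
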