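import Pool.Agent.Lib.MP_6bd702_nt.P1
import Pool.Agent.Lib.MP_6bd702_nt.P2

/-!
# Row A2: exploration of a cluster

`Sc ω R w` = the edges with an end in the cluster. `cl_mix`: if `ζ` and `ω` agree on `Sc ω R w` then the
cluster of `w` is the same (two inclusions, induction on the path). `conn_mix`: a path of
`ζ = (ω ∩ S) ∪ (ξ \ S)` which starts outside the cluster never touches it, hence uses edges of `ξ` only.
-/

set_option autoImplicit false

namespace Pool.Agent.NT6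

open Finset Pool.Agent.MP_6bd702 Pool.Agent.MP_6bd702.H23 Pool.Agent.Perc

/-- The edges with an end in the cluster of `w`. -/
def Sc (R : Set (ℤ × ℤ)) (w : ℤ × ℤ) (ω : Set Ed) : Set Ed :=
  {e | ea e ∈ Cl ω R w ∨ eb e ∈ Cl ω R w}

theorem cl_congr {R : Set (ℤ × ℤ)} {w : ℤ × ℤ} {ω ω' : Set Ed}
    (h : ∀ e ∈ Sc R w ω, e ∈ ω ↔ e ∈ ω') : Cl ω' R w = Cl ω R w := by
  apply Set.Subset.antisymm
  · intro u hu
    have hu' : Relation.ReflTransGen (Step ω' R) w u := hu
    show Conn ω R w u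
    unfold Conn
    induction hu' with
    | refl => exact .refl
    | @tail b c hb h2 ih =>
      have ih := ih hb
      obtain ⟨hbR, hcR, e, he, hE⟩ := h2
      have heS : e ∈ Sc R w ω := by
        rcases hE with ⟨h1, _⟩ | ⟨_, h1⟩
        · left; rw [h1]; exact ih
        · right; rw [h1]; exact ih
      exact ih.tail ⟨hbR, hcR, e, (h e heS).mpr he, hE⟩
  · intro u hu
    have hu' : Relation.ReflTransGen (Step ω R) w u := hu
    show Conn ω' R w u
    unfold Conn
    induction hu' with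
    | refl => exact .refl
    | @tail b c hb h2 ih =>
      have ih := ih hb
      obtain ⟨hbR, hcR, e, he, hE⟩ := h2
      have heS : e ∈ Sc R w ω := by
        rcases hE with ⟨h1, _⟩ | ⟨_, h1⟩
        · left; rw [h1]; exact hb
        · right; rw [h1]; exact hb
      exact ih.tail ⟨hbR, hcR, e, (h e heS).mp he, hE⟩

theorem stop_Sc {W : Finset Ed} (R : Set (ℤ × ℤ)) (w : ℤ × ℤ) :
    ∀ ω ⊆ (W : Set Ed), ∀ ω' ⊆ (W : Set Ed), (∀ e ∈ Sc R w ω, e ∈ W → (e ∈ ω ↔ e ∈ ω')) →
      Sc R w ω' = Sc R w ω := by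
  intro ω hω ω' hω' h
  have h1 : Cl ω' R w = Cl ω R w := by
    apply cl_congr
    intro e he
    by_cases heW : e ∈ W
    · exact h e he heW
    · exact ⟨fun h2 => absurd (Finset.mem_coe.mp (hω h2)) heW,
        fun h2 => absurd (Finset.mem_coe.mp (hω' h2)) heW⟩
  unfold Sc
  rw [h1]

private theorem mix_iff {S ω ξ : Set Ed} {e : Ed} (he : e ∈ S) :
    e ∈ ω ↔ e ∈ (ω ∩ S) ∪ (ξ \ S) := by
  constructor
  · intro h; exact Or.inl ⟨h, he⟩
  · rintro (h | h)
    · exact h.1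
    · exact absurd he h.2

theorem cl_mix {R : Set (ℤ × ℤ)} {w : ℤ × ℤ} {ω ξ : Set Ed} :
    Cl ((ω ∩ Sc R w ω) ∪ (ξ \ Sc R w ω)) R w = Cl ω R w :=
  cl_congr fun _ he => mix_iff he

theorem conn_mix {R : Set (ℤ × ℤ)} {w p q : ℤ × ℤ} {ω ξ : Set Ed} (hp : p ∉ Cl ω R w)
    (h : Conn ((ω ∩ Sc R w ω) ∪ (ξ \ Sc R w ω)) R p q) : Conn ξ R p q := by
  set ζ : Set Ed := (ω ∩ Sc R w ω) ∪ (ξ \ Sc R w ω) with hζ
  have hcl : Cl ζ R w = Cl ω R w := cl_mix
  have key : ∀ b, Conn ζ R p b → b ∉ Cl ω R w := by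
    intro b hb hbw
    rw [← hcl] at hbw
    apply hp
    rw [← hcl]
    exact Conn.trans hbw hb.symm
  have h' : Relation.ReflTransGen (Step ζ R) p q := h
  show Relation.ReflTransGen (Step ξ R) p q
  induction h' with
  | refl => exact .refl
  | @tail b c hb h2 ih =>
    have ih := ih hb
    have hb' := key b hb
    have hc' := key c (Relation.ReflTransGen.tail hb h2)
    obtain ⟨hbR, hcR, e, he, hE⟩ := h2
    refine ih.tail ⟨hbR, hcR, e, ?_, hE⟩
    rcases he with he | he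
    · exfalso
      rcases he.2 with h3 | h3 <;> rcases hE with ⟨h4, h5⟩ | ⟨h4, h5⟩
      · rw [h4] at h3; exact hb' h3
      · rw [h4] at h3; exact hc' h3
      · rw [h5] at h3; exact hc' h3
      · rw [h5] at h3; exact hb' h3
    · exact he.1

end Pool.Agent.NT6
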