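import Pool.Agent.Lib.MP_6bd702_nt.A2

/-!
# Row A3: the expected number of large clusters

`number`: let `c` be from `small_clusters (K + 1)` (translate to the square `[a, a+n] × [b, b+n]` by
`pr_le_map (shiftL _ _)`; a lower event in the window `W ⊇ EW ..`: `pr_window`; note that the event in `W` is local: only
the edges of the square matter, `Conn_inter`). For `z` in the square let `A z` = {`z` smallest
vertex of its cluster, cluster `BigS K n`}, `X z` = `A z` and no other cluster of the square is `BigS K n`.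
`pr_mix` with `S = Sc R z` (A2), `B ω` = {all clusters of `ξ` in the square are small}: `c * pr (A z) ≤ pr (X z)`.
The events `X z` are disjoint, so `∑ pr (X z) ≤ 1` (a lemma on `pr` of disjoint events: `pr W` is
`Pr`, finitely additive; or bound `∑ pr (X z)` by `pr (⋃ X z)`). Every nonempty finite set of `ℤ × ℤ` has a smallest element for `toLex`.
`count_disj`: `pr W (E i) ≤ ∑_z pr W (A z ∩ {P i (Cl ω R z)})`, exchange the sums, disjointness.
-/

set_option autoImplicit false

namespace Pool.Agent.NT6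

open Finset Pool.Agent.MP_6bd702 Pool.Agent.MP_6bd702.H23 Pool.Agent.Perc

private theorem sum_pr_le_one' {ι : Type} (W : Finset Ed) (s : Finset ι) (X : ι → Set (Set Ed))
    (h : ∀ i ∈ s, ∀ j ∈ s, ∀ ω, ω ∈ X i → ω ∈ X j → i = j) : ∑ i ∈ s, pr W (X i) ≤ 1 := by
  classical
  have h1 : ∑ i ∈ s, pr W (X i) =
      Ex fun t : Finset W => ∑ i ∈ s, ({t : Finset W | cfg W t ∈ X i}.indicator
        (fun _ => (1 : ℝ)) t) := by
    rw [Ex_sum]
    rfl
  rw [h1]
  have h2 : Ex (fun _ : Finset W => (1 : ℝ)) = 1 := Ex_const 1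
  refine le_trans (Ex_mono (g := fun _ => (1 : ℝ)) fun t => ?_) h2.le
  by_cases h3 : ∃ i ∈ s, cfg W t ∈ X i
  · obtain ⟨i, hi, hit⟩ := h3
    rw [sum_eq_single i]
    · exact Set.indicator_le_self' (fun _ _ => zero_le_one) _
    · intro j hj hji
      refine Set.indicator_of_notMem (fun hjt => hji ?_) _
      exact h j hj i hi _ hjt hit
    · intro h4
      exact absurd hi h4
  · push Not at h3
    have h4 : ∑ i ∈ s, ({t : Finset W | cfg W t ∈ X i}.indicator (fun _ => (1 : ℝ)) t) = 0 := by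
      refine Finset.sum_eq_zero fun i hi => ?_
      have h5 : t ∉ {t : Finset W | cfg W t ∈ X i} := h3 i hi
      rw [Set.indicator_of_notMem h5]
    rw [h4]
    exact zero_le_one

private theorem small_window' (K : ℕ) : ∃ c > 0, ∀ n a b : ℤ, 0 ≤ n → ∀ W : Finset Ed,
    EW a (a + n) b (b + n) ⊆ W →
    c ≤ pr W {ξ | ∀ p ∈ Rect a (a + n) b (b + n), ∀ q, Conn ξ (Rect a (a + n) b (b + n)) p q →
      ¬ n < K * sd p q} := by
  obtain ⟨c, hc, h⟩ := small_clusters K
  refine ⟨c, hc, fun n a b hn W hW => (h n hn).trans ?_⟩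
  refine pr_le_map (shiftL a b) ?_ ?_
  · intro e he
    refine hW ?_
    rw [mem_EW] at he ⊢
    obtain ⟨x, y, t⟩ := e
    cases t <;> simp only [mem_Rect, shiftL, ea_mk, eb_true, eb_false] at he ⊢ <;> omega
  · intro ω hω p hp q hpq
    have hq : q ∈ Rect a (a + n) b (b + n) := hpq.mem hp
    have h1 : (shiftL (-a) (-b)).e ⁻¹' ((shiftL a b).e ⁻¹' ω) = ω := by
      ext ⟨x, y, t⟩
      simp [shiftL]
    have h2 : Conn ((shiftL a b).e ⁻¹' ω) (Rect 0 n 0 n) ((shiftL (-a) (-b)).v p)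
        ((shiftL (-a) (-b)).v q) := by
      refine LMap.conn (shiftL (-a) (-b)) (R := Rect a (a + n) b (b + n)) ?_ ?_
      · intro w hw
        simp only [mem_Rect, shiftL] at hw ⊢
        omega
      · rw [h1]
        exact hpq
    rw [Conn_inter (Set.Subset.refl _)] at h2
    have h3 := hω _ (by
      simp only [mem_Rect, shiftL] at hp ⊢
      omega) _ (by
      simp only [mem_Rect, shiftL] at hq ⊢
      omega) h2
    simp only [shiftL, add_sub_add_right_eq_sub] at h3
    rw [not_lt]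
    unfold sd
    rcases max_choice |p.1 - q.1| |p.2 - q.2| with h4 | h4
    · rw [h4]; exact h3.1
    · rw [h4]; exact h3.2

theorem number (K : ℕ) : ∃ C : ℝ, 0 ≤ C ∧ ∀ n a b : ℤ, 0 ≤ n → ∀ W : Finset Ed,
    EW a (a + n) b (b + n) ⊆ W →
    ∑ z ∈ Icc a (a + n) ×ˢ Icc b (b + n), pr W {ω | Mn ω (Rect a (a + n) b (b + n)) z ∧
      BigS K n (Cl ω (Rect a (a + n) b (b + n)) z)} ≤ C := by
  obtain ⟨c, hc, h⟩ := small_window' K
  refine ⟨1 / c, by positivity, fun n a b hn W hW => ?_⟩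
  have hB := h n a b hn W hW
  set R : Set (ℤ × ℤ) := Rect a (a + n) b (b + n) with hR
  have key : ∀ z : ℤ × ℤ, c * pr W {ω | Mn ω R z ∧ BigS K n (Cl ω R z)} ≤
      pr W {ω | Mn ω R z ∧ BigS K n (Cl ω R z) ∧
        ∀ p ∈ R, ∀ q, Conn ω R p q → n < K * sd p q → Conn ω R z p} := by
    intro z
    refine pr_mix (Sc R z) (stop_Sc R z) _
      (fun _ => {ξ | ∀ p ∈ R, ∀ q, Conn ξ R p q → ¬ n < K * sd p q}) _ ?_ ?_
    · intro ω _ _
      exact hB
    · rintro ω ⟨h1, h2⟩ _ ξ hξ _
      have h3 := cl_mix (R := R) (w := z) (ω := ω) (ξ := ξ)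
      refine ⟨?_, ?_, ?_⟩
      · intro u hu
        rw [h3] at hu
        exact h1 u hu
      · rw [h3]
        exact h2
      · intro p hp q hpq hlt
        by_contra hcon
        have h4 : p ∉ Cl ω R z := by
          rw [← h3]
          exact hcon
        exact hξ p hp q (conn_mix h4 hpq) hlt
  have hsum : ∑ z ∈ Icc a (a + n) ×ˢ Icc b (b + n), pr W {ω | Mn ω R z ∧ BigS K n (Cl ω R z) ∧
        ∀ p ∈ R, ∀ q, Conn ω R p q → n < K * sd p q → Conn ω R z p} ≤ 1 := by
    refine sum_pr_le_one' W _ _ ?_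
    rintro z hz z' hz' ω ⟨h1, h2, h3⟩ ⟨h1', ⟨u, hu, v, hv, huv⟩, h3'⟩
    have hzR : z' ∈ R := by
      rw [mem_product, mem_Icc, mem_Icc] at hz'
      rw [hR, mem_Rect]
      exact ⟨hz'.1.1, hz'.1.2, hz'.2.1, hz'.2.2⟩
    have hu' : Conn ω R z' u := hu
    have hv' : Conn ω R z' v := hv
    have h4 : Conn ω R z u := h3 u (hu'.mem hzR) v (hu'.symm.trans hv') huv
    have h5 : Conn ω R z z' := h4.trans hu'.symm
    have h6 := h1 z' h5
    have h7 := h1' z h5.symm
    exact toLex.injective (le_antisymm h6 h7)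
  rw [le_div_iff₀ hc, mul_comm, mul_sum]
  exact (sum_le_sum fun z _ => key z).trans hsum

end Pool.Agent.NT6
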