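import Pool.Agent.Lib.MP_6bd702_nt.A3

/-!
# Row A4: counting with exclusive properties of a large cluster

`pr W (E i) ≤ ∑_z pr W ({Mn, BigS} ∩ {P i (Cl ω R z)})` (the cluster has a smallest vertex `z'`, `Cl ω R z' = Cl ω R z`),
exchange the two sums; for fixed `z` the events `{P i (Cl ω R z)}` are disjoint for different `i`, so their sum is at
most `pr W {Mn, BigS}`; `number`.
-/

set_option autoImplicit false

namespace Pool.Agent.NT6

open Finset Pool.Agent.MP_6bd702 Pool.Agent.MP_6bd702.H23 Pool.Agent.Perc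

private theorem Cl_eq {ω : Set Ed} {R : Set (ℤ × ℤ)} {z z' : ℤ × ℤ} (h : Conn ω R z z') :
    Cl ω R z' = Cl ω R z := by
  ext u
  exact ⟨fun h1 => h.trans h1, fun h1 => h.symm.trans h1⟩

theorem count_disj (K : ℕ) : ∃ C : ℝ, 0 ≤ C ∧ ∀ n a b : ℤ, 0 ≤ n → ∀ W : Finset Ed,
    EW a (a + n) b (b + n) ⊆ W → ∀ (s : Finset ℕ) (E : ℕ → Set (Set Ed))
    (P : ℕ → Set (ℤ × ℤ) → Prop),
    (∀ i ∈ s, ∀ j ∈ s, i ≠ j → ∀ X, P i X → ¬ P j X) →
    (∀ i ∈ s, ∀ ω ⊆ (W : Set Ed), ω ∈ E i → ∃ z ∈ Rect a (a + n) b (b + n),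
      BigS K n (Cl ω (Rect a (a + n) b (b + n)) z) ∧
      P i (Cl ω (Rect a (a + n) b (b + n)) z)) →
    ∑ i ∈ s, pr W (E i) ≤ C := by
  classical
  obtain ⟨C, hC, hN⟩ := number K
  refine ⟨C, hC, fun n a b hn W hW s E P hP hE => le_trans ?_ (hN n a b hn W hW)⟩
  unfold pr Pr
  rw [← Ex_sum, ← Ex_sum]
  refine Ex_mono fun t => ?_
  have hsub : cfg W t ⊆ (W : Set Ed) := cfg_sub
  have key : ∀ i, i ∈ s → cfg W t ∈ E i → ∃ z, z ∈ Icc a (a + n) ×ˢ Icc b (b + n) ∧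
      (Mn (cfg W t) (Rect a (a + n) b (b + n)) z ∧
        BigS K n (Cl (cfg W t) (Rect a (a + n) b (b + n)) z)) ∧
      P i (Cl (cfg W t) (Rect a (a + n) b (b + n)) z) := by
    intro i hi hω
    obtain ⟨z, hz, hb, hp⟩ := hE i hi (cfg W t) hsub hω
    have hgrid : ∀ u, Conn (cfg W t) (Rect a (a + n) b (b + n)) z u →
        u ∈ Icc a (a + n) ×ˢ Icc b (b + n) := by
      intro u hu
      have := hu.mem hz
      rw [mem_Rect] at this
      rw [mem_product, mem_Icc, mem_Icc]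
      exact ⟨⟨this.1, this.2.1⟩, this.2.2⟩
    have hne : ((Icc a (a + n) ×ˢ Icc b (b + n)).filter fun u =>
        Conn (cfg W t) (Rect a (a + n) b (b + n)) z u).Nonempty :=
      ⟨z, mem_filter.2 ⟨hgrid z .refl, .refl⟩⟩
    obtain ⟨z', hz', hmin⟩ := exists_min_image _ (fun u : ℤ × ℤ => toLex u) hne
    rw [mem_filter] at hz'
    have hcl := Cl_eq hz'.2
    refine ⟨z', hz'.1, ⟨?_, ?_⟩, ?_⟩
    · intro u hu
      rw [hcl] at hu
      exact hmin u (mem_filter.2 ⟨hgrid u hu, hu⟩)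
    · rw [hcl]
      exact hb
    · rw [hcl]
      exact hp
  choose! f hf using key
  have e1 : ∀ i, ({x : Finset W | cfg W x ∈ E i} : Set (Finset W)).indicator
      (fun _ => (1 : ℝ)) t = if cfg W t ∈ E i then 1 else 0 := by
    intro i
    simp [Set.indicator]
  have e2 : ∀ z, ({x : Finset W | cfg W x ∈ {ω | Mn ω (Rect a (a + n) b (b + n)) z ∧
      BigS K n (Cl ω (Rect a (a + n) b (b + n)) z)}} : Set (Finset W)).indicator
      (fun _ => (1 : ℝ)) t = if (Mn (cfg W t) (Rect a (a + n) b (b + n)) z ∧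
        BigS K n (Cl (cfg W t) (Rect a (a + n) b (b + n)) z)) then 1 else 0 := by
    intro z
    simp [Set.indicator]
  simp only [e1, e2]
  rw [sum_boole, sum_boole]
  norm_cast
  refine card_le_card_of_injOn f ?_ ?_
  · intro i hi
    have hi' := mem_filter.1 (mem_coe.1 hi)
    obtain ⟨h1, h2, -⟩ := hf i hi'.1 hi'.2
    exact mem_coe.2 (mem_filter.2 ⟨h1, h2⟩)
  · intro i hi j hj hij
    have hi' := mem_filter.1 (mem_coe.1 hi)
    have hj' := mem_filter.1 (mem_coe.1 hj)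
    by_contra hne
    have h1 := (hf i hi'.1 hi'.2).2.2
    have h2 := (hf j hj'.1 hj'.2).2.2
    rw [← hij] at h2
    exact hP i hi'.1 j hj'.1 hne _ h1 h2

end Pool.Agent.NT6
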