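import Pool.Agent.Lib.MP_6bd702_nt.A1
import Pool.Agent.Lib.MP_6bd702_nt.A3

/-!
# Row A5: no other long cluster near the extreme points of a large cluster

For `z` in the box let `A z` = {`Mn`, `BigS K n`}, `x₁, x₂` the two points of `ext (Cl ω (Bx n) z)` (a function of the
cluster). `pr_mix` with `S = Sc (Bx n) z`, `B ω` = complement of `Arm x₁ ρ r ∪ Arm x₂ ρ r`, `X` = `A z` minus the bad event for `z`:
`(1 - 2 ε') pr (A z) ≤ pr (A z \ bad z)` hence `pr (A z ∩ bad z) ≤ 2 ε' pr (A z)`. Here: if `(ω ∩ S) ∪ (ξ \ S)` is in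
`bad z` then (`cl_mix`, `conn_mix`) the path from `p` to `q` is open in `ξ`. Sum over `z`: `≤ 2 ε' C` (`number`).
The event of the theorem is contained in the union over `z` of `A z ∩ bad z` (replace `z` by the smallest vertex of its cluster).
-/

set_option autoImplicit false

namespace Pool.Agent.NT6

open Finset Pool.Agent.MP_6bd702 Pool.Agent.MP_6bd702.H23 Pool.Agent.Perc

private theorem pr_split' (W : Finset Ed) (A B : Set (Set Ed)) :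
    pr W (A ∩ B) + pr W (A \ B) = pr W A := by
  unfold pr Pr
  rw [← Ex_add]
  refine Ex_congr fun s => ?_
  by_cases h1 : cfg W s ∈ A <;> by_cases h2 : cfg W s ∈ B <;> simp [Set.indicator, h1, h2]

private theorem pr_empty' (W : Finset Ed) : pr W (∅ : Set (Set Ed)) = 0 := by
  have h := pr_compl W Set.univ
  rw [Set.compl_univ, pr_univ, sub_self] at h
  exact h

private theorem pr_biUnion' (W : Finset Ed) {ι : Type} [DecidableEq ι] (s : Finset ι)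
    (A : ι → Set (Set Ed)) : pr W (⋃ i ∈ s, A i) ≤ ∑ i ∈ s, pr W (A i) := by
  induction s using Finset.induction_on with
  | empty => simp [pr_empty']
  | insert a s ha ih =>
    rw [Finset.set_biUnion_insert, Finset.sum_insert ha]
    exact (pr_union_le _ _ _).trans (add_le_add le_rfl ih)

/-- The chosen pair of a finite nonempty set. -/
theorem ext_spec {X : Set (ℤ × ℤ)} (hf : X.Finite) (hne : X.Nonempty) :
    (ext X).1 ∈ X ∧ (ext X).2 ∈ X ∧ ∀ a ∈ X, ∀ b ∈ X, ed a b ≤ ed (ext X).1 (ext X).2 := by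
  have h : ∃ p : (ℤ × ℤ) × (ℤ × ℤ), p.1 ∈ X ∧ p.2 ∈ X ∧
      ∀ a ∈ X, ∀ b ∈ X, ed a b ≤ ed p.1 p.2 := by
    obtain ⟨p, hp, hmax⟩ := Set.exists_max_image (X ×ˢ X)
      (fun p : (ℤ × ℤ) × (ℤ × ℤ) => ed p.1 p.2) (hf.prod hf) (hne.prod hne)
    exact ⟨p, hp.1, hp.2, fun a ha b hb => hmax (a, b) ⟨ha, hb⟩⟩
  unfold ext
  rw [dif_pos h]
  exact h.choose_spec

/-- `z` is the smallest vertex of a large cluster. -/
private def GA (K n : ℕ) (z : ℤ × ℤ) : Set (Set Ed) :=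
  {ω | Mn ω (Bx n) z ∧ BigS K n (Cl ω (Bx n) z)}

/-- Another long cluster near one of the extreme points of the cluster of `z`. -/
private def Bd (n : ℕ) (ρ r : ℤ) (z : ℤ × ℤ) : Set (Set Ed) :=
  {ω | ∃ x, (x = (ext (Cl ω (Bx n) z)).1 ∨ x = (ext (Cl ω (Bx n) z)).2) ∧
    ∃ p q, ¬ Conn ω (Bx n) z p ∧ Conn ω (Bx n) p q ∧ sd p x ≤ ρ ∧ r ≤ sd q x}

private theorem bad_step {ε : ℝ} (K : ℕ) {n : ℕ} {ρ r : ℤ} (z : ℤ × ℤ)
    (harm : ∀ x, pr (EW 0 n 0 n) (Arm x ρ r) ≤ ε) :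
    pr (EW 0 n 0 n) (GA K n z ∩ Bd n ρ r z) ≤ 2 * ε * pr (EW 0 n 0 n) (GA K n z) := by
  have key : (1 - 2 * ε) * pr (EW 0 n 0 n) (GA K n z) ≤
      pr (EW 0 n 0 n) (GA K n z \ Bd n ρ r z) := by
    refine pr_mix (Sc (Bx n) z) (stop_Sc (Bx n) z) (GA K n z)
      (fun ω => (Arm (ext (Cl ω (Bx n) z)).1 ρ r ∪ Arm (ext (Cl ω (Bx n) z)).2 ρ r)ᶜ)
      _ ?_ ?_
    · intro ω _ _
      rw [pr_compl]
      have h1 := pr_union_le (EW 0 n 0 n) (Arm (ext (Cl ω (Bx n) z)).1 ρ r)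
        (Arm (ext (Cl ω (Bx n) z)).2 ρ r)
      have h2 := harm (ext (Cl ω (Bx n) z)).1
      have h3 := harm (ext (Cl ω (Bx n) z)).2
      linarith
    · intro ω hω _ ξ hξ _
      have hcl : Cl ((ω ∩ Sc (Bx n) z ω) ∪ (ξ \ Sc (Bx n) z ω)) (Bx n) z = Cl ω (Bx n) z := cl_mix
      refine ⟨⟨?_, ?_⟩, ?_⟩
      · intro u hu
        rw [hcl] at hu
        exact hω.1 u hu
      · rw [hcl]; exact hω.2
      · rintro ⟨x, hx, p, q, hzp, hpq, h1, h2⟩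
        rw [hcl] at hx
        have hp : p ∉ Cl ω (Bx n) z := by
          rw [← hcl]; exact hzp
        have hc : Conn ξ Set.univ p q := (conn_mix hp hpq).mono le_rfl (Set.subset_univ _)
        apply hξ
        rcases hx with hx | hx
        · exact Or.inl ⟨p, q, hx ▸ h1, hx ▸ h2, hc⟩
        · exact Or.inr ⟨p, q, hx ▸ h1, hx ▸ h2, hc⟩
  have hs := pr_split' (EW 0 n 0 n) (GA K n z) (Bd n ρ r z)
  nlinarith

private theorem bx_finite (n : ℕ) : (Bx n).Finite := by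
  refine ((Icc (0 : ℤ) n ×ˢ Icc (0 : ℤ) n).finite_toSet).subset ?_
  rintro ⟨x, y⟩ ⟨h1, h2, h3, h4⟩
  simp only [coe_product, coe_Icc, Set.mem_prod, Set.mem_Icc]
  exact ⟨⟨h1, h2⟩, h3, h4⟩

theorem neighbours (K : ℕ) : ∀ ε : ℝ, 0 < ε → ∃ K' : ℕ, 1 ≤ K' ∧ ∀ (n : ℕ) (ρ r : ℤ),
    1 ≤ ρ → K' * ρ ≤ r →
    pr (EW 0 n 0 n) {ω | ∃ z ∈ Bx n, BigS K n (Cl ω (Bx n) z) ∧
      ∃ x, (x = (ext (Cl ω (Bx n) z)).1 ∨ x = (ext (Cl ω (Bx n) z)).2) ∧
      ∃ p q, ¬ Conn ω (Bx n) z p ∧ Conn ω (Bx n) p q ∧ sd p x ≤ ρ ∧ r ≤ sd q x} ≤ ε := by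
  intro ε hε
  obtain ⟨C, hC0, hC⟩ := number K
  obtain ⟨K', hK', harm⟩ := one_arm (ε / (2 * (C + 1))) (by positivity)
  refine ⟨K', hK', fun n ρ r hρ hr => ?_⟩
  have hnum := hC n 0 0 (by positivity) (EW 0 n 0 n) (by simp)
  simp only [zero_add] at hnum
  have hsub : {ω | ∃ z ∈ Bx n, BigS K n (Cl ω (Bx n) z) ∧
      ∃ x, (x = (ext (Cl ω (Bx n) z)).1 ∨ x = (ext (Cl ω (Bx n) z)).2) ∧
      ∃ p q, ¬ Conn ω (Bx n) z p ∧ Conn ω (Bx n) p q ∧ sd p x ≤ ρ ∧ r ≤ sd q x} ⊆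
      ⋃ z ∈ Icc (0 : ℤ) n ×ˢ Icc (0 : ℤ) n, (GA K n z ∩ Bd n ρ r z) := by
    rintro ω ⟨z, hz, hbig, x, hx, p, q, hzp, hpq, h1, h2⟩
    have hfin : (Cl ω (Bx n) z).Finite :=
      (bx_finite n).subset fun u hu => Conn.mem hu hz
    have hne : (Cl ω (Bx n) z).Nonempty := ⟨z, Relation.ReflTransGen.refl⟩
    obtain ⟨w, hw, hmin⟩ := Set.exists_min_image (Cl ω (Bx n) z) (fun u => toLex u) hfin hne
    have hzw : Conn ω (Bx n) z w := hw
    have hcl : Cl ω (Bx n) w = Cl ω (Bx n) z := by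
      ext u
      exact ⟨fun h => hzw.trans h, fun h => hzw.symm.trans h⟩
    have hwB : w ∈ Bx n := hzw.mem hz
    simp only [Set.mem_iUnion]
    refine ⟨w, ?_, ⟨?_, ?_⟩, x, ?_, p, q, ?_, hpq, h1, h2⟩
    · obtain ⟨a1, a2, a3, a4⟩ := hwB
      simp only [mem_product, mem_Icc]
      exact ⟨⟨a1, a2⟩, a3, a4⟩
    · intro u hu
      rw [hcl] at hu
      exact hmin u hu
    · rw [hcl]; exact hbig
    · rw [hcl]; exact hx
    · exact fun h => hzp (hzw.trans h)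
  have harm' : ∀ x, pr (EW 0 n 0 n) (Arm x ρ r) ≤ ε / (2 * (C + 1)) := fun x =>
    harm _ x ρ r hρ hr
  calc _ ≤ pr (EW 0 n 0 n) (⋃ z ∈ Icc (0 : ℤ) n ×ˢ Icc (0 : ℤ) n, (GA K n z ∩ Bd n ρ r z)) :=
        pr_mono hsub
    _ ≤ ∑ z ∈ Icc (0 : ℤ) n ×ˢ Icc (0 : ℤ) n, pr (EW 0 n 0 n) (GA K n z ∩ Bd n ρ r z) :=
        pr_biUnion' _ _ _
    _ ≤ ∑ z ∈ Icc (0 : ℤ) n ×ˢ Icc (0 : ℤ) n, 2 * (ε / (2 * (C + 1))) *
          pr (EW 0 n 0 n) (GA K n z) :=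
        Finset.sum_le_sum fun z _ => bad_step K z harm'
    _ = 2 * (ε / (2 * (C + 1))) * ∑ z ∈ Icc (0 : ℤ) n ×ˢ Icc (0 : ℤ) n,
          pr (EW 0 n 0 n) (GA K n z) := by rw [Finset.mul_sum]
    _ ≤ 2 * (ε / (2 * (C + 1))) * C := by
        refine mul_le_mul_of_nonneg_left ?_ (by positivity)
        exact hnum
    _ ≤ ε := by
        have h : 2 * (ε / (2 * (C + 1))) * C = ε * (C / (C + 1)) := by
          field_simp
        rw [h]
        have h2 : C / (C + 1) ≤ 1 := by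
          rw [div_le_one (by positivity)]; linarith
        nlinarith

end Pool.Agent.NT6
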