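import Pool.Agent.Lib.MP_6bd702_nt.P1
import Pool.Agent.Lib.MP_6bd702_nt.A4

/-!
# Row A6: flat extremes

Let `C₀` be from `count_disj 5`. If `r < 2 t` use `pr ≤ 1`. Else `I = r / (2 t) ≥ 1`, `B₀ = Rect (x₀ - 2 r) (x₀ + 2 r) (y₀ - 2 r) (y₀ + 2 r)`
(side `4 r`), `W' = EW (x₀ - 5 r) (x₀ + 5 r) (y₀ - 5 r) (y₀ + 5 r)`, `E i = Flat (x₀ + i t) y₀ r t`, `i < I`,
`P i X` = (some `u ∈ X` has `u.1 ≤ x₀ + (i+1) t`) and (all `w ∈ X` have `x₀ + i t < w.1`). For `ω ∈ E i` with the vertex `u` (`u.1 ≤ x₀ + r/2`):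
`Cl ω B₀ u ⊆` the cluster in the larger square, and by `exit_rect` it contains a vertex on the boundary
of `B₀`, at distance `≥ r` from `u`: `BigS 5 (4 r)`. By translation (`pr_le_map (shiftL ..)`) `pr (EW local) (Flat x₀ ..) ≤ pr W' (E i)`, and
`pr W (Flat ..) = pr (EW local) (Flat ..)` (`pr_window`, the event is local). So `I * pr ≤ C₀`, `I ≥ r / (4 t)`.
-/

set_option autoImplicit false

namespace Pool.Agent.NT6

open Finset Pool.Agent.MP_6bd702 Pool.Agent.MP_6bd702.H23 Pool.Agent.Perc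

private theorem Flat_loc (x₀ y₀ r t : ℤ) :
    Loc (EW (x₀ - 4 * r) (x₀ + 4 * r) (y₀ - 4 * r) (y₀ + 4 * r)) (Flat x₀ y₀ r t) := by
  intro ω
  have key : ∀ u w, Conn ω (Rect (x₀ - 4 * r) (x₀ + 4 * r) (y₀ - 4 * r) (y₀ + 4 * r)) u w ↔
      Conn (ω ∩ EW (x₀ - 4 * r) (x₀ + 4 * r) (y₀ - 4 * r) (y₀ + 4 * r))
        (Rect (x₀ - 4 * r) (x₀ + 4 * r) (y₀ - 4 * r) (y₀ + 4 * r)) u w :=
    fun u w => Conn_inter (Set.Subset.refl _)
  unfold Flat
  simp only [Set.mem_ofPred_eq, key]

private theorem shift_conn {ω : Set Ed} (s : ℤ) {a b c d : ℤ} (u w : ℤ × ℤ) :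
    Conn ((shiftL s 0).e ⁻¹' ω) (Rect a b c d) u w ↔
      Conn ω (Rect (a + s) (b + s) c d) (u.1 + s, u.2) (w.1 + s, w.2) := by
  constructor
  · intro h
    have h1 := (shiftL s 0).conn (R' := Rect (a + s) (b + s) c d) (fun v hv => by
      rw [mem_Rect] at hv ⊢
      simp only [shiftL]
      omega) h
    simpa [shiftL] using h1
  · intro h
    have h0 : ω = (shiftL (-s) 0).e ⁻¹' ((shiftL s 0).e ⁻¹' ω) := by
      ext e
      simp only [Set.mem_preimage, shiftL]
      have : ((e.1 + -s + s, e.2.1 + 0 + 0, e.2.2) : Ed) = e := by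
        obtain ⟨x, y, b⟩ := e
        simp
      rw [this]
    rw [h0] at h
    have h1 := (shiftL (-s) 0).conn (R' := Rect a b c d) (fun v hv => by
      rw [mem_Rect] at hv ⊢
      simp only [shiftL]
      omega) h
    simpa [shiftL] using h1

private theorem flat_shift {x₀ y₀ r t s : ℤ} (hs : 0 ≤ s) (hsr : s ≤ r) :
    pr (EW (x₀ - 4 * r) (x₀ + 4 * r) (y₀ - 4 * r) (y₀ + 4 * r)) (Flat x₀ y₀ r t) ≤
      pr (EW (x₀ - 5 * r) (x₀ + 5 * r) (y₀ - 5 * r) (y₀ + 5 * r)) (Flat (x₀ + s) y₀ r t) := by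
  refine pr_le_map (shiftL s 0) ?_ ?_
  · intro e he
    rw [mem_EW] at he ⊢
    have h1 : ea ((shiftL s 0).e e) = ((ea e).1 + s, (ea e).2) := by
      rcases (shiftL s 0).ends e with h | h
      · rw [h.1]
        simp [shiftL]
      · obtain ⟨x, y, b⟩ := e
        simp [shiftL]
    have h2 : eb ((shiftL s 0).e e) = ((eb e).1 + s, (eb e).2) := by
      obtain ⟨x, y, b⟩ := e
      cases b
      · simp only [shiftL, eb_false]
        ext
        · simp only
          omega
        · simp only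
          omega
      · simp only [shiftL, eb_true]
        ext
        · simp only
        · simp only
          omega
    rw [h1, h2]
    simp only [mem_Rect] at he ⊢
    omega
  · intro ω hω
    have h1 := (Flat_loc x₀ y₀ r t ((shiftL s 0).e ⁻¹' ω)).2 hω
    obtain ⟨u, hu1, hu2, hu3, hu4, w, hw1, hw2⟩ := h1
    have hb : x₀ + s - 4 * r = x₀ - 4 * r + s := by ring
    have hb' : x₀ + s + 4 * r = x₀ + 4 * r + s := by ring
    refine ⟨(u.1 + s, u.2), by simp only; omega, by simp only; omega, hu3, ?_,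
      (w.1 + s, w.2), ?_, ?_⟩
    · intro v hv
      rw [hb, hb'] at hv
      have hv' : v = ((v.1 - s) + s, v.2) := by
        ext <;> simp
      rw [hv'] at hv
      have h2 := (shift_conn s u (v.1 - s, v.2)).2 hv
      have h3 := hu4 _ h2
      simp only at h3
      omega
    · rw [hb, hb']
      exact (shift_conn s u w).1 hw1
    · simp only
      rcases hw2 with h | h
      · left
        have : w.1 + s - (x₀ + s) = w.1 - x₀ := by ring
        rw [this]
        exact h
      · right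
        exact h

theorem flat_le : ∃ C : ℝ, 0 ≤ C ∧ ∀ x₀ y₀ r t : ℤ, 1 ≤ t → 1 ≤ r → ∀ W : Finset Ed,
    EW (x₀ - 4 * r) (x₀ + 4 * r) (y₀ - 4 * r) (y₀ + 4 * r) ⊆ W →
    pr W (Flat x₀ y₀ r t) * r ≤ C * t := by
  obtain ⟨C₀, hC₀, hcount⟩ := count_disj 5
  refine ⟨4 * C₀ + 2, by linarith, fun x₀ y₀ r t ht hr W hW => ?_⟩
  have ht' : (1 : ℝ) ≤ t := by exact_mod_cast ht
  have hr' : (1 : ℝ) ≤ r := by exact_mod_cast hr
  have hp0 := pr_nonneg W (Flat x₀ y₀ r t)
  have hp1 := pr_le_one W (Flat x₀ y₀ r t)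
  rcases lt_or_ge r (2 * t) with h | h
  · have h' : (r : ℝ) ≤ 2 * t := by exact_mod_cast h.le
    have h1 : pr W (Flat x₀ y₀ r t) * r ≤ 1 * (2 * t) :=
      mul_le_mul hp1 h' (by linarith) zero_le_one
    have h2 : 0 ≤ C₀ * t := mul_nonneg hC₀ (by linarith)
    linarith
  · obtain ⟨q, hq⟩ : ∃ q, q = r / (2 * t) := ⟨_, rfl⟩
    have h2t : 0 < 2 * t := by omega
    have hq1 : 1 ≤ q := by
      rw [hq]
      exact (Int.le_ediv_iff_mul_le h2t).2 (by linarith)
    have hq2 : q * (2 * t) ≤ r := by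
      rw [hq]
      exact Int.ediv_mul_le r h2t.ne'
    have hq3 : r < (q + 1) * (2 * t) := by
      rw [hq]
      exact Int.lt_ediv_add_one_mul_self r h2t
    have hmem : ∀ i ∈ range q.toNat, 0 ≤ (i : ℤ) * t ∧ (i : ℤ) * t + t ≤ q * t := by
      intro i hi
      rw [mem_range] at hi
      have h1 : (i : ℤ) + 1 ≤ q := by omega
      refine ⟨by positivity, ?_⟩
      have := mul_le_mul_of_nonneg_right h1 (by omega : (0 : ℤ) ≤ t)
      linarith
    have hqt : 2 * (q * t) ≤ r := by linarith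
    have hsum := hcount (4 * r) (x₀ - 2 * r) (y₀ - 2 * r) (by omega)
      (EW (x₀ - 5 * r) (x₀ + 5 * r) (y₀ - 5 * r) (y₀ + 5 * r))
      (EW_sub (by omega) (by omega) (by omega) (by omega)) (range q.toNat)
      (fun i => Flat (x₀ + (i : ℤ) * t) y₀ r t)
      (fun i X => (∃ u ∈ X, u.1 ≤ x₀ + (i : ℤ) * t + t) ∧ ∀ w ∈ X, x₀ + (i : ℤ) * t < w.1)
      (by
        intro i _ j _ hij X hPi hPj
        obtain ⟨⟨u, hu, hu1⟩, hi2⟩ := hPi
        obtain ⟨⟨v, hv, hv1⟩, hj2⟩ := hPj
        have g1 := hj2 u hu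
        have g2 := hi2 v hv
        rcases lt_or_gt_of_ne hij with hl | hl
        · have : ((i : ℤ) + 1) * t ≤ j * t :=
            mul_le_mul_of_nonneg_right (by exact_mod_cast hl) (by omega)
          linarith
        · have : ((j : ℤ) + 1) * t ≤ i * t :=
            mul_le_mul_of_nonneg_right (by exact_mod_cast hl) (by omega)
          linarith)
      (by
        intro i hi ω _ hω
        obtain ⟨hi1, hi2⟩ := hmem i hi
        obtain ⟨u, hu1, hu2, hu3, hu4, w, hw1, hw2⟩ := hω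
        have e1 : x₀ - 2 * r + 4 * r = x₀ + 2 * r := by ring
        have e2 : y₀ - 2 * r + 4 * r = y₀ + 2 * r := by ring
        rw [e1, e2]
        rw [abs_le] at hu3
        have huB : u ∈ Rect (x₀ - 2 * r) (x₀ + 2 * r) (y₀ - 2 * r) (y₀ + 2 * r) := by
          rw [mem_Rect]
          omega
        have hsub : Rect (x₀ - 2 * r) (x₀ + 2 * r) (y₀ - 2 * r) (y₀ + 2 * r) ⊆
            Rect (x₀ + (i : ℤ) * t - 4 * r) (x₀ + (i : ℤ) * t + 4 * r) (y₀ - 4 * r)
              (y₀ + 4 * r) := by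
          intro v hv
          rw [mem_Rect] at hv ⊢
          omega
        have hcl : ∀ v, Conn ω (Rect (x₀ - 2 * r) (x₀ + 2 * r) (y₀ - 2 * r) (y₀ + 2 * r)) u v →
            x₀ + (i : ℤ) * t < v.1 := fun v hv => hu4 v (hv.mono le_rfl hsub)
        refine ⟨u, huB, ?_, ⟨u, .refl, hu2⟩, hcl⟩
        obtain ⟨w', hw', hside, hcw⟩ := exit_rect huB (w := w) (by
          rcases hw2 with h1 | h1
          · rcases le_abs.1 h1 with h2 | h2
            · right; left; omega
            · left; omega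
          · rcases le_abs.1 h1 with h2 | h2
            · right; right; right; omega
            · right; right; left; omega) hw1
        refine ⟨u, .refl, w', hcw.mono le_rfl Set.inter_subset_right, ?_⟩
        have hsd : r ≤ sd u w' := by
          unfold sd
          rcases hside with h1 | h1 | h1 | h1
          · refine le_max_of_le_left (le_abs.2 ?_)
            omega
          · refine le_max_of_le_left (le_abs.2 ?_)
            omega
          · refine le_max_of_le_right (le_abs.2 ?_)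
            omega
          · refine le_max_of_le_right (le_abs.2 ?_)
            omega
        push_cast
        omega)
    have hle : ∀ i ∈ range q.toNat, pr W (Flat x₀ y₀ r t) ≤
        pr (EW (x₀ - 5 * r) (x₀ + 5 * r) (y₀ - 5 * r) (y₀ + 5 * r))
          (Flat (x₀ + (i : ℤ) * t) y₀ r t) := by
      intro i hi
      obtain ⟨hi1, hi2⟩ := hmem i hi
      rw [pr_window hW (Flat_loc x₀ y₀ r t)]
      exact flat_shift hi1 (by omega)
    have h3 := (card_nsmul_le_sum _ _ _ hle).trans hsum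
    rw [card_range, nsmul_eq_mul] at h3
    have hcast : ((q.toNat : ℕ) : ℝ) = (q : ℝ) := by
      have : ((q.toNat : ℕ) : ℤ) = q := Int.toNat_of_nonneg (by omega)
      exact_mod_cast this
    rw [hcast] at h3
    have hr4 : (r : ℝ) ≤ q * (4 * t) := by
      have h5 : r ≤ q * (4 * t) := by
        have : (q + 1) * (2 * t) ≤ (q + q) * (2 * t) :=
          mul_le_mul_of_nonneg_right (by omega) (by omega)
        linarith
      exact_mod_cast h5
    calc pr W (Flat x₀ y₀ r t) * r ≤ pr W (Flat x₀ y₀ r t) * (q * (4 * t)) :=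
          mul_le_mul_of_nonneg_left hr4 hp0
      _ = (q * pr W (Flat x₀ y₀ r t)) * (4 * t) := by ring
      _ ≤ C₀ * (4 * t) := mul_le_mul_of_nonneg_right h3 (by linarith)
      _ ≤ (4 * C₀ + 2) * t := by linarith

end Pool.Agent.NT6
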