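import Pool.Agent.Lib.MP_6bd702_nt.P1
import Pool.Agent.Lib.MP_6bd702_nt.A4

/-!
# Row A7: highest points on a side

As A6 with vertical translations. `C₀` from `count_disj 5`; if `l < 16 k` use `pr ≤ 1`; else `I = l / (16 k) ≥ 1`,
`B₀ = Rect (X - 4 l) X (y₀ - 2 l) (y₀ + 2 l)` (side `4 l`), `E j = High X (y₀ + 8 k j) l k s`, `j < I`,
`P j Y` = (some `u ∈ Y` has `X - s ≤ u.1` and `y₀ + 8 k j - k ≤ u.2`) and (all `w ∈ Y` with `X - s ≤ w.1` have
`w.2 ≤ y₀ + 8 k j + 5 k`). (Apply `exit_rect` with the rectangle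
`(X - 4 l) (X + 1) (y₀ - 2 l) (y₀ + 2 l)`: the side `X + 1` is outside the region.) The cluster of `u` in `B₀` reaches `w.1 = X - 4 l` or `|w.2 - y₀| = 2 l`, at distance `≥ l` from `u`: `BigS 5 (4 l)`.
-/

set_option autoImplicit false

namespace Pool.Agent.NT6

open Finset Pool.Agent.MP_6bd702 Pool.Agent.MP_6bd702.H23 Pool.Agent.Perc

private theorem high_loc (X y l k s : ℤ) :
    Loc (EW (X - 4 * l) X (y - 4 * l) (y + 4 * l)) (High X y l k s) := by
  intro ω
  have hc : ∀ u w, Conn ω (Rect (X - 4 * l) X (y - 4 * l) (y + 4 * l)) u w ↔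
      Conn (ω ∩ EW (X - 4 * l) X (y - 4 * l) (y + 4 * l))
        (Rect (X - 4 * l) X (y - 4 * l) (y + 4 * l)) u w :=
    fun u w => Conn_inter (Set.Subset.refl _)
  constructor
  · rintro ⟨u, h1, h2, h3, h4, w, h5, h6⟩
    exact ⟨u, h1, h2, h3, fun w' hw' => h4 w' ((hc _ _).2 hw'), w, (hc _ _).1 h5, h6⟩
  · rintro ⟨u, h1, h2, h3, h4, w, h5, h6⟩
    exact ⟨u, h1, h2, h3, fun w' hw' => h4 w' ((hc _ _).1 hw'), w, (hc _ _).2 h5, h6⟩

/-- Vertical translation of `High`. -/
private theorem high_shift (X y l k s m : ℤ) {W' : Finset Ed}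
    (hW : EW (X - 4 * l) X (y + m - 4 * l) (y + m + 4 * l) ⊆ W') :
    pr (EW (X - 4 * l) X (y - 4 * l) (y + 4 * l)) (High X y l k s) ≤
      pr W' (High X (y + m) l k s) := by
  refine pr_le_map (shiftL 0 m) ?_ ?_
  · intro e he
    apply hW
    obtain ⟨x, z, b⟩ := e
    rw [mem_EW] at he ⊢
    simp only [shiftL, mem_Rect] at he ⊢
    cases b
    · simp only [ea_mk, eb_false] at he ⊢
      omega
    · simp only [ea_mk, eb_true] at he ⊢
      omega
  · intro ω hω
    have hinv : (shiftL 0 (-m)).e ⁻¹' ((shiftL 0 m).e ⁻¹' ω) = ω := by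
      ext ⟨x, z, b⟩
      simp [shiftL]
    -- connections up
    have up : ∀ u w, Conn ((shiftL 0 m).e ⁻¹' ω ∩ EW (X - 4 * l) X (y - 4 * l) (y + 4 * l))
        (Rect (X - 4 * l) X (y - 4 * l) (y + 4 * l)) u w →
        Conn ω (Rect (X - 4 * l) X (y + m - 4 * l) (y + m + 4 * l)) ((shiftL 0 m).v u)
          ((shiftL 0 m).v w) := by
      intro u w h
      refine (shiftL 0 m).conn ?_ ((Conn_inter (Set.Subset.refl _)).2 h)
      intro w hw
      simp only [shiftL, mem_Rect] at hw ⊢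
      omega
    -- connections down
    have down : ∀ u w, Conn ω (Rect (X - 4 * l) X (y + m - 4 * l) (y + m + 4 * l)) u w →
        Conn ((shiftL 0 m).e ⁻¹' ω ∩ EW (X - 4 * l) X (y - 4 * l) (y + 4 * l))
        (Rect (X - 4 * l) X (y - 4 * l) (y + 4 * l)) ((shiftL 0 (-m)).v u)
          ((shiftL 0 (-m)).v w) := by
      intro u w h
      refine (Conn_inter (Set.Subset.refl _)).1 ?_
      rw [← hinv] at h
      refine (shiftL 0 (-m)).conn ?_ h
      intro w hw
      simp only [shiftL, mem_Rect] at hw ⊢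
      omega
    obtain ⟨u, h1, h2, h3, h4, w, h5, h6⟩ := hω
    refine ⟨(shiftL 0 m).v u, ?_, ?_, ?_, ?_, (shiftL 0 m).v w, up _ _ h5, ?_⟩
    · simp only [shiftL]; omega
    · simp only [shiftL]; omega
    · simp only [shiftL]
      rw [show u.2 + m - (y + m) = u.2 - y by ring]
      exact h3
    · intro w' hw' hX
      have h7 := down _ _ hw'
      have h8 : (shiftL 0 (-m)).v ((shiftL 0 m).v u) = u := by
        ext <;> simp [shiftL]
      rw [h8] at h7
      have h9 := h4 _ h7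
      simp only [shiftL] at h9
      have := h9 (by omega)
      omega
    · simp only [shiftL]
      rw [show w.2 + m - (y + m) = w.2 - y by ring, show w.1 + 0 = w.1 by ring]
      exact h6

theorem high_le : ∃ C : ℝ, 0 ≤ C ∧ ∀ X y₀ l k s : ℤ, 1 ≤ k → 1 ≤ l → 0 ≤ s → s ≤ l →
    ∀ W : Finset Ed, EW (X - 4 * l) X (y₀ - 4 * l) (y₀ + 4 * l) ⊆ W →
    pr W (High X y₀ l k s) * l ≤ C * k := by
  obtain ⟨C₀, hC₀, hcount⟩ := count_disj 5
  refine ⟨32 * C₀ + 16, by positivity, ?_⟩
  intro X y₀ l k s hk hl hs hsl W hW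
  have hkR : (1 : ℝ) ≤ k := by exact_mod_cast hk
  have hlR : (1 : ℝ) ≤ l := by exact_mod_cast hl
  have hp0 := pr_nonneg W (High X y₀ l k s)
  have hp1 := pr_le_one W (High X y₀ l k s)
  rcases lt_or_ge l (16 * k) with hlk | hlk
  · have hlkR : (l : ℝ) ≤ 16 * k := by exact_mod_cast hlk.le
    calc pr W (High X y₀ l k s) * l ≤ 1 * l := by
          exact mul_le_mul_of_nonneg_right hp1 (by linarith)
      _ ≤ 16 * k := by linarith
      _ ≤ (32 * C₀ + 16) * k := by nlinarith
  -- the number of translates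
  set I : ℕ := (l / (16 * k)).toNat with hI
  have hk16 : 0 < 16 * k := by omega
  have hI1 : 1 ≤ l / (16 * k) := by
    rw [Int.le_ediv_iff_mul_le hk16]; omega
  have hIc : (I : ℤ) = l / (16 * k) := by
    rw [hI]; exact Int.toNat_of_nonneg (by omega)
  have hIl : (I : ℤ) * (16 * k) ≤ l := by
    rw [hIc]; exact Int.ediv_mul_le _ (by omega)
  have hIu : l < ((I : ℤ) + 1) * (16 * k) := by
    rw [hIc]
    have := Int.lt_ediv_add_one_mul_self l hk16
    exact this
  have hIu2 : l ≤ 32 * k * I := by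
    have h1 : (1 : ℤ) ≤ I := by rw [hIc]; exact hI1
    nlinarith
  set W' : Finset Ed := EW (X - 4 * l) X (y₀ - 5 * l) (y₀ + 5 * l) with hW'
  have hj : ∀ j ∈ range I, 0 ≤ 8 * k * (j : ℤ) ∧ 8 * k * (j : ℤ) + 8 * k ≤ l := by
    intro j hj
    rw [mem_range] at hj
    have h1 : (j : ℤ) + 1 ≤ I := by exact_mod_cast hj
    constructor
    · positivity
    · nlinarith
  have hj2 : ∀ j ∈ range I, 2 * (8 * k * (j : ℤ)) + 16 * k ≤ l := by
    intro j hj
    rw [mem_range] at hj
    have h1 : (j : ℤ) + 1 ≤ I := by exact_mod_cast hj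
    nlinarith
  have hsum := hcount (4 * l) (X - 4 * l) (y₀ - 2 * l) (by omega) W'
    (by
      rw [hW']
      exact EW_sub (by omega) (by omega) (by omega) (by omega))
    (range I) (fun j => High X (y₀ + 8 * k * j) l k s)
    (fun j Y => (∃ u ∈ Y, X - s ≤ u.1 ∧ y₀ + 8 * k * j - k ≤ u.2) ∧
      ∀ w ∈ Y, X - s ≤ w.1 → w.2 ≤ y₀ + 8 * k * j + 5 * k)
    (by
      rintro i - j - hij Y ⟨⟨u, huY, hu1, hu2⟩, hi⟩ ⟨⟨v, hvY, hv1, hv2⟩, hj'⟩
      have h1 := hi v hvY hv1
      have h2 := hj' u huY hu1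
      rcases lt_or_gt_of_ne hij with h | h
      · have h3 : (i : ℤ) + 1 ≤ j := by exact_mod_cast h
        nlinarith
      · have h3 : (j : ℤ) + 1 ≤ i := by exact_mod_cast h
        nlinarith)
    (by
      rintro j hjI ω - ⟨u, h1, h2, h3, h4, w, h5, h6⟩
      obtain ⟨hj0, hj1⟩ := hj j hjI
      have hj2' := hj2 j hjI
      set m : ℤ := 8 * k * (j : ℤ) with hm
      rw [abs_le] at h3
      have huB : u ∈ Rect (X - 4 * l) (X - 4 * l + 4 * l) (y₀ - 2 * l) (y₀ - 2 * l + 4 * l) := by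
        rw [mem_Rect]; omega
      refine ⟨u, huB, ?_, ?_⟩
      · obtain ⟨w', hw'1, hw'2, hw'3⟩ := exit_rect (a := X - 4 * l) (b := X + 1)
          (c := y₀ - 2 * l) (d := y₀ + 2 * l) (ω := ω)
          (R := Rect (X - 4 * l) X (y₀ + m - 4 * l) (y₀ + m + 4 * l)) (u := u) (w := w)
          (by rw [mem_Rect]; omega)
          (by
            rcases h6 with h6 | h6
            · left; exact h6
            · rcases le_abs.1 h6 with h7 | h7
              · right; right; right; omega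
              · right; right; left; omega) h5
        have hsub : Rect (X - 4 * l) X (y₀ + m - 4 * l) (y₀ + m + 4 * l) ∩
            Rect (X - 4 * l) (X + 1) (y₀ - 2 * l) (y₀ + 2 * l) ⊆
            Rect (X - 4 * l) (X - 4 * l + 4 * l) (y₀ - 2 * l) (y₀ - 2 * l + 4 * l) := by
          rintro z ⟨hz1, hz2⟩
          rw [mem_Rect] at hz1 hz2 ⊢
          omega
        have hc := hw'3.mono (Set.Subset.refl _) hsub
        have hmem := hc.mem huB
        refine ⟨u, Relation.ReflTransGen.refl, w', hc, ?_⟩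
        have hsd : l ≤ sd u w' := by
          unfold sd
          rw [mem_Rect] at hmem
          rcases hw'2 with h7 | h7 | h7 | h7
          · refine le_max_of_le_left ?_
            rw [le_abs]; left; omega
          · omega
          · refine le_max_of_le_right ?_
            rw [le_abs]; left; omega
          · refine le_max_of_le_right ?_
            rw [le_abs]; right; omega
        push_cast
        omega
      · refine ⟨⟨u, Relation.ReflTransGen.refl, h1, by omega⟩, ?_⟩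
        intro w' hw' hX
        refine h4 w' (Conn.mono hw' (Set.Subset.refl _) ?_) hX
        intro z hz
        rw [mem_Rect] at hz ⊢
        omega)
  have hle : ∀ j ∈ range I, pr W (High X y₀ l k s) ≤ pr W' (High X (y₀ + 8 * k * j) l k s) := by
    intro j hjI
    obtain ⟨hj0, hj1⟩ := hj j hjI
    rw [pr_window hW (high_loc X y₀ l k s)]
    refine high_shift X y₀ l k s (8 * k * j) ?_
    rw [hW']
    exact EW_sub (by omega) (by omega) (by omega) (by omega)
  have h1 : (I : ℝ) * pr W (High X y₀ l k s) ≤ C₀ := by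
    calc (I : ℝ) * pr W (High X y₀ l k s) = ∑ j ∈ range I, pr W (High X y₀ l k s) := by
          rw [sum_const, card_range, nsmul_eq_mul]
      _ ≤ ∑ j ∈ range I, pr W' (High X (y₀ + 8 * k * j) l k s) := sum_le_sum hle
      _ ≤ C₀ := hsum
  have hIuR : (l : ℝ) ≤ 32 * k * I := by exact_mod_cast hIu2
  calc pr W (High X y₀ l k s) * l ≤ pr W (High X y₀ l k s) * (32 * k * I) :=
        mul_le_mul_of_nonneg_left hIuR hp0
    _ = 32 * k * ((I : ℝ) * pr W (High X y₀ l k s)) := by ring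
    _ ≤ 32 * k * C₀ := mul_le_mul_of_nonneg_left h1 (by positivity)
    _ ≤ (32 * C₀ + 16) * k := by nlinarith

end Pool.Agent.NT6
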