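import Pool.Agent.Lib.MP_6bd702_nt.A7

/-!
# Row A8: two opposite extreme points of almost the same height

`y_j = j k`, `0 ≤ j ≤ n / k`. On `Opp` with `u, v` take `j = u.2 / k`, `j' = v.2 / k`, then `|u.2 - v.2| ≤ k`, `|j - j'| ≤ 2`;
`ω ∈ High n (j k) l k s` (the points `w` of the local cluster with `n - s ≤ w.1` have `w.2 ≤ v.2 + k ≤ u.2 + 2 k ≤ j k + 3 k`; the local cluster
reaches its boundary by `exit_rect`, as `v.1 ≤ s ≤ n - 4 l`), and `(rxL n).e ⁻¹' ω ∈ High n (j' k) l k s` (reflection `x ↦ n - x`,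
`LMap.conn`). The first event depends on `EW (n - 4 l) n ..`, the second on `EW 0 (4 l) ..`: independent (`PercW.pr_indep`), each `≤ C k / l`
(`high_le`, `pr_pull`/`pr_le_map` for the reflection). Sum over at most `5 (n / k + 1)` pairs with `4 l ≤ j k ≤ n - 4 l`.
-/

set_option autoImplicit false

namespace Pool.Agent.NT6

open Finset Pool.Agent.MP_6bd702 Pool.Agent.MP_6bd702.H23 Pool.Agent.Perc

private theorem pr_bU8 {ι : Type} (W : Finset Ed) {b : ℝ} (s : Finset ι) (A : ι → Set (Set Ed))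
    (hA : ∀ i ∈ s, pr W (A i) ≤ b) : pr W {ω | ∃ i ∈ s, ω ∈ A i} ≤ s.card * b := by
  classical
  induction s using Finset.induction_on with
  | empty =>
    simp only [notMem_empty, false_and, exists_false, card_empty, Nat.cast_zero, zero_mul]
    refine le_of_eq ?_
    unfold pr
    change Pr {s | False} = 0
    have : ({s : Finset W | False} : Set _) = ∅ := by ext; simp
    rw [this]
    unfold Pr Ex
    simp
  | insert i s hi ih =>
    have h2 : {ω : Set Ed | ∃ j ∈ insert i s, ω ∈ A j} ⊆ A i ∪ {ω | ∃ j ∈ s, ω ∈ A j} := by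
      rintro ω ⟨j, hj, hω⟩
      rcases Finset.mem_insert.1 hj with h3 | h3
      · left; rw [← h3]; exact hω
      · right; exact ⟨j, h3, hω⟩
    refine (pr_mono h2).trans ((pr_union_le _ _ _).trans ?_)
    rw [card_insert_of_notMem hi]
    push_cast
    have h3 := hA i (mem_insert_self i s)
    have h4 := ih fun j hj => hA j (mem_insert_of_mem hj)
    linarith

private theorem high_loc (X y₀ l k s : ℤ) :
    Loc (EW (X - 4 * l) X (y₀ - 4 * l) (y₀ + 4 * l)) (High X y₀ l k s) := by
  intro ω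
  have hc : ∀ u w : ℤ × ℤ, Conn (ω ∩ (EW (X - 4 * l) X (y₀ - 4 * l) (y₀ + 4 * l) : Set Ed))
      (Rect (X - 4 * l) X (y₀ - 4 * l) (y₀ + 4 * l)) u w ↔
      Conn ω (Rect (X - 4 * l) X (y₀ - 4 * l) (y₀ + 4 * l)) u w :=
    fun u w => (Conn_inter (Set.Subset.refl _)).symm
  simp only [High, Set.mem_ofPred_eq, hc]

/-- The local event at the extreme point. -/
private theorem high_of {n : ℕ} {l k s y₀ : ℤ} {ω : Set Ed} {u v : ℤ × ℤ} (hu : u ∈ Bx n)
    (hc : Conn ω (Bx n) u v) (hsl : s ≤ l) (hl : 1 ≤ l) (h1 : (n : ℤ) - s ≤ u.1)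
    (h2 : v.1 ≤ n - 4 * l) (hk : k ≤ l)
    (h3 : |u.2 - y₀| ≤ k)
    (h4 : ∀ w, Conn ω (Bx n) u w → (n : ℤ) - s ≤ w.1 → w.2 ≤ y₀ + 5 * k) (h5 : 4 * l ≤ y₀)
    (h6 : y₀ ≤ n - 4 * l) : ω ∈ High n y₀ l k s := by
  have hun : u.1 ≤ n := hu.2.1
  have hsub : Rect ((n : ℤ) - 4 * l) n (y₀ - 4 * l) (y₀ + 4 * l) ⊆ Bx n := by
    intro w hw
    simp only [mem_Rect, Bx] at hw ⊢
    omega
  refine ⟨u, h1, hun, h3, ?_, ?_⟩
  · intro w hw h7
    exact h4 w (hw.mono le_rfl hsub) h7
  · have huR : u ∈ Rect ((n : ℤ) - 4 * l) (n + 1) (y₀ - 4 * l) (y₀ + 4 * l) := by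
      rw [abs_le] at h3
      simp only [mem_Rect]
      omega
    obtain ⟨w', hw'1, hw'2, hw'3⟩ := exit_rect huR (w := v) (Or.inl h2) hc
    have hmem := hw'3.mem ⟨hu, huR⟩
    refine ⟨w', hw'3.mono le_rfl ?_, ?_⟩
    · rintro w ⟨h7, h8⟩
      simp only [mem_Rect, Bx] at h7 h8 ⊢
      omega
    · have h7 := hmem.1
      simp only [mem_Rect, Bx] at h7
      rcases hw'2 with h8 | h8 | h8 | h8
      · left; omega
      · omega
      · right; rw [h8, show y₀ - 4 * l - y₀ = -(4 * l) by ring, abs_neg]; exact le_abs_self _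
      · right; rw [h8, show y₀ + 4 * l - y₀ = 4 * l by ring]; exact le_abs_self _

private theorem rx_mem {n : ℤ} {a b c d : ℤ} {e : Ed} (he : e ∈ EW (n - b) (n - a) c d) :
    (rxL n).e e ∈ EW a b c d := by
  rw [mem_EW] at he ⊢
  obtain ⟨x, y, t⟩ := e
  cases t <;> simp [mem_Rect, rxL] at he ⊢ <;> omega

theorem opp_le : ∃ C : ℝ, 0 ≤ C ∧ ∀ (n : ℕ) (s k l : ℤ), 1 ≤ k → k ≤ l → 0 ≤ s → s ≤ l →
    9 * l ≤ n → pr (EW 0 n 0 n) (Opp n s k l) * (l : ℝ) ^ 2 ≤ C * n * k := by
  classical
  obtain ⟨C, hC0, hC⟩ := high_le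
  refine ⟨10 * C ^ 2, by positivity, ?_⟩
  intro n s k l hk hkl hs hsl hn
  have hl : 1 ≤ l := hk.trans hkl
  have hlR : (0 : ℝ) < l := by exact_mod_cast (by omega : (0 : ℤ) < l)
  have hkR : (0 : ℝ) < k := by exact_mod_cast (by omega : (0 : ℤ) < k)
  have hknR : (k : ℝ) ≤ n := by exact_mod_cast (by omega : (k : ℤ) ≤ n)
  let W : Finset Ed := EW 0 n 0 n
  let A : ℤ × ℤ → Set (Set Ed) := fun p => {ω | (4 * l ≤ p.1 * k ∧ p.1 * k ≤ n - 4 * l ∧
    4 * l ≤ (p.1 + p.2) * k ∧ (p.1 + p.2) * k ≤ n - 4 * l) ∧ ω ∈ High n (p.1 * k) l k s ∧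
    (rxL n).e ⁻¹' ω ∈ High n ((p.1 + p.2) * k) l k s}
  let I : Finset (ℤ × ℤ) := Icc 0 ((n : ℤ) / k) ×ˢ Icc (-2) 2
  -- the inclusion
  have hsub : Opp n s k l ⊆ {ω | ∃ p ∈ I, ω ∈ A p} := by
    rintro ω ⟨u, hu, v, huv, hu1, hv1, hu2, hu3, hall⟩
    have hvB : v ∈ Bx n := huv.mem hu
    have hu' := hu
    have hv' := hvB
    simp only [mem_Rect, Bx] at hu' hv'
    have e1 : |u.2 - v.2| ≤ k := (hall u .refl).1 hu1
    rw [abs_le] at e1
    have q1 := Int.emod_add_mul_ediv u.2 k
    have q2 := Int.emod_nonneg u.2 (show k ≠ 0 by omega)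
    have q3 := Int.emod_lt_of_pos u.2 (show 0 < k by omega)
    have r1 := Int.emod_add_mul_ediv v.2 k
    have r2 := Int.emod_nonneg v.2 (show k ≠ 0 by omega)
    have r3 := Int.emod_lt_of_pos v.2 (show 0 < k by omega)
    set j := u.2 / k with hj
    set j' := v.2 / k with hj'
    have c1 : k * j = j * k := mul_comm _ _
    have c2 : k * j' = j' * k := mul_comm _ _
    have hjj : -2 ≤ j' - j ∧ j' - j ≤ 2 := by
      constructor
      · by_contra hcon
        have h1 : j' - j ≤ -3 := by omega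
        have h2 : (j' - j) * k ≤ -3 * k := mul_le_mul_of_nonneg_right h1 (by omega)
        have h3 : (j' - j) * k = j' * k - j * k := by ring
        omega
      · by_contra hcon
        have h1 : 3 ≤ j' - j := by omega
        have h2 : 3 * k ≤ (j' - j) * k := mul_le_mul_of_nonneg_right h1 (by omega)
        have h3 : (j' - j) * k = j' * k - j * k := by ring
        omega
    have hj0 : 0 ≤ j := Int.ediv_nonneg hu'.2.2.1 (by omega)
    have hjn : j ≤ (n : ℤ) / k := Int.ediv_le_ediv (by omega) hu'.2.2.2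
    have e3 : (j + (j' - j)) * k = j' * k := by ring
    have hy1 : 4 * l ≤ j * k := by omega
    have hy2 : j * k ≤ n - 4 * l := by omega
    have hy3 : 4 * l ≤ j' * k := by omega
    have hy4 : j' * k ≤ n - 4 * l := by omega
    refine ⟨(j, j' - j), ?_, ?_⟩
    · simp only [I, mem_product, mem_Icc]
      omega
    · refine ⟨⟨hy1, hy2, by rw [e3]; exact hy3, by rw [e3]; exact hy4⟩, ?_, ?_⟩
      · refine high_of hu huv hsl hl hu1 (by omega) hkl ?_ ?_ hy1 hy2
        · rw [abs_le]; constructor <;> simp only <;> omega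
        · intro w hw h1
          have h2 := (hall w hw).1 h1
          rw [abs_le] at h2
          simp only
          omega
      · simp only [e3]
        -- the reflected path
        have hmap : ∀ {a b : ℤ × ℤ}, Conn ω (Bx n) a b →
            Conn ((rxL n).e ⁻¹' ω) (Bx n) ((rxL n).v a) ((rxL n).v b) := by
          intro a b hab
          refine LMap.conn (rxL n) (R := Bx n) ?_ (h := ?_)
          · intro w hw
            simp only [mem_Rect, Bx, rxL] at hw ⊢
            omega
          · convert hab using 1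
            ext e
            obtain ⟨x, y, t⟩ := e
            cases t
            · have h9 : (n : ℤ) - (n - x - 1) - 1 = x := by ring
              simp [rxL, h9]
            · simp [rxL]
        have hinv : ∀ w : ℤ × ℤ, (rxL n).v ((rxL n).v w) = w := by
          intro w; simp [rxL]
        have hback : ∀ {a b : ℤ × ℤ}, Conn ((rxL n).e ⁻¹' ω) (Bx n) a b →
            Conn ω (Bx n) ((rxL n).v a) ((rxL n).v b) := by
          intro a b hab
          refine LMap.conn (rxL n) (R := Bx n) ?_ hab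
          intro w hw
          simp only [mem_Rect, Bx, rxL] at hw ⊢
          omega
        have hv1' : ((rxL n).v v).1 = n - v.1 := rfl
        have hv2' : ((rxL n).v v).2 = v.2 := rfl
        have hu1' : ((rxL n).v u).1 = n - u.1 := rfl
        refine high_of (u := (rxL n).v v) (v := (rxL n).v u) ?_ (hmap huv.symm) hsl hl ?_ ?_ hkl
          ?_ ?_ hy3 hy4
        · simp only [mem_Rect, Bx, hv1', hv2']
          omega
        · rw [hv1']; omega
        · rw [hu1']; omega
        · rw [hv2', abs_le]; constructor <;> omega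
        · intro w hw h1
          have h2 := hback hw
          rw [hinv] at h2
          have h3 := (hall _ (huv.trans h2)).2
          have h4 : ((rxL n).v w).1 = n - w.1 := rfl
          have h5 : ((rxL n).v w).2 = w.2 := rfl
          rw [h4, h5] at h3
          have h6 := h3 (by omega)
          rw [abs_le] at h6
          omega
  -- the probability of one pair
  have hone : ∀ p ∈ I, pr W (A p) ≤ (C * k / l) ^ 2 := by
    intro p _
    by_cases hp : 4 * l ≤ p.1 * k ∧ p.1 * k ≤ n - 4 * l ∧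
        4 * l ≤ (p.1 + p.2) * k ∧ (p.1 + p.2) * k ≤ n - 4 * l
    · obtain ⟨hp1, hp2, hp3, hp4⟩ := hp
      set y := p.1 * k with hy
      set y' := (p.1 + p.2) * k with hy'
      have hW1 : EW ((n : ℤ) - 4 * l) n (y - 4 * l) (y + 4 * l) ⊆ W :=
        EW_sub (by omega) (by omega) (by omega) (by omega)
      have hW2 : EW ((n : ℤ) - 4 * l) n (y' - 4 * l) (y' + 4 * l) ⊆ W :=
        EW_sub (by omega) (by omega) (by omega) (by omega)
      have hA : A p = High n y l k s ∩ {ω | (rxL n).e ⁻¹' ω ∈ High n y' l k s} := by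
        ext ω
        simp only [A, Set.mem_ofPred_eq, Set.mem_inter_iff]
        constructor
        · rintro ⟨_, h2, h3⟩; exact ⟨h2, h3⟩
        · rintro ⟨h2, h3⟩; exact ⟨⟨hp1, hp2, hp3, hp4⟩, h2, h3⟩
      have hL2 : Loc (EW 0 (4 * l) (y' - 4 * l) (y' + 4 * l))
          {ω | (rxL n).e ⁻¹' ω ∈ High n y' l k s} := by
        intro ω
        simp only [Set.mem_ofPred_eq]
        rw [high_loc n y' l k s ((rxL n).e ⁻¹' ω), high_loc n y' l k s
          ((rxL n).e ⁻¹' (ω ∩ (EW 0 (4 * l) (y' - 4 * l) (y' + 4 * l) : Set Ed)))]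
        have : (rxL n).e ⁻¹' (ω ∩ (EW 0 (4 * l) (y' - 4 * l) (y' + 4 * l) : Set Ed)) ∩
            (EW ((n : ℤ) - 4 * l) n (y' - 4 * l) (y' + 4 * l) : Set Ed) = (rxL n).e ⁻¹' ω ∩
            (EW ((n : ℤ) - 4 * l) n (y' - 4 * l) (y' + 4 * l) : Set Ed) := by
          ext e
          simp only [Set.mem_inter_iff, Set.mem_preimage, mem_coe]
          constructor
          · rintro ⟨⟨h1, h2⟩, h3⟩; exact ⟨h1, h3⟩
          · rintro ⟨h1, h3⟩
            refine ⟨⟨h1, ?_⟩, h3⟩
            have h4 : e ∈ EW ((n : ℤ) - 4 * l) (n - 0) (y' - 4 * l) (y' + 4 * l) := by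
              rw [sub_zero]; exact h3
            exact rx_mem h4
        rw [this]
      have hdisj : Disjoint (EW ((n : ℤ) - 4 * l) n (y - 4 * l) (y + 4 * l))
          (EW 0 (4 * l) (y' - 4 * l) (y' + 4 * l)) := by
        rw [Finset.disjoint_left]
        intro e h1 h2
        rw [mem_EW] at h1 h2
        simp only [mem_Rect] at h1 h2
        omega
      rw [hA, PercW.pr_indep hdisj (high_loc n y l k s) hL2]
      have h1 : pr W (High n y l k s) ≤ C * k / l := by
        rw [le_div_iff₀ hlR]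
        exact hC n y l k s hk hl hs hsl W hW1
      have h2 : pr W {ω | (rxL n).e ⁻¹' ω ∈ High n y' l k s} ≤ C * k / l := by
        have h3 : pr W {ω | (rxL n).e ⁻¹' ω ∈ High n y' l k s}
            = pr W {ω | (rxL n).e ⁻¹' ω ∩ W ∈ High n y' l k s} := by
          refine pr_congr fun ω _ => ?_
          simp only [Set.mem_ofPred_eq]
          rw [high_loc n y' l k s ((rxL n).e ⁻¹' ω), high_loc n y' l k s ((rxL n).e ⁻¹' ω ∩ W),
            Set.inter_assoc, Set.inter_eq_self_of_subset_right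
              (show (EW ((n : ℤ) - 4 * l) n (y' - 4 * l) (y' + 4 * l) : Set Ed) ⊆ W from hW2)]
        rw [h3, pr_pull (W := W) (W' := W) (rxL n).e (rxL n).inj ?_ (High n y' l k s)]
        · rw [le_div_iff₀ hlR]
          exact hC n y' l k s hk hl hs hsl W hW2
        · intro e he
          have h4 : e ∈ EW ((n : ℤ) - n) (n - 0) 0 n := by
            rw [sub_zero, sub_self]; exact he
          exact rx_mem h4
      calc pr W (High n y l k s) * pr W {ω | (rxL n).e ⁻¹' ω ∈ High n y' l k s}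
          ≤ (C * k / l) * (C * k / l) := mul_le_mul h1 h2 (pr_nonneg _ _)
            (by positivity)
        _ = (C * k / l) ^ 2 := by ring
    · have hA : A p = ∅ := by
        ext ω
        simp only [A, Set.mem_ofPred_eq, Set.mem_empty_iff_false, iff_false]
        rintro ⟨h1, _⟩
        exact hp h1
      rw [hA]
      have h0 : pr W (∅ : Set (Set Ed)) ≤ 0 := by
        have h1 := pr_compl W Set.univ
        rw [Set.compl_univ, pr_univ] at h1
        rw [h1]; norm_num
      exact h0.trans (by positivity)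
  have hcard : ((I.card : ℕ) : ℝ) * k ≤ 10 * n := by
    have h1 : I.card = ((n : ℤ) / k + 1).toNat * 5 := by
      simp [I]
    have h2 : 0 ≤ (n : ℤ) / k := Int.ediv_nonneg (by omega) (by omega)
    have h3 : ((I.card : ℕ) : ℤ) = ((n : ℤ) / k + 1) * 5 := by
      rw [h1]; push_cast; rw [Int.toNat_of_nonneg (by omega)]
    have h4 : (n : ℤ) / k * k ≤ n := Int.ediv_mul_le _ (by omega)
    have h5 : ((I.card : ℕ) : ℤ) * k ≤ 10 * n := by
      rw [h3]
      have : ((n : ℤ) / k + 1) * 5 * k = 5 * ((n : ℤ) / k * k) + 5 * k := by ring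
      omega
    exact_mod_cast h5
  have hfin : pr W (Opp n s k l) ≤ I.card * (C * k / l) ^ 2 :=
    (pr_mono hsub).trans (pr_bU8 W I A hone)
  calc pr W (Opp n s k l) * (l : ℝ) ^ 2
      ≤ (I.card * (C * k / l) ^ 2) * (l : ℝ) ^ 2 :=
        mul_le_mul_of_nonneg_right hfin (by positivity)
    _ = (I.card * k) * (C ^ 2 * k) := by field_simp
    _ ≤ (10 * n) * (C ^ 2 * k) := mul_le_mul_of_nonneg_right hcard (by positivity)
    _ = 10 * C ^ 2 * n * k := by ring

end Pool.Agent.NT6
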