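import Pool.Agent.Lib.MP_6bd702_nt.P1
import Pool.Agent.Lib.MP_6bd702_nt.P2

/-!
# Row B1: translation of the target

`AX .. Y ⊆ AX' (translated)`: by `pr_le_map (shiftL t 0)` the probability of `AX n cx cy L d' Y` is at most the probability that
some `u` with `(u.1 - t, u.2) ∈ Y` is joined to a row `cy ± d'` inside `Rect (cx - L + t) (cx + L + t) y₁ y₂` (all windows are in `EW 0 n 0 n`:
first restrict to `Qe` by `pr_window`). If this path stays in `x ≤ cx + L` we are in `AX .. (Y + t)`, else it crosses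
the rectangle `[cx + 2 d, cx + L] × [y₁, y₂]` horizontally (`PercW.strip_conn`/`hc_strip`; `u.1 ≤ cx + d + t ≤ cx + 2 d`).
-/

set_option autoImplicit false

namespace Pool.Agent.NT6

open Finset Pool.Agent.MP_6bd702 Pool.Agent.MP_6bd702.H23 Pool.Agent.Perc

/-- A path stays in the half plane `x ≤ X` or reaches a vertex beyond it. -/
private theorem stay_or {ω : Set Ed} {R : Set (ℤ × ℤ)} {X : ℤ} {u w : ℤ × ℤ} (hu : u.1 ≤ X)
    (h : Conn ω R u w) :
    Conn ω (R ∩ {v | v.1 ≤ X}) u w ∨ ∃ v, Conn ω R u v ∧ X < v.1 := by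
  unfold Conn at h ⊢
  have key : (Relation.ReflTransGen (Step ω (R ∩ {v | v.1 ≤ X})) u w ∧ w.1 ≤ X) ∨
      ∃ v, Relation.ReflTransGen (Step ω R) u v ∧ X < v.1 := by
    induction h with
    | refl => exact Or.inl ⟨.refl, hu⟩
    | @tail a b h1 h2 ih =>
      rcases ih with ⟨h3, h4⟩ | h3
      · by_cases hb : b.1 ≤ X
        · refine Or.inl ⟨h3.tail ?_, hb⟩
          obtain ⟨ha, hb', e, he, hh⟩ := h2
          exact ⟨⟨ha, h4⟩, ⟨hb', hb⟩, e, he, hh⟩
        · exact Or.inr ⟨b, h1.tail h2, not_le.1 hb⟩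
      · exact Or.inr h3
  rcases key with ⟨h1, _⟩ | h1
  · exact Or.inl h1
  · exact Or.inr h1

private theorem AX_loc (n cx cy L d' : ℤ) (Y : Set (ℤ × ℤ)) :
    Loc (Qe n cx cy L d') (AX n cx cy L d' Y) := by
  intro ω
  constructor
  · rintro ⟨u, hu, huR, w, hw, hc⟩
    exact ⟨u, hu, huR, w, hw, (Conn_inter (Set.Subset.refl _)).1 hc⟩
  · rintro ⟨u, hu, huR, w, hw, hc⟩
    exact ⟨u, hu, huR, w, hw, (Conn_inter (Set.Subset.refl _)).2 hc⟩

theorem AX_shift {n : ℕ} {cx cy L d' d t : ℤ} (h0 : 0 ≤ cx - L) (h1 : cx + L + t ≤ n)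
    (hc0 : 0 ≤ cy) (hcn : cy ≤ n) (ht : 0 ≤ t) (htd : t ≤ d) (hdL : 2 * d < L) (hd' : d ≤ d')
    {Y : Set (ℤ × ℤ)} (hY : Y ⊆ Qi n cx cy d) :
    pr (EW 0 n 0 n) (AX n cx cy L d' Y) ≤
      pr (EW 0 n 0 n) (AX n cx cy L d' {u | (u.1 - t, u.2) ∈ Y}) +
      pr (EW 0 n 0 n) {ω | HC (cx + 2 * d) (cx + L) (max 0 (cy - d')) (min n (cy + d')) ω} := by
  have hsub : Qe n cx cy L d' ⊆ EW 0 n 0 n :=
    EW_sub (by omega) (by omega) (le_max_left _ _) (min_le_left _ _)
  rw [pr_window hsub (AX_loc n cx cy L d' Y)]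
  refine le_trans ?_ (pr_union_le _ _ _)
  refine pr_le_map (shiftL t 0) ?_ ?_
  · intro e he
    have he' : e ∈ EW (cx - L) (cx + L) (max 0 (cy - d')) (min n (cy + d')) := he
    rw [mem_EW] at he' ⊢
    obtain ⟨x, y, s⟩ := e
    cases s <;> simp only [mem_Rect, shiftL, ea_mk, eb_true, eb_false, max_le_iff, le_min_iff]
      at he' ⊢ <;> omega
  · rintro ω ⟨u, hu, huR, w, hw, hc⟩
    have hQi := hY hu
    obtain ⟨hq1, hq2, hq3, hq4⟩ := hQi
    have hq1' := abs_le.1 hq1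
    have huR' : u ∈ Rect (cx - L) (cx + L) (max 0 (cy - d')) (min n (cy + d')) := huR
    rw [mem_Rect] at huR'
    have h6 := LMap.conn (shiftL t 0)
      (R := Rect (cx - L) (cx + L) (max 0 (cy - d')) (min n (cy + d')))
      (R' := Rect (cx - L + t) (cx + L + t) (max 0 (cy - d')) (min n (cy + d'))) (ω := ω) ?_
      (hc.mono Set.inter_subset_left le_rfl)
    · have hu1 : ((shiftL t 0).v u).1 = u.1 + t := rfl
      have hu2 : ((shiftL t 0).v u).2 = u.2 := by simp [shiftL]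
      have hw2 : ((shiftL t 0).v w).2 = w.2 := by simp [shiftL]
      have hu'R : (shiftL t 0).v u ∈
          Rect (cx - L + t) (cx + L + t) (max 0 (cy - d')) (min n (cy + d')) := by
        rw [mem_Rect, hu1, hu2]
        refine ⟨by omega, by omega, huR'.2.2.1, huR'.2.2.2⟩
      rcases stay_or (X := cx + L) (by rw [hu1]; omega) h6 with h7 | ⟨v, h7, h8⟩
      · left
        refine ⟨(shiftL t 0).v u, ?_, ?_, (shiftL t 0).v w, ?_, ?_⟩
        · change (((shiftL t 0).v u).1 - t, ((shiftL t 0).v u).2) ∈ Y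
          rw [hu1, hu2, add_sub_cancel_right]
          exact hu
        · change (shiftL t 0).v u ∈
            Rect (cx - L) (cx + L) (max 0 (cy - d')) (min n (cy + d'))
          rw [mem_Rect, hu1, hu2]
          refine ⟨by omega, by omega, huR'.2.2.1, huR'.2.2.2⟩
        · rw [hw2]; exact hw
        · refine h7.mono le_rfl ?_
          rintro z ⟨hz1, hz2⟩
          rw [mem_Rect] at hz1
          have hz2' : z.1 ≤ cx + L := hz2
          change z ∈ Rect (cx - L) (cx + L) (max 0 (cy - d')) (min n (cy + d'))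
          rw [mem_Rect]
          exact ⟨by omega, hz2', hz1.2.2.1, hz1.2.2.2⟩
      · right
        refine hc_strip (a := cx - L + t) (b := cx + L + t) (u := (shiftL t 0).v u) (v := v)
          (by omega) (by omega) (by omega) ?_ hu'R (by omega) h7
        rw [hu1]; omega
    · intro z hz
      rw [mem_Rect] at hz ⊢
      have hz1 : ((shiftL t 0).v z).1 = z.1 + t := rfl
      have hz2 : ((shiftL t 0).v z).2 = z.2 := by simp [shiftL]
      rw [hz1, hz2]
      exact ⟨by omega, by omega, hz.2.2.1, hz.2.2.2⟩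

/-- The translated set is covered by the points of larger distance and the strip. -/
theorem shift_sub {n : ℕ} {cx cy d t θ : ℤ} {V : Set (ℤ × ℤ)} {b b' : ℝ} (hn : 1 ≤ n)
    (hV : V ⊆ Bx n) (ht : 0 ≤ t) (htn : t ≤ n) (hθ : 0 ≤ θ) (hcx : cx + d ≤ n) (hcx0 : 0 ≤ cx - d)
    (hVθ : ∀ v ∈ V, v.1 ≤ cx - d - θ) (hb : b' < b + t * θ / (4 * n)) :
    {u : ℤ × ℤ | (u.1 - t, u.2) ∈ Yb n cx cy d V b} ⊆ Zb n cx cy d V b' ∪ Sb n cx cy d t V b' := by
  rintro ⟨x, y⟩ hu
  obtain ⟨hQ, v, hv, hbv⟩ := hu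
  obtain ⟨hq1, hq2, hq3, hq4⟩ := hQ
  simp only at hq1 hq2 hq3 hq4 hbv
  have hq1' := abs_le.1 hq1
  have hvB : v ∈ Rect 0 n 0 n := hV hv
  rw [mem_Rect] at hvB
  have hvθ := hVθ v hv
  have hsd : sd (x - t, y) v ≤ n := by
    unfold sd
    simp only
    refine max_le (abs_le.2 ⟨by omega, by omega⟩) (abs_le.2 ⟨by omega, by omega⟩)
  have hed : ed (x - t, y) v ≤ 3 * (n : ℝ) := by
    have h1 := ed_le_sd (x - t, y) v
    have h2 : ((sd (x - t, y) v : ℤ) : ℝ) ≤ (n : ℝ) := by exact_mod_cast hsd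
    have h3 : (0 : ℝ) ≤ n := Nat.cast_nonneg n
    linarith
  have hn' : (0 : ℝ) < n := by exact_mod_cast hn
  have htn' : (t : ℝ) ≤ n := by exact_mod_cast htn
  have key := ed_shift (u := (x - t, y)) (v := v) (t := t) (θ := θ) (n := (n : ℝ)) hn' ht hθ
    (by simp only; omega) hed htn'
  simp only [sub_add_cancel] at key
  have hlt : b' < ed (x, y) v := by linarith
  by_cases hx : x ≤ cx + d
  · left
    exact ⟨⟨abs_le.2 ⟨by simp only; omega, by simp only; omega⟩, hq2, hq3, hq4⟩, v, hv, hlt⟩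
  · right
    refine ⟨by simp only; omega, by simp only; omega, hq2, hq3, hq4, v, hv, hlt⟩

end Pool.Agent.NT6
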