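import Pool.Agent.Lib.MP_6bd702_nt.P1
import Pool.Agent.Lib.MP_6bd702_nt.P2

/-!
# Row B2: a cluster of the strip which avoids `Zb`

`x₀ = cx + d`. `Ybad` = the heights `y` with `|y - cy| ≤ d`, `0 ≤ y ≤ n`, some `v ∈ V` with `b' - t < ed (x₀, y) v`, and
`ed (x₀, y) v ≤ b' + 8 r` for all `v ∈ V`; `y₁, y₂` its smallest and largest element (0 if empty). For `u` in the strip, `y = u.2`
(then `(x₀, y)` has `b' - t < ed (x₀, y) v` for the `v` of `u`):
(1) `d - 5 r < |y - cy|`: arm from `(x₀, cy ± d)`; (2) `y < 5 r` or `n - 5 r < y`: arm from `(x₀, 0)`, `(x₀, n)`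
(then the row `w.2 = cy ± d'` in the box is at distance `≥ d' - d` from it); (3) `y ∈ Ybad`: by `stewart` `y - y₁ ≤ κ` or `y₂ - y ≤ κ`
(`B = b' + 8 r`, `c = b' - t ≥ 0`, `B² - c² ≤ (8 r + t) (2 b' + 8 r) ≤ 12 n (8 r + t) ≤ κ²`): arm from `(x₀, y₁)` or `(x₀, y₂)`;
(4) otherwise all the vertices within sup distance `5 r` of `(x₀, y)` are at distance `> b'` from some `v ∈ V` (`ed_le_sd`), so the points of
the square of radius `4 r` around `(x₀, y_j)`, `y_j = cy - d + r j`, `|y - y_j| ≤ r`, with first coordinate `≤ x₀` are in `Zb`: `Flat`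
(the local cluster is contained in the cluster in `Qr`; it reaches its boundary by `exit_rect`).
-/

set_option autoImplicit false

namespace Pool.Agent.NT6

open Finset Pool.Agent.MP_6bd702 Pool.Agent.MP_6bd702.H23 Pool.Agent.Perc

/-- the smallest and the largest element of a bounded set of integers -/
private theorem b2_ext (S : Set ℤ) (a b : ℤ) (hS : ∀ y ∈ S, a ≤ y ∧ y ≤ b) :
    ∃ y₁ y₂ : ℤ, ∀ y ∈ S, y₁ ∈ S ∧ y₂ ∈ S ∧ y₁ ≤ y ∧ y ≤ y₂ := by
  by_cases hne : ∃ y, y ∈ S
  · obtain ⟨y₁, h1, h1'⟩ := Int.exists_least_of_bdd (P := fun y => y ∈ S)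
      ⟨a, fun z hz => (hS z hz).1⟩ hne
    obtain ⟨y₂, h2, h2'⟩ := Int.exists_greatest_of_bdd (P := fun y => y ∈ S)
      ⟨b, fun z hz => (hS z hz).2⟩ hne
    exact ⟨y₁, y₂, fun y hy => ⟨h1, h2, h1' y hy, h2' y hy⟩⟩
  · exact ⟨0, 0, fun y hy => absurd ⟨y, hy⟩ hne⟩

theorem strip_cover {n : ℕ} {cx cy L d' d r t : ℤ} {κ : ℤ} {V : Set (ℤ × ℤ)} {b' : ℝ}
    (hV : V ⊆ Bx n) (h0 : 0 ≤ cx - L) (h1 : cx + L ≤ n) (hc0 : 0 ≤ cy) (hcn : cy ≤ n)
    (ht : 1 ≤ t) (htr : t ≤ r) (hr : 6 * r ≤ d) (hd : 2 * d ≤ d') (hL : 2 * d' ≤ L)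
    (hb0 : (t : ℝ) ≤ b') (hb : b' ≤ 2 * n) (hκ0 : 0 ≤ κ)
    (hκ : 12 * (n : ℤ) * (8 * r + t) ≤ κ ^ 2) :
    ∃ y₁ y₂ : ℤ, ∀ ω : Set Ed, (∃ u ∈ Sb n cx cy d t V b', ∃ w, (w.2 = cy - d' ∨ w.2 = cy + d') ∧
        Conn ω (Qr n cx cy L d') u w ∧ u ∈ Qr n cx cy L d' ∧
        ∀ z ∈ Zb n cx cy d V b', ¬ Conn ω (Qr n cx cy L d') u z) →
      (∃ y ∈ ({cy - d, cy + d, 0, (n : ℤ), y₁, y₂} : Finset ℤ),
        ω ∈ Arm (cx + d, y) (κ + 6 * r) (d' - d)) ∨
      ∃ j ∈ range ((2 * d / r).toNat + 1), 4 * r ≤ cy - d + r * j ∧ cy - d + r * j ≤ n - 4 * r ∧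
        ω ∈ Flat (cx + d) (cy - d + r * j) r t := by
  obtain ⟨y₁, y₂, hy⟩ := b2_ext
    {y : ℤ | |y - cy| ≤ d ∧ (∃ v ∈ V, b' - t < ed (cx + d, y) v) ∧
      ∀ v ∈ V, ed (cx + d, y) v ≤ b' + 8 * r} (cy - d) (cy + d)
    (fun y hy => by
      have := abs_le.1 hy.1
      constructor <;> linarith)
  refine ⟨y₁, y₂, ?_⟩
  rintro ω ⟨u, ⟨hu1, hu2, hu3, hu4, hu5, v, hv, hvu⟩, w, hw, hconn, huQ, hav⟩
  have hwQ : w ∈ Qr n cx cy L d' := hconn.mem huQ
  have hr1 : 1 ≤ r := ht.trans htr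
  have hun : Conn ω Set.univ u w := hconn.mono le_rfl (Set.subset_univ _)
  have hy3 := abs_le.1 hu3
  -- an arm
  have arm : ∀ y : ℤ, |u.2 - y| ≤ κ + 6 * r → d' - d ≤ |w.2 - y| →
      ω ∈ Arm (cx + d, y) (κ + 6 * r) (d' - d) := by
    intro y h2 h3
    refine ⟨u, w, ?_, ?_, hun⟩
    · refine max_le ?_ h2
      show |u.1 - (cx + d)| ≤ κ + 6 * r
      rw [abs_le]
      constructor <;> linarith
    · exact h3.trans (le_max_right _ _)
  have hwy : ∀ y : ℤ, |y - cy| ≤ d → d' - d ≤ |w.2 - y| := by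
    intro y h2
    have h3 := abs_le.1 h2
    rcases hw with hw | hw
    · rw [hw]
      have := neg_le_abs (cy - d' - y)
      linarith
    · rw [hw]
      have := le_abs_self (cy + d' - y)
      linarith
  have hQ1 : max 0 (cy - d') ≤ w.2 := hwQ.2.2.1
  have hQ2 : w.2 ≤ min (n : ℤ) (cy + d') := hwQ.2.2.2
  by_cases c1 : d - 5 * r < |u.2 - cy|
  · -- near the ends of the inner square
    left
    rcases lt_abs.1 c1 with c | c
    · refine ⟨cy + d, by simp, arm _ ?_ (hwy _ ?_)⟩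
      · rw [abs_le]; constructor <;> linarith
      · rw [abs_le]; constructor <;> linarith
    · refine ⟨cy - d, by simp, arm _ ?_ (hwy _ ?_)⟩
      · rw [abs_le]; constructor <;> linarith
      · rw [abs_le]; constructor <;> linarith
  rw [not_lt] at c1
  have c1' := abs_le.1 c1
  by_cases c2 : u.2 < 5 * r
  · left
    refine ⟨0, by simp, arm _ ?_ ?_⟩
    · rw [abs_le]; constructor <;> linarith
    · rcases hw with hw | hw
      · exfalso
        have := le_max_left (0 : ℤ) (cy - d')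
        linarith
      · rw [hw]
        have := le_abs_self (cy + d' - 0)
        linarith
  rw [not_lt] at c2
  by_cases c3 : (n : ℤ) - 5 * r < u.2
  · left
    refine ⟨(n : ℤ), by simp, arm _ ?_ ?_⟩
    · rw [abs_le]; constructor <;> linarith
    · rcases hw with hw | hw
      · rw [hw]
        have := neg_le_abs (cy - d' - (n : ℤ))
        linarith
      · exfalso
        have := min_le_left (n : ℤ) (cy + d')
        linarith
  rw [not_lt] at c3
  -- the point `(x₀, y)` is nearly as far from `v`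
  have hux : ed u (cx + d, u.2) ≤ t := by
    have hsq := ed_sq u (cx + d, u.2)
    have hnn : 0 ≤ ed u (cx + d, u.2) := dist_nonneg
    have h2 : (0 : ℝ) ≤ ((u.1 - (cx + d) : ℤ) : ℝ) := by exact_mod_cast (by linarith)
    have h3 : ((u.1 - (cx + d) : ℤ) : ℝ) ≤ t := by exact_mod_cast (by linarith)
    have h4 : ed u (cx + d, u.2) ^ 2 ≤ (t : ℝ) ^ 2 := by
      rw [hsq]
      simp only [sub_self, Int.cast_zero]
      nlinarith
    have h5 : (0 : ℝ) ≤ t := h2.trans h3
    exact (le_abs_self _).trans (abs_le_of_sq_le_sq h4 h5)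
  have hvx : b' - t < ed (cx + d, u.2) v := by
    have := ed_tri u (cx + d, u.2) v
    linarith
  by_cases c4 : ∀ v' ∈ V, ed (cx + d, u.2) v' ≤ b' + 8 * r
  · -- near the extreme heights
    left
    obtain ⟨g1, g2, g3, g4⟩ := hy u.2 ⟨hu3, ⟨v, hv, hvx⟩, c4⟩
    by_cases c5 : u.2 - y₁ ≤ κ
    · refine ⟨y₁, by simp, arm _ ?_ (hwy _ g1.1)⟩
      rw [abs_le]; constructor <;> linarith
    by_cases c6 : y₂ - u.2 ≤ κ
    · refine ⟨y₂, by simp, arm _ ?_ (hwy _ g2.1)⟩
      rw [abs_le]; constructor <;> linarith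
    exfalso
    rw [not_le] at c5 c6
    have h5 : (κ : ℝ) < ((u.2 - y₁ : ℤ) : ℝ) := by exact_mod_cast c5
    have h6 : (κ : ℝ) < ((y₂ - u.2 : ℤ) : ℝ) := by exact_mod_cast c6
    have ht0 : (1 : ℝ) ≤ t := by exact_mod_cast ht
    have hr0 : (t : ℝ) ≤ r := by exact_mod_cast htr
    have hst := stewart (x := cx + d) (y₁ := y₁) (y := u.2) (y₃ := y₂) (v := v) (B := b' + 8 * r)
      (c := b' - t) (κ := κ) (by linarith) (by exact_mod_cast hκ0) h5 h6 (g1.2.2 v hv)
      (g2.2.2 v hv) (by linarith) hvx.le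
    have h7 : (12 * (n : ℝ)) * (8 * r + t) ≤ (κ : ℝ) ^ 2 := by exact_mod_cast hκ
    have h8 : (8 * r : ℤ) ≤ n := by linarith
    have h8' : (8 * (r : ℝ)) ≤ n := by exact_mod_cast h8
    have h9 : (b' + 8 * r) ^ 2 - (b' - t) ^ 2 = (8 * r + t) * (2 * b' + 8 * r - t) := by ring
    have h10 : (8 * (r : ℝ) + t) * (2 * b' + 8 * r - t) ≤ (8 * r + t) * (12 * n) := by
      refine mul_le_mul_of_nonneg_left ?_ (by linarith)
      linarith
    linarith
  · -- a flat extreme
    right
    push Not at c4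
    obtain ⟨v', hv', hv'y⟩ := c4
    have hr0 : (1 : ℝ) ≤ r := by exact_mod_cast hr1
    -- the points of the square to the left are in `Zb`
    have hZ : ∀ z : ℤ × ℤ, z.1 ≤ cx + d → cx + d - 4 * r ≤ z.1 → |z.2 - u.2| ≤ 5 * r →
        z ∈ Zb n cx cy d V b' := by
      intro z hz1 hz2 hz3
      have hz3' := abs_le.1 hz3
      refine ⟨⟨?_, ?_, ?_, ?_⟩, v', hv', ?_⟩
      · rw [abs_le]; constructor <;> linarith
      · rw [abs_le]; constructor <;> linarith
      · linarith
      · linarith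
      · have h2 : sd z (cx + d, u.2) ≤ 5 * r := by
          refine max_le ?_ hz3
          show |z.1 - (cx + d)| ≤ 5 * r
          rw [abs_le]; constructor <;> linarith
        have h3 := ed_le_sd z (cx + d, u.2)
        have h4 : (sd z (cx + d, u.2) : ℝ) ≤ 5 * r := by exact_mod_cast h2
        have h5 := ed_tri (cx + d, u.2) z v'
        rw [ed_comm (cx + d, u.2) z] at h5
        linarith
    have hj0 : 0 ≤ (u.2 - (cy - d)) / r := Int.ediv_nonneg (by linarith) (by linarith)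
    have hj1 : r * ((u.2 - (cy - d)) / r) ≤ u.2 - (cy - d) := Int.mul_ediv_self_le (by omega)
    have hj2 : u.2 - (cy - d) < r * ((u.2 - (cy - d)) / r) + r := by
      have := Int.lt_mul_ediv_self_add (x := u.2 - (cy - d)) (k := r) (by omega)
      linarith
    obtain ⟨j, hj⟩ : ∃ j : ℕ, (j : ℤ) = (u.2 - (cy - d)) / r :=
      ⟨((u.2 - (cy - d)) / r).toNat, Int.toNat_of_nonneg hj0⟩
    rw [← hj] at hj1 hj2
    refine ⟨j, ?_, ?_, ?_, ?_⟩
    · rw [Finset.mem_range, Nat.lt_succ_iff]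
      have h2 : (u.2 - (cy - d)) / r ≤ 2 * d / r := Int.ediv_le_ediv (by omega) (by linarith)
      rw [← hj] at h2
      omega
    · linarith
    · linarith
    · set yj : ℤ := cy - d + r * (j : ℤ) with hyj
      have e1 : yj ≤ u.2 := by linarith
      have e2 : u.2 < yj + r := by linarith
      have hsub : Rect (cx + d - 4 * r) (cx + d + 4 * r) (yj - 4 * r) (yj + 4 * r) ⊆
          Qr n cx cy L d' := by
        rintro z ⟨z1, z2, z3, z4⟩
        refine ⟨by linarith, by linarith, max_le (by linarith) ?_, le_min (by linarith) ?_⟩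
        · have : cy - d ≤ yj := by
            have : 0 ≤ r * (j : ℤ) := mul_nonneg (by omega) (by omega)
            linarith
          linarith
        · linarith
      have huR : u ∈ Rect (cx + d - 4 * r) (cx + d + 4 * r) (yj - 4 * r) (yj + 4 * r) :=
        ⟨by linarith, by linarith, by linarith, by linarith⟩
      have hcd : cy - d ≤ yj := by
        have : 0 ≤ r * (j : ℤ) := mul_nonneg (by omega) (by omega)
        linarith
      refine ⟨u, by linarith, by linarith, ?_, ?_, ?_⟩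
      · rw [abs_le]; constructor <;> linarith
      · intro z hz
        by_contra hz1
        rw [not_lt] at hz1
        have hzR := hz.mem huR
        refine hav z (hZ z hz1 hzR.1 ?_) (hz.mono le_rfl hsub)
        rw [abs_le]
        have h3 := hzR.2.2.1
        have h4 := hzR.2.2.2
        constructor <;> linarith
      · have hwo : w.1 ≤ cx + d - 4 * r ∨ cx + d + 4 * r ≤ w.1 ∨ w.2 ≤ yj - 4 * r ∨
            yj + 4 * r ≤ w.2 := by
          rcases hw with hw | hw
          · right; right; left; linarith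
          · right; right; right; linarith
        obtain ⟨w', hw'R, hside, hc'⟩ := exit_rect huR hwo hconn
        refine ⟨w', hc'.mono le_rfl Set.inter_subset_right, ?_⟩
        rcases hside with h2 | h2 | h2 | h2
        · left
          rw [h2]
          have := neg_le_abs (cx + d - 4 * r - (cx + d))
          linarith
        · left
          rw [h2]
          have := le_abs_self (cx + d + 4 * r - (cx + d))
          linarith
        · right
          rw [h2]
          have := neg_le_abs (yj - 4 * r - yj)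
          linarith
        · right
          rw [h2]
          have := le_abs_self (yj + 4 * r - yj)
          linarith

end Pool.Agent.NT6
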