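import Pool.Agent.Lib.MP_6bd702_nt.A1
import Pool.Agent.Lib.MP_6bd702_nt.A6
import Pool.Agent.Lib.MP_6bd702_nt.B1
import Pool.Agent.Lib.MP_6bd702_nt.B2

/-!
# Row B3: the central lemma

`E` = the event of `strip_cover`. `AX Y ⊆` ... : `pr (AX Y \ AX Z) = pr (AX Y) - pr (AX Z)` as `AX Z ⊆ AX Y` (`b ≤ b'`); `AX_shift`, `shift_sub`,
`AX (Z ∪ S) ⊆ AX Z ∪ E`; so `pr (AX Y \ AX Z) ≤ pr HC + pr E`, `pr E ≤ 6 ε/12 + (2 d / r + 1) C t / r` (`one_arm`, `flat_le`).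
Choice: `K` from `one_arm (ε / 12)`; `r = ⌊ρ n⌋` with `ρ` small such that `K (κ + 6 r) ≤ κ₀ n`, `κ = ⌈sqrt (108 n r)⌉` (`t ≤ r`), `6 r ≤ κ₀ n`;
then `t = ⌈9 η n / κ₀⌉ + 1` with `η` small and `n` large such that `(2 n / r + 1) C t / r ≤ ε / 2`, `t ≤ κ₀ n`, `t ≤ r`.
-/

set_option autoImplicit false

namespace Pool.Agent.NT6

open Finset Pool.Agent.MP_6bd702 Pool.Agent.MP_6bd702.H23 Pool.Agent.Perc

private theorem pr_empty' (W : Finset Ed) : pr W (∅ : Set (Set Ed)) = 0 := by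
  have h := pr_compl W Set.univ
  rw [pr_univ, Set.compl_univ] at h
  simpa using h

private theorem pr_bUnion_le {ι : Type} [DecidableEq ι] (W : Finset Ed) (s : Finset ι)
    (A : ι → Set (Set Ed)) {c : ℝ} (h : ∀ i ∈ s, pr W (A i) ≤ c) :
    pr W {ω | ∃ i ∈ s, ω ∈ A i} ≤ s.card * c := by
  induction s using Finset.induction_on with
  | empty =>
    have h0 : {ω : Set Ed | ∃ i ∈ (∅ : Finset ι), ω ∈ A i} = ∅ := by
      ext ω; simp
    rw [h0, pr_empty']; simp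
  | insert a s ha ih =>
    have h1 : {ω : Set Ed | ∃ i ∈ insert a s, ω ∈ A i} ⊆ A a ∪ {ω | ∃ i ∈ s, ω ∈ A i} := by
      rintro ω ⟨i, hi, hω⟩
      rcases Finset.mem_insert.1 hi with rfl | hi
      · exact Or.inl hω
      · exact Or.inr ⟨i, hi, hω⟩
    have h2 := (pr_mono (W := W) h1).trans (pr_union_le W _ _)
    have h3 := ih (fun i hi => h i (Finset.mem_insert_of_mem hi))
    have h4 := h a (Finset.mem_insert_self _ _)
    rw [Finset.card_insert_of_notMem ha]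
    push_cast
    linarith

private theorem pr_sdiff {W : Finset Ed} {A B : Set (Set Ed)} (h : B ⊆ A) :
    pr W (A \ B) = pr W A - pr W B := by
  unfold pr Pr
  rw [← Ex_sub]
  refine Ex_congr fun s => ?_
  by_cases h1 : cfg W s ∈ A <;> by_cases h2 : cfg W s ∈ B
  · simp [Set.indicator, h1, h2]
  · simp [Set.indicator, h1, h2]
  · exact absurd (h h2) h1
  · simp [Set.indicator, h1, h2]

private theorem AX_mono {n cx cy L d' : ℤ} {X Y : Set (ℤ × ℤ)} (h : X ⊆ Y) :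
    AX n cx cy L d' X ⊆ AX n cx cy L d' Y := by
  rintro ω ⟨u, hu, hq, w, hw, hc⟩
  exact ⟨u, h hu, hq, w, hw, hc⟩

private theorem core {n : ℕ} {cx cy L d' d θ r t κ : ℤ} {K : ℕ} {C ε₁ : ℝ} {V : Set (ℤ × ℤ)}
    {b b' : ℝ} (hε₁ : 0 ≤ ε₁) (hC : 0 ≤ C)
    (hone : ∀ (W : Finset Ed) (x : ℤ × ℤ) (ρ r : ℤ), 1 ≤ ρ → K * ρ ≤ r → pr W (Arm x ρ r) ≤ ε₁)
    (hflat : ∀ x₀ y₀ r t : ℤ, 1 ≤ t → 1 ≤ r → ∀ W : Finset Ed,
      EW (x₀ - 4 * r) (x₀ + 4 * r) (y₀ - 4 * r) (y₀ + 4 * r) ⊆ W →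
      pr W (Flat x₀ y₀ r t) * r ≤ C * t)
    (hV : V ⊆ Bx n) (hVθ : ∀ v ∈ V, v.1 ≤ cx - d - θ) (h0 : 0 ≤ cx - L) (h1 : cx + L + t ≤ n)
    (hc0 : 0 ≤ cy) (hcn : cy ≤ n) (ht : 1 ≤ t) (htr : t ≤ r) (hr : 6 * r ≤ d)
    (hd : 2 * d ≤ d') (hL : 2 * d' ≤ L) (hb0 : (t : ℝ) ≤ b') (hb : b' ≤ 2 * n) (hκ0 : 0 ≤ κ)
    (hκ : 12 * (n : ℤ) * (8 * r + t) ≤ κ ^ 2) (hK : K * (κ + 6 * r) ≤ d) (hθ : 0 ≤ θ)
    (hbb : b ≤ b') (hbt : b' < b + t * θ / (4 * n)) :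
    pr (EW 0 n 0 n) (AX n cx cy L d' (Yb n cx cy d V b) \ AX n cx cy L d' (Zb n cx cy d V b')) ≤
      6 * ε₁ + (2 * d / r + 1) * (C * t / r) + pr (EW 0 n 0 n)
        {ω | HC (cx + 2 * d) (cx + L) (max 0 (cy - d')) (min n (cy + d')) ω} := by
  have hr1 : 1 ≤ r := ht.trans htr
  have hrR : (0 : ℝ) < r := by exact_mod_cast hr1
  have hn1 : 1 ≤ n := by
    have : (1 : ℤ) ≤ n := by omega
    exact_mod_cast this
  have hZY : Zb n cx cy d V b' ⊆ Yb n cx cy d V b := by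
    rintro u ⟨hu, v, hv, hbv⟩
    exact ⟨hu, v, hv, hbb.trans hbv.le⟩
  rw [pr_sdiff (AX_mono hZY)]
  have hY : Yb n cx cy d V b ⊆ Qi n cx cy d := fun u hu => hu.1
  have hs := AX_shift (n := n) (d' := d') (d := d) (t := t) h0 h1 hc0 hcn (by omega) (by omega) (by omega) (by omega) hY
  have hsub := shift_sub (cy := cy) hn1 hV (t := t) (by omega) (by omega) hθ (by omega) (by omega)
    hVθ hbt
  obtain ⟨y₁, y₂, hcov⟩ := strip_cover (κ := κ) hV h0 (by omega) hc0 hcn ht htr hr hd hL hb0 hb hκ0 hκ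
  set Ar : Set (Set Ed) := {ω | ∃ y ∈ ({cy - d, cy + d, 0, (n : ℤ), y₁, y₂} : Finset ℤ),
    ω ∈ Arm (cx + d, y) (κ + 6 * r) (d' - d)} with hAr
  set Fl : Set (Set Ed) := {ω | ∃ j ∈ range ((2 * d / r).toNat + 1),
    ω ∈ {ω : Set Ed | 4 * r ≤ cy - d + r * j ∧ cy - d + r * j ≤ n - 4 * r ∧
      ω ∈ Flat (cx + d) (cy - d + r * j) r t}} with hFl
  have hin : AX n cx cy L d' {u | (u.1 - t, u.2) ∈ Yb n cx cy d V b} ⊆
      AX n cx cy L d' (Zb n cx cy d V b') ∪ (Ar ∪ Fl) := by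
    rintro ω ⟨u, hu, hq, w, hw, hc⟩
    by_cases hz : ∃ z ∈ Zb n cx cy d V b', Conn ω (Qr n cx cy L d') u z
    · obtain ⟨z, hz, hcz⟩ := hz
      exact Or.inl ⟨z, hz, hcz.mem hq, w, hw, hcz.symm.trans hc⟩
    · push Not at hz
      rcases hsub hu with huZ | huS
      · exact Or.inl ⟨u, huZ, hq, w, hw, hc⟩
      · right
        rcases hcov ω ⟨u, huS, w, hw, hc, hq, hz⟩ with h | ⟨j, hj, h2, h3, h4⟩
        · exact Or.inl h
        · exact Or.inr ⟨j, hj, h2, h3, h4⟩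
  have h2 := (pr_mono (W := EW 0 n 0 n) hin).trans (pr_union_le _ _ _)
  have h3 := pr_union_le (EW 0 n 0 n) Ar Fl
  have hκr : 1 ≤ κ + 6 * r := by omega
  have hAr' : pr (EW 0 n 0 n) Ar ≤ 6 * ε₁ := by
    refine (pr_bUnion_le _ _ _ (c := ε₁) ?_).trans ?_
    · intro y _
      exact hone _ _ _ _ hκr (by omega)
    · refine mul_le_mul_of_nonneg_right ?_ hε₁
      exact_mod_cast Finset.card_le_six
  have hCt : 0 ≤ C * t / r := by
    have : (0 : ℝ) ≤ t := by exact_mod_cast (by omega : (0 : ℤ) ≤ t)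
    positivity
  have hFl' : pr (EW 0 n 0 n) Fl ≤ (2 * d / r + 1) * (C * t / r) := by
    refine (pr_bUnion_le _ _ _ (c := C * t / r) ?_).trans ?_
    · intro j _
      by_cases hj : 4 * r ≤ cy - d + r * j ∧ cy - d + r * j ≤ n - 4 * r
      · have h5 := hflat (cx + d) (cy - d + r * j) r t ht hr1 (EW 0 n 0 n)
          (EW_sub (by omega) (by omega) (by omega) (by omega))
        rw [le_div_iff₀ hrR]
        refine le_trans ?_ h5
        refine mul_le_mul_of_nonneg_right (pr_mono ?_) hrR.le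
        rintro ω ⟨_, _, h⟩
        exact h
      · have h5 : {ω : Set Ed | 4 * r ≤ cy - d + r * j ∧ cy - d + r * j ≤ n - 4 * r ∧
            ω ∈ Flat (cx + d) (cy - d + r * j) r t} = ∅ := by
          ext ω
          simp only [Set.mem_setOf_eq, Set.mem_empty_iff_false, iff_false]
          rintro ⟨h6, h7, _⟩
          exact hj ⟨h6, h7⟩
        rw [h5, pr_empty']
        exact hCt
    · refine mul_le_mul_of_nonneg_right ?_ hCt
      rw [card_range]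
      push_cast
      have h6 : (((2 * d / r).toNat : ℤ) : ℝ) = ((2 * d / r : ℤ) : ℝ) := by
        rw [Int.toNat_of_nonneg (Int.ediv_nonneg (by omega) (by omega))]
      have h7 : ((2 * d / r : ℤ) : ℝ) ≤ ((2 * d : ℤ) : ℝ) / (r : ℝ) := by
        rw [le_div_iff₀ hrR]
        exact_mod_cast Int.ediv_mul_le (2 * d) (by omega : r ≠ 0)
      have h8 : (((2 * d / r).toNat : ℕ) : ℝ) ≤ 2 * d / r := by
        have h9 : (((2 * d / r).toNat : ℕ) : ℝ) = (((2 * d / r).toNat : ℤ) : ℝ) := by norm_cast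
        rw [h9, h6]
        push_cast at h7 ⊢
        exact h7
      linarith
  linarith

theorem central (κ₀ ε : ℝ) (hκ₀ : 0 < κ₀) (hε : 0 < ε) : ∃ η : ℝ, 0 < η ∧ ∃ N : ℕ, ∀ n : ℕ, N ≤ n →
    ∀ cx cy L d' d θ : ℤ, κ₀ * n ≤ d → 2 * d ≤ d' → 2 * d' ≤ L → 0 ≤ cx - L →
    ((cx + L : ℤ) : ℝ) + κ₀ * n ≤ n → 0 ≤ cy → cy ≤ n → κ₀ * n ≤ θ →
    ∀ V : Set (ℤ × ℤ), V ⊆ Bx n → (∀ v ∈ V, v.1 ≤ cx - d - θ) → ∀ b b' : ℝ, b ≤ b' →
    b' ≤ b + 2 * η * n → κ₀ * n ≤ b' → b' ≤ 2 * n →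
    pr (EW 0 n 0 n) (AX n cx cy L d' (Yb n cx cy d V b) \ AX n cx cy L d' (Zb n cx cy d V b')) ≤
      ε + pr (EW 0 n 0 n)
        {ω | HC (cx + 2 * d) (cx + L) (max 0 (cy - d')) (min n (cy + d')) ω} := by
  obtain ⟨K, hK1, hone⟩ := one_arm (ε / 12) (by positivity)
  obtain ⟨C, hC, hflat⟩ := flat_le
  have hKR : (1 : ℝ) ≤ K := by exact_mod_cast hK1
  -- choice of ρ
  obtain ⟨ρ, hρ, hρ1, hρ2⟩ : ∃ ρ : ℝ, 0 < ρ ∧ 6 * ρ ≤ κ₀ ∧
      K * (Real.sqrt (108 * ρ) + 6 * ρ) ≤ κ₀ / 2 := by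
    have hq : 0 < κ₀ / (4 * K) := by positivity
    refine ⟨min (κ₀ / (24 * K)) ((κ₀ / (4 * K)) ^ 2 / 108), by positivity, ?_, ?_⟩
    · have h1 := min_le_left (κ₀ / (24 * K)) ((κ₀ / (4 * K)) ^ 2 / 108)
      have h2 : κ₀ / (24 * K) ≤ κ₀ / 24 := by
        apply div_le_div_of_nonneg_left hκ₀.le (by norm_num) (by linarith)
      linarith
    · have h1 := min_le_left (κ₀ / (24 * K)) ((κ₀ / (4 * K)) ^ 2 / 108)
      have h2 := min_le_right (κ₀ / (24 * K)) ((κ₀ / (4 * K)) ^ 2 / 108)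
      set ρ := min (κ₀ / (24 * K)) ((κ₀ / (4 * K)) ^ 2 / 108) with hρd
      have h3 : Real.sqrt (108 * ρ) ≤ κ₀ / (4 * K) := by
        apply Real.sqrt_le_iff.2
        exact ⟨hq.le, by linarith⟩
      have h4 : 6 * ρ ≤ κ₀ / (4 * K) := by
        have : 6 * (κ₀ / (24 * K)) = κ₀ / (4 * K) := by field_simp; norm_num
        linarith
      have h5 : (K : ℝ) * (κ₀ / (4 * K) + κ₀ / (4 * K)) = κ₀ / 2 := by field_simp; norm_num
      calc (K : ℝ) * (Real.sqrt (108 * ρ) + 6 * ρ) ≤ K * (κ₀ / (4 * K) + κ₀ / (4 * K)) := by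
            apply mul_le_mul_of_nonneg_left (by linarith) (by linarith)
        _ = κ₀ / 2 := h5
  -- choice of τ
  obtain ⟨τ, hτ, hτ1, hτ2, hτ3⟩ : ∃ τ : ℝ, 0 < τ ∧ τ ≤ ρ / 2 ∧ τ ≤ κ₀ ∧
      (4 / ρ + 1) * (C * (2 * τ / ρ)) ≤ ε / 2 := by
    have hA : 0 < (4 / ρ + 1) * ((C + 1) * (2 / ρ)) := by positivity
    refine ⟨min (ρ / 2) (min κ₀ (ε / 2 / ((4 / ρ + 1) * ((C + 1) * (2 / ρ))))), by positivity,
      min_le_left _ _, (min_le_right _ _).trans (min_le_left _ _), ?_⟩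
    have h1 := (min_le_right (ρ / 2) (min κ₀ (ε / 2 / ((4 / ρ + 1) * ((C + 1) * (2 / ρ)))))).trans
      (min_le_right _ _)
    set τ := min (ρ / 2) (min κ₀ (ε / 2 / ((4 / ρ + 1) * ((C + 1) * (2 / ρ))))) with hτd
    have hτ0 : 0 < τ := by rw [hτd]; positivity
    rw [le_div_iff₀ hA] at h1
    calc (4 / ρ + 1) * (C * (2 * τ / ρ)) = τ * ((4 / ρ + 1) * (C * (2 / ρ))) := by ring
      _ ≤ τ * ((4 / ρ + 1) * ((C + 1) * (2 / ρ))) := by
          apply mul_le_mul_of_nonneg_left _ hτ0.le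
          apply mul_le_mul_of_nonneg_left _ (by positivity)
          apply mul_le_mul_of_nonneg_right (by linarith) (by positivity)
      _ ≤ ε / 2 := h1
  refine ⟨τ * κ₀ / 32, by positivity, ⌈2 / τ⌉₊ + ⌈2 / ρ⌉₊ + ⌈2 * K / κ₀⌉₊ + 1, ?_⟩
  intro n hn cx cy L d' d θ hd0 hd hL h0 h1 hc0 hcn hθ V hV hVθ b b' hbb hbη hb0 hb
  have hn1 : (1 : ℝ) ≤ n := by
    have : 1 ≤ n := by omega
    exact_mod_cast this
  have hnpos : (0 : ℝ) < n := by linarith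
  have e1 : 2 ≤ τ * n := by
    have h2 : (2 / τ : ℝ) ≤ n := (Nat.le_ceil _).trans (by exact_mod_cast (by omega : ⌈2 / τ⌉₊ ≤ n))
    rw [div_le_iff₀ hτ] at h2
    linarith
  have e2 : 2 ≤ ρ * n := by
    have h2 : (2 / ρ : ℝ) ≤ n := (Nat.le_ceil _).trans (by exact_mod_cast (by omega : ⌈2 / ρ⌉₊ ≤ n))
    rw [div_le_iff₀ hρ] at h2
    linarith
  have e3 : 2 * K ≤ κ₀ * n := by
    have h2 : (2 * K / κ₀ : ℝ) ≤ n :=
      (Nat.le_ceil _).trans (by exact_mod_cast (by omega : ⌈2 * K / κ₀⌉₊ ≤ n))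
    rw [div_le_iff₀ hκ₀] at h2
    linarith
  obtain ⟨r, hrd⟩ : ∃ r : ℤ, r = ⌊ρ * n⌋ := ⟨_, rfl⟩
  obtain ⟨t, htd⟩ : ∃ t : ℤ, t = ⌊τ * n⌋ := ⟨_, rfl⟩
  obtain ⟨κ, hκd⟩ : ∃ κ : ℤ, κ = ⌈Real.sqrt (108 * ρ) * n⌉ := ⟨_, rfl⟩
  have hr1 : (r : ℝ) ≤ ρ * n := by rw [hrd]; exact Int.floor_le _
  have hr2 : ρ * n - 1 < r := by rw [hrd]; exact Int.sub_one_lt_floor _
  have ht1 : (t : ℝ) ≤ τ * n := by rw [htd]; exact Int.floor_le _
  have ht2 : τ * n - 1 < t := by rw [htd]; exact Int.sub_one_lt_floor _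
  have hκ1 : Real.sqrt (108 * ρ) * n ≤ κ := by rw [hκd]; exact Int.le_ceil _
  have hκ2 : (κ : ℝ) < Real.sqrt (108 * ρ) * n + 1 := by rw [hκd]; exact Int.ceil_lt_add_one _
  have hsq : 0 ≤ Real.sqrt (108 * ρ) * n := by positivity
  have ht0 : (1 : ℝ) < t + 0 := by linarith
  have ht0' : 1 ≤ t := by
    have : (0 : ℝ) < t := by linarith
    exact_mod_cast this
  have htr : t ≤ r := by
    have h2 : (t : ℝ) < r + 1 := by
      have : τ * n ≤ ρ / 2 * n := mul_le_mul_of_nonneg_right hτ1 hnpos.le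
      linarith
    have h3 : (t : ℝ) < ((r + 1 : ℤ) : ℝ) := by push_cast; exact h2
    have h4 : t < r + 1 := by exact_mod_cast h3
    omega
  have h6r : 6 * r ≤ d := by
    have h2 : ((6 * r : ℤ) : ℝ) ≤ (d : ℝ) := by
      push_cast
      have : 6 * ρ * n ≤ κ₀ * n := mul_le_mul_of_nonneg_right hρ1 hnpos.le
      linarith
    exact_mod_cast h2
  have h1' : cx + L + t ≤ n := by
    have h2 : ((cx + L + t : ℤ) : ℝ) ≤ ((n : ℤ) : ℝ) := by
      push_cast at h1 ⊢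
      have : τ * n ≤ κ₀ * n := mul_le_mul_of_nonneg_right hτ2 hnpos.le
      linarith
    exact_mod_cast h2
  have hb0' : (t : ℝ) ≤ b' := by
    have : τ * n ≤ κ₀ * n := mul_le_mul_of_nonneg_right hτ2 hnpos.le
    linarith
  have hκ0 : 0 ≤ κ := by
    have : (0 : ℝ) ≤ κ := hsq.trans hκ1
    exact_mod_cast this
  have hκsq : 12 * (n : ℤ) * (8 * r + t) ≤ κ ^ 2 := by
    have h2 : ((12 * (n : ℤ) * (8 * r + t) : ℤ) : ℝ) ≤ ((κ ^ 2 : ℤ) : ℝ) := by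
      push_cast
      have h3 : (Real.sqrt (108 * ρ) * n) ^ 2 ≤ (κ : ℝ) ^ 2 := pow_le_pow_left₀ hsq hκ1 2
      have h4 : (Real.sqrt (108 * ρ) * n) ^ 2 = 108 * ρ * n ^ 2 := by
        rw [mul_pow, Real.sq_sqrt (by positivity)]
      have h5 : (t : ℝ) ≤ r := by exact_mod_cast htr
      have h6 : 12 * (n : ℝ) * (8 * r + t) ≤ 12 * n * (9 * (ρ * n)) := by
        apply mul_le_mul_of_nonneg_left _ (by positivity)
        linarith
      have h7 : 12 * (n : ℝ) * (9 * (ρ * n)) = 108 * ρ * n ^ 2 := by ring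
      linarith
    exact_mod_cast h2
  have hKd : K * (κ + 6 * r) ≤ d := by
    have h2 : ((K * (κ + 6 * r) : ℤ) : ℝ) ≤ (d : ℝ) := by
      push_cast
      have h3 : (K : ℝ) * (κ + 6 * r) ≤ K * (Real.sqrt (108 * ρ) * n + 1 + 6 * (ρ * n)) := by
        apply mul_le_mul_of_nonneg_left _ (by linarith)
        linarith
      have h4 : (K : ℝ) * (Real.sqrt (108 * ρ) * n + 1 + 6 * (ρ * n)) =
          K * (Real.sqrt (108 * ρ) + 6 * ρ) * n + K := by ring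
      have h5 : K * (Real.sqrt (108 * ρ) + 6 * ρ) * n ≤ κ₀ / 2 * n :=
        mul_le_mul_of_nonneg_right hρ2 hnpos.le
      linarith
    exact_mod_cast h2
  have hθ0 : 0 ≤ θ := by
    have : (0 : ℝ) ≤ θ := le_trans (by positivity) hθ
    exact_mod_cast this
  have hbt : b' < b + t * θ / (4 * n) := by
    have h2 : τ * n / 2 ≤ (t : ℝ) := by linarith
    have h3 : τ * n / 2 * (κ₀ * n) ≤ (t : ℝ) * θ :=
      mul_le_mul h2 hθ (by positivity) (by linarith)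
    have h4 : τ * n / 2 * (κ₀ * n) / (4 * n) ≤ (t : ℝ) * θ / (4 * n) :=
      div_le_div_of_nonneg_right h3 (by positivity)
    have h5 : τ * n / 2 * (κ₀ * n) / (4 * n) = τ * κ₀ * n / 8 := by field_simp; norm_num
    have h6 : 0 < τ * κ₀ * n := by positivity
    have h7 : 2 * (τ * κ₀ / 32) * n = τ * κ₀ * n / 16 := by ring
    linarith
  have hmain := core (K := K) (C := C) (ε₁ := ε / 12) (by positivity) hC hone hflat hV hVθ h0 h1'
    hc0 hcn ht0' htr h6r hd hL hb0' hb hκ0 hκsq hKd hθ0 hbb hbt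
  refine hmain.trans ?_
  have hrpos : (0 : ℝ) < r := by linarith
  have hr3 : ρ * n / 2 ≤ r := by linarith
  have hdn : (d : ℝ) ≤ n := by
    have : d ≤ n := by omega
    exact_mod_cast this
  have hd0' : (0 : ℝ) ≤ d := le_trans (by positivity) hd0
  have f1 : 2 * (d : ℝ) / r ≤ 4 / ρ := by
    rw [div_le_div_iff₀ hrpos hρ]
    have : 4 * (ρ * n / 2) ≤ 4 * r := by linarith
    have h2 : 2 * (d : ℝ) * ρ ≤ 2 * n * ρ := by
      apply mul_le_mul_of_nonneg_right (by linarith) hρ.le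
    linarith
  have f2 : (t : ℝ) / r ≤ 2 * τ / ρ := by
    rw [div_le_div_iff₀ hrpos hρ]
    have h2 : (t : ℝ) * ρ ≤ τ * n * ρ := mul_le_mul_of_nonneg_right ht1 hρ.le
    have h3 : 2 * τ * (ρ * n / 2) ≤ 2 * τ * r := mul_le_mul_of_nonneg_left hr3 (by positivity)
    linarith
  have f3 : (2 * (d : ℝ) / r + 1) * (C * t / r) ≤ ε / 2 := by
    have h2 : C * (t : ℝ) / r ≤ C * (2 * τ / ρ) := by
      rw [mul_div_assoc]
      exact mul_le_mul_of_nonneg_left f2 hC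
    have h3 : 0 ≤ C * (t : ℝ) / r := by
      have : (0 : ℝ) ≤ t := by linarith
      positivity
    calc (2 * (d : ℝ) / r + 1) * (C * t / r) ≤ (4 / ρ + 1) * (C * (2 * τ / ρ)) :=
          mul_le_mul (by linarith) h2 h3 (by positivity)
      _ ≤ ε / 2 := hτ3
  linarith

end Pool.Agent.NT6
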