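import Pool.Agent.Lib.MP_6bd702_nt.P1
import Pool.Agent.Lib.MP_6bd702_nt.P2

/-!
# Row C1: a near tie seen from a centre, deterministic part

Let `ζ ∈ BadC` with `u, v, p, q`, `out = ζ \ Qe`. `V` = vertices of the box with `v.1 ≤ cx - 2 θ` which are joined in `out` to a vertex of `Qr`;
`a` = the largest `ed p' q'` over the pairs joined in `out` whose cluster (in `out`) avoids `Qr` (finite set), `D = ed u v`.
The cluster of `p` avoids `Qr`: otherwise `ed p q < θ` by the third condition, but `ed p q ≥ D - h ≥ 2 θ - d - h ≥ θ`. So (`conn_avoid`) `p, q` count in `a`: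
`D ≤ ed p q + h ≤ a + h`; and every pair which counts is joined in `ζ`, so `a ≤ D + h`. `V ⊆` the cluster of `u` (third condition again:
`ed ≥ cx - L - (cx - 2 θ) ≥ θ`), `v ∈ V` (`first_hit`). `u ∈ Yb V (a - h)`; `u` is joined to `v ∉ Qr`: `leave_rect` in `Qr` (the next vertex `w''` is in `Bx n`, so the
rows `0` and `n` of the box are no exit) gives a vertex `w'` on a row `cy ± d'`
(then `ζ ∈ AX ..`), or with `w'.1 = cx ± L` and then a lateral rectangle is crossed (`hc_strip`).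
`ζ ∉ AX .. (Zb V (a + h))`: `z ∈ Zb` joined to a row is in the cluster of `u` (fourth condition), and `ed z v' > a + h ≥ D` contradicts maximality.
-/

set_option autoImplicit false

namespace Pool.Agent.NT6

open Finset Pool.Agent.MP_6bd702 Pool.Agent.MP_6bd702.H23 Pool.Agent.Perc

/-- The vertices far to the left which are joined to the long rectangle outside of it. -/
def Vout (n : ℕ) (cx cy L d' θ : ℤ) (out : Set Ed) : Set (ℤ × ℤ) :=
  {v | v ∈ Bx n ∧ v.1 ≤ cx - 2 * θ ∧ ∃ q ∈ Qr n cx cy L d', Conn out (Bx n) v q}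

/-- The largest distance in the clusters which avoid the long rectangle. -/
noncomputable def aout (n : ℕ) (cx cy L d' : ℤ) (out : Set Ed) : ℝ :=
  sSup {x : ℝ | x = 0 ∨ ∃ p ∈ Bx n, ∃ q, Conn out (Bx n) p q ∧
    (∀ z ∈ Qr n cx cy L d', ¬ Conn out (Bx n) p z) ∧ x = ed p q}

private theorem Qr_sub_c1 {n : ℕ} {cx cy L d' : ℤ} (h0 : 0 ≤ cx - L) (h1 : cx + L ≤ n) :
    Qr n cx cy L d' ⊆ Bx n := by
  rintro ⟨x, y⟩ h
  rw [Qr, mem_Rect] at h
  rw [mem_Rect]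
  simp only at *
  omega

private theorem Qi_sub_c1 {n : ℕ} {cx cy L d' d : ℤ} (hd : d ≤ d') (hL : d ≤ L) :
    Qi n cx cy d ⊆ Qr n cx cy L d' := by
  rintro ⟨x, y⟩ ⟨h1, h2, h3, h4⟩
  rw [abs_le] at h1 h2
  rw [Qr, mem_Rect]
  simp only at *
  omega

private theorem sub_le_ed_c1 (u v : ℤ × ℤ) : ((u.1 - v.1 : ℤ) : ℝ) ≤ ed u v := by
  refine le_trans ?_ (sd_le_ed u v)
  have : u.1 - v.1 ≤ sd u v := (le_abs_self _).trans (le_max_left _ _)
  exact_mod_cast this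

theorem badC_det {n : ℕ} {cx cy L d' d θ : ℤ} {h : ℝ} (h0 : 0 ≤ cx - L) (h1 : cx + L ≤ n)
    (hc0 : 0 ≤ cy) (hcn : cy ≤ n) (hd0 : 1 ≤ d) (hd : 2 * d ≤ d') (hL : 2 * d' ≤ L) (hθ : L ≤ θ)
    (hh0 : 0 ≤ h) (hh : 2 * h ≤ θ) {ζ : Set Ed} (hζW : ζ ⊆ (EW 0 n 0 n : Finset Ed))
    (hζ : ζ ∈ BadC n cx cy L d' d θ h) :
    (ζ ∈ AX n cx cy L d' (Yb n cx cy d (Vout n cx cy L d' θ (ζ \ (Qe n cx cy L d' : Set Ed)))
          (aout n cx cy L d' (ζ \ (Qe n cx cy L d' : Set Ed)) - h)) ∧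
      ζ ∉ AX n cx cy L d' (Zb n cx cy d (Vout n cx cy L d' θ (ζ \ (Qe n cx cy L d' : Set Ed)))
          (aout n cx cy L d' (ζ \ (Qe n cx cy L d' : Set Ed)) + h)) ∧
      (θ : ℝ) ≤ aout n cx cy L d' (ζ \ (Qe n cx cy L d' : Set Ed)) + h ∧
      aout n cx cy L d' (ζ \ (Qe n cx cy L d' : Set Ed)) + h ≤ 2 * n) ∨
    HC (cx + d) (cx + L) (max 0 (cy - d')) (min n (cy + d')) ζ ∨
    HC (cx - L) (cx - d) (max 0 (cy - d')) (min n (cy + d')) ζ := by
  obtain ⟨u, hu, huQ, v, hv1, huv, hmax, hnear, ⟨p, hp, q, hpq, hup, hpmax⟩, h3, h4⟩ := hζ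
  set out : Set Ed := ζ \ (Qe n cx cy L d' : Set Ed) with hout
  have hsub : out ⊆ ζ := Set.sdiff_subset
  have hQB : Qr n cx cy L d' ⊆ Bx n := Qr_sub_c1 h0 h1
  have hvB : v ∈ Bx n := huv.mem hu
  have huR : u ∈ Qr n cx cy L d' := Qi_sub_c1 (by omega) (by omega) huQ
  have huQ' := huQ
  simp only [Qi, Set.mem_ofPred_eq] at huQ'
  obtain ⟨hu1, hu2, hu3, hu4⟩ := huQ'
  rw [abs_le] at hu1 hu2
  have hvR : v ∉ Qr n cx cy L d' := by
    intro h5
    have h6 := (mem_Rect.1 h5).1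
    omega
  have hvB' := mem_Rect.1 hvB
  have hθn : 2 * θ ≤ n := by omega
  have hθr : (2 : ℝ) * θ ≤ n := by exact_mod_cast hθn
  have hdθ : (4 : ℝ) * d ≤ θ := by
    have : 4 * d ≤ θ := by omega
    exact_mod_cast this
  have hLθ : (L : ℝ) ≤ θ := by exact_mod_cast hθ
  have hθ0 : (0 : ℝ) < θ := by
    have : 0 < θ := by omega
    exact_mod_cast this
  have hD : (2 : ℝ) * θ - d ≤ ed u v := by
    have h5 := sub_le_ed_c1 u v
    have h6 : (((2 * θ - d : ℤ)) : ℝ) ≤ ((u.1 - v.1 : ℤ) : ℝ) := by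
      exact_mod_cast (by omega : 2 * θ - d ≤ u.1 - v.1)
    refine le_trans (le_of_eq ?_) (h6.trans h5)
    push_cast
    ring
  -- the cluster of `p` avoids the long rectangle
  have hpQ : ∀ z ∈ Qr n cx cy L d', ¬ Conn ζ (Bx n) p z := by
    intro z hz hpz
    have h5 : ed p q < θ := h3 z hz (fun h6 => hup (h6.trans hpz.symm)) p q hpz.symm
      (hpz.symm.trans hpq)
    have h6 := hpmax u hu v huv
    linarith
  have hpq' : Conn out (Bx n) p q := conn_avoid hpQ hpq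
  have hS : ∀ x ∈ {x : ℝ | x = 0 ∨ ∃ p ∈ Bx n, ∃ q, Conn out (Bx n) p q ∧
      (∀ z ∈ Qr n cx cy L d', ¬ Conn out (Bx n) p z) ∧ x = ed p q}, x ≤ ed u v + h ∧
        x ≤ 3 / 2 * n := by
    rintro x (rfl | ⟨p', hp', q', h5, -, rfl⟩)
    · refine ⟨by linarith, by positivity⟩
    · refine ⟨hnear p' hp' q' (h5.mono hsub le_rfl), ?_⟩
      refine (ed_le_sd p' q').trans ?_
      have h6 := mem_Rect.1 (h5.mem hp')
      have h7 := mem_Rect.1 hp'
      have h8 : sd p' q' ≤ n := by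
        rw [sd, max_le_iff, abs_le, abs_le]
        omega
      have h9 : ((sd p' q' : ℤ) : ℝ) ≤ n := by exact_mod_cast h8
      linarith
  have hbdd : BddAbove {x : ℝ | x = 0 ∨ ∃ p ∈ Bx n, ∃ q, Conn out (Bx n) p q ∧
      (∀ z ∈ Qr n cx cy L d', ¬ Conn out (Bx n) p z) ∧ x = ed p q} := ⟨_, fun x hx => (hS x hx).1⟩
  have ha1 : ed p q ≤ aout n cx cy L d' out :=
    le_csSup hbdd (Or.inr ⟨p, hp, q, hpq', fun z hz h5 => hpQ z hz (h5.mono hsub le_rfl), rfl⟩)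
  have hne : {x : ℝ | x = 0 ∨ ∃ p ∈ Bx n, ∃ q, Conn out (Bx n) p q ∧
      (∀ z ∈ Qr n cx cy L d', ¬ Conn out (Bx n) p z) ∧ x = ed p q}.Nonempty := ⟨0, Or.inl rfl⟩
  have ha2 : aout n cx cy L d' out ≤ ed u v + h := csSup_le hne fun x hx => (hS x hx).1
  have ha3 : aout n cx cy L d' out ≤ 3 / 2 * n := csSup_le hne fun x hx => (hS x hx).2
  have ha4 : ed u v ≤ aout n cx cy L d' out + h := (hpmax u hu v huv).trans (by linarith)
  -- the far vertices are in the cluster of `u`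
  have hV : ∀ v' ∈ Vout n cx cy L d' θ out, Conn ζ (Bx n) u v' := by
    rintro v' ⟨hv', hv1', q', hq', hvq⟩
    by_contra h5
    have h6 : Conn ζ (Bx n) v' q' := hvq.mono hsub le_rfl
    have h7 : ed q' v' < θ := h3 q' hq' (fun h8 => h5 (h8.trans h6.symm)) q' v' .refl h6.symm
    have h8 := sub_le_ed_c1 q' v'
    have h9 := (mem_Rect.1 hq').1
    have h10 : ((θ : ℤ) : ℝ) ≤ ((q'.1 - v'.1 : ℤ) : ℝ) := by
      exact_mod_cast (by omega : θ ≤ q'.1 - v'.1)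
    linarith
  have hvV : v ∈ Vout n cx cy L d' θ out := by
    obtain ⟨q', hq', h5⟩ := first_hit hvR huR huv.symm
    exact ⟨hvB, hv1, q', hq', h5⟩
  -- leave the rectangle
  obtain ⟨w', hw', hcw, w'', hw'', hst⟩ := leave_rect huR hvR huv
  have hcw' : Conn ζ (Qr n cx cy L d') u w' := hcw.mono le_rfl Set.inter_subset_right
  have hco := PercW.step_coord hst
  have hw2 := mem_Rect.1 hst.2.1
  have hw1 := mem_Rect.1 hw'
  rw [mem_Rect] at hw''
  by_cases hl : w'.1 = cx - L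
  · right; right
    exact hc_strip le_rfl (by omega) (by omega) hl.le hw' (by omega) hcw'.symm
  by_cases hr : w'.1 = cx + L
  · right; left
    exact hc_strip (by omega) (by omega) le_rfl (by omega) huR hr.ge hcw'
  left
  refine ⟨⟨u, ⟨huQ, v, hvV, by linarith⟩, huR, w', ?_, hcw'⟩, ?_, by linarith, ?_⟩
  · omega
  · rintro ⟨z, ⟨hzQ, v', hv', hzv⟩, -, w, hw, hzw⟩
    have h5 := hmax z v' (h4 z hzQ w hw hzw) (hV v' hv')
    linarith
  · linarith

end Pool.Agent.NT6
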