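import Pool.Agent.Lib.MP_6bd702_nt.C1

/-!
# Row C2: a near tie seen from a centre, probability

`pr_mix` with the constant stopping set `S = (Qe ..)ᶜ`, `A = univ`, `X = BadCᶜ`, `B ω` = the set of `ξ` which are in none of the two crossing events and not in
`AX (Yb V b) \ AX (Zb V b')` with `V = Vout (ω \ Qe)`, `b = aout (ω \ Qe) - h`, `b' = aout (ω \ Qe) + h` (if `θ ≤ b' ≤ 2 n`; otherwise only the crossings).
For `ζ = (ω ∩ S) ∪ (ξ \ S)`: `ζ \ Qe = ω \ Qe` and `ζ ∩ Qe = ξ ∩ Qe`, and `AX`, `HC` only depend on `ζ ∩ Qe` (`conn_congr`). So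
`1 - (q₁ + q₂ + q₂) ≤ pr (BadCᶜ) = 1 - pr BadC`.
-/

set_option autoImplicit false

namespace Pool.Agent.NT6

open Finset Pool.Agent.MP_6bd702 Pool.Agent.MP_6bd702.H23 Pool.Agent.Perc

private theorem ax_congr {n cx cy L d' : ℤ} {X : Set (ℤ × ℤ)} {ω ω' : Set Ed}
    (h : ω ∩ (Qe n cx cy L d' : Set Ed) = ω' ∩ (Qe n cx cy L d' : Set Ed))
    (hω : ω ∈ AX n cx cy L d' X) : ω' ∈ AX n cx cy L d' X := by
  obtain ⟨u, hu, hq, w, hw, hc⟩ := hω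
  exact ⟨u, hu, hq, w, hw, conn_congr h hc⟩

private theorem hc_congr {n cx cy L d' a b : ℤ} {ω ω' : Set Ed} (ha : cx - L ≤ a) (hb : b ≤ cx + L)
    (h : ω ∩ (Qe n cx cy L d' : Set Ed) = ω' ∩ (Qe n cx cy L d' : Set Ed))
    (hω : HC a b (max 0 (cy - d')) (min n (cy + d')) ω) :
    HC a b (max 0 (cy - d')) (min n (cy + d')) ω' := by
  obtain ⟨y, y', h1, h2, h3, h4, h5⟩ := hω
  refine ⟨y, y', h1, h2, h3, h4, conn_congr ?_ h5⟩
  have hsub : ((EW a b (max 0 (cy - d')) (min n (cy + d')) : Finset Ed) : Set Ed) ⊆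
      (Qe n cx cy L d' : Set Ed) := by
    intro e he
    rw [mem_coe, mem_EW, mem_Rect, mem_Rect] at he
    rw [mem_coe, Qe, mem_EW, mem_Rect, mem_Rect]
    omega
  ext e
  have h6 : e ∈ ω ∩ (Qe n cx cy L d' : Set Ed) ↔ e ∈ ω' ∩ (Qe n cx cy L d' : Set Ed) := by rw [h]
  simp only [Set.mem_inter_iff] at h6 ⊢
  constructor
  · rintro ⟨h7, h8⟩
    exact ⟨(h6.1 ⟨h7, hsub h8⟩).1, h8⟩
  · rintro ⟨h7, h8⟩
    exact ⟨(h6.2 ⟨h7, hsub h8⟩).1, h8⟩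

theorem badC_le {n : ℕ} {cx cy L d' d θ : ℤ} {h q₁ q₂ : ℝ} (h0 : 0 ≤ cx - L) (h1 : cx + L ≤ n)
    (hc0 : 0 ≤ cy) (hcn : cy ≤ n) (hd0 : 1 ≤ d) (hd : 2 * d ≤ d') (hL : 2 * d' ≤ L) (hθ : L ≤ θ)
    (hh0 : 0 ≤ h) (hh : 2 * h ≤ θ) (hq1 : 0 ≤ q₁)
    (hq : ∀ V : Set (ℤ × ℤ), V ⊆ Bx n → (∀ v ∈ V, v.1 ≤ cx - 2 * θ) → ∀ b b' : ℝ, b' = b + 2 * h →
      (θ : ℝ) ≤ b' → b' ≤ 2 * n →
      pr (EW 0 n 0 n) (AX n cx cy L d' (Yb n cx cy d V b) \ AX n cx cy L d' (Zb n cx cy d V b')) ≤ q₁)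
    (hr : pr (EW 0 n 0 n)
      {ω | HC (cx + d) (cx + L) (max 0 (cy - d')) (min n (cy + d')) ω} ≤ q₂)
    (hl : pr (EW 0 n 0 n)
      {ω | HC (cx - L) (cx - d) (max 0 (cy - d')) (min n (cy + d')) ω} ≤ q₂) :
    pr (EW 0 n 0 n) (BadC n cx cy L d' d θ h) ≤ q₁ + 2 * q₂ := by
  classical
  set Q : Set Ed := (Qe n cx cy L d' : Set Ed) with hQ
  set W : Finset Ed := EW 0 n 0 n with hW
  let V : Set Ed → Set (ℤ × ℤ) := fun ω => Vout n cx cy L d' θ (ω \ Q)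
  let a : Set Ed → ℝ := fun ω => aout n cx cy L d' (ω \ Q)
  let G : Set Ed → Set (Set Ed) := fun ω =>
    {ξ | ((θ : ℝ) ≤ a ω + h ∧ a ω + h ≤ 2 * n) ∧
      ξ ∈ AX n cx cy L d' (Yb n cx cy d (V ω) (a ω - h)) \
        AX n cx cy L d' (Zb n cx cy d (V ω) (a ω + h))}
  let H1 : Set (Set Ed) := {ω | HC (cx + d) (cx + L) (max 0 (cy - d')) (min n (cy + d')) ω}
  let H2 : Set (Set Ed) := {ω | HC (cx - L) (cx - d) (max 0 (cy - d')) (min n (cy + d')) ω}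
  have hG : ∀ ω, pr W (G ω) ≤ q₁ := by
    intro ω
    by_cases hc : (θ : ℝ) ≤ a ω + h ∧ a ω + h ≤ 2 * n
    · refine le_trans (pr_mono ?_) (hq (V ω) ?_ ?_ (a ω - h) (a ω + h) (by ring) hc.1 hc.2)
      · intro ξ hξ
        exact hξ.2
      · intro v hv
        exact hv.1
      · intro v hv
        exact hv.2.1
    · have h2 : pr W (G ω) ≤ pr W Set.univᶜ := pr_mono fun ξ hξ => absurd hξ.1 hc
      rw [pr_compl, pr_univ] at h2
      linarith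
  have key := pr_mix (W := W) (fun _ => Qᶜ) (fun _ _ _ _ _ => rfl) Set.univ
    (fun ω => (G ω ∪ (H1 ∪ H2))ᶜ) (BadC n cx cy L d' d θ h)ᶜ (c := 1 - (q₁ + 2 * q₂)) ?_ ?_
  · rw [pr_univ, pr_compl] at key
    linarith
  · intro ω _ _
    rw [pr_compl]
    have h2 := pr_union_le W (G ω) (H1 ∪ H2)
    have h3 := pr_union_le W H1 H2
    have h4 := hG ω
    have h5 : pr W H1 ≤ q₂ := hr
    have h6 : pr W H2 ≤ q₂ := hl
    linarith
  · intro ω _ hω ξ hξ hξW hbad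
    set ζ : Set Ed := (ω ∩ Qᶜ) ∪ (ξ \ Qᶜ) with hζ
    have e1 : ζ \ Q = ω \ Q := by
      ext e
      simp only [hζ, Set.mem_sdiff, Set.mem_union, Set.mem_inter_iff, Set.mem_compl_iff, not_not]
      tauto
    have e2 : ζ ∩ Q = ξ ∩ Q := by
      ext e
      simp only [hζ, Set.mem_sdiff, Set.mem_union, Set.mem_inter_iff, Set.mem_compl_iff, not_not]
      tauto
    have hζW : ζ ⊆ (W : Set Ed) := by
      rintro e (he | he)
      · exact hω he.1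
      · exact hξW he.1
    have h2 := badC_det h0 h1 hc0 hcn hd0 hd hL hθ hh0 hh hζW hbad
    rw [← hQ, e1] at h2
    apply hξ
    rcases h2 with ⟨h3, h4, h5, h6⟩ | h3 | h3
    · exact Or.inl ⟨⟨h5, h6⟩, ax_congr e2 h3, fun h7 => h4 (ax_congr e2.symm h7)⟩
    · exact Or.inr (Or.inl (hc_congr (by omega) (by omega) e2 h3))
    · exact Or.inr (Or.inr (hc_congr (by omega) (by omega) e2 h3))

end Pool.Agent.NT6
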