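import Pool.Agent.Lib.MP_6bd702_nt.P1
import Pool.Agent.Lib.MP_6bd702_nt.P2

/-!
# Row C3: lateral rectangles, symmetries of the box

`lateral`: `pr_hc_window` (the rectangle is inside the box), `hp_le` (Z012), `hp_mono` (the height is at most `2 d'`).
`pr_sym`: `pr_pull` for `rxL n` and `trL`, which map `EW 0 n 0 n` to itself.
-/

set_option autoImplicit false

namespace Pool.Agent.NT6

open Finset Pool.Agent.MP_6bd702 Pool.Agent.MP_6bd702.H23 Pool.Agent.Perc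

theorem lateral : ∃ q : ℝ, 0 ≤ q ∧ q < 1 ∧ ∀ (m : ℕ) (n : ℕ) (a b cy d' : ℤ), 0 ≤ a → a < b → b ≤ n →
    0 ≤ cy → cy ≤ n → 1 ≤ d' → m * (2 * d' + 4) ≤ b - a →
    pr (EW 0 n 0 n) {ω | HC a b (max 0 (cy - d')) (min n (cy + d')) ω} ≤ q ^ m := by
  obtain ⟨q, hq0, hq1, h⟩ := Pool.Agent.PercW.hp_le
  refine ⟨q, hq0, hq1, ?_⟩
  intro m n a b cy d' ha hab hb hc hcn hd hm
  rw [pr_hc_window (EW_sub ha hb (le_max_left _ _) (min_le_left _ _))]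
  have h1 : min (n : ℤ) (cy + d') ≤ cy + d' := min_le_right _ _
  have h2 : cy - d' ≤ max 0 (cy - d') := le_max_right _ _
  have h3 : cy ≤ min (n : ℤ) (cy + d') := le_min hcn (by omega)
  have h4 : max 0 (cy - d') ≤ cy := max_le hc (by omega)
  refine h m (b - a) _ (by omega) ?_
  have h5 : (m : ℤ) * (min (n : ℤ) (cy + d') - max 0 (cy - d') + 4) ≤ m * (2 * d' + 4) :=
    mul_le_mul_of_nonneg_left (by omega) (Int.natCast_nonneg m)
  omega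

private theorem rxL_rxL (n : ℤ) (e : Ed) : (rxL n).e ((rxL n).e e) = e := by
  obtain ⟨x, y, t⟩ := e
  cases t
  · simp [rxL]
    omega
  · simp [rxL]

private theorem rxL_mem (n : ℕ) (e : Ed) (h : e ∈ EW 0 n 0 n) : (rxL n).e e ∈ EW 0 n 0 n := by
  rw [mem_EW] at h ⊢
  obtain ⟨x, y, t⟩ := e
  cases t <;> simp [mem_Rect, rxL] at h ⊢ <;> omega

private theorem trL_mem (n : ℕ) (e : Ed) (h : e ∈ EW 0 n 0 n) : trL.e e ∈ EW 0 n 0 n := by
  rw [mem_EW] at h ⊢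
  obtain ⟨x, y, t⟩ := e
  cases t <;> simp [mem_Rect, trL] at h ⊢ <;> omega

private theorem pr_inv (L : LMap) (W : Finset Ed) (hL : ∀ e, L.e (L.e e) = e)
    (hW : ∀ e ∈ W, L.e e ∈ W) (A : Set (Set Ed)) :
    pr W {ω | L.e ⁻¹' ω ∈ A} = pr W A := by
  rw [← pr_pull L.e L.inj hW A]
  refine pr_congr fun ω hω => ?_
  have : L.e ⁻¹' ω ∩ (W : Set Ed) = L.e ⁻¹' ω := by
    refine Set.inter_eq_left.2 fun e he => ?_
    have h1 : L.e e ∈ W := by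
      have := hω he
      exact this
    have h2 := hW _ h1
    rw [hL] at h2
    exact h2
  simp only [Set.mem_ofPred_eq]
  rw [this]

private theorem conn_inv (L : LMap) (R : Set (ℤ × ℤ)) (hL : ∀ e, L.e (L.e e) = e)
    (hv : ∀ v, L.v (L.v v) = v) (hR : ∀ w ∈ R, L.v w ∈ R) {ω : Set Ed} {u v : ℤ × ℤ} :
    Conn (L.e ⁻¹' ω) R u v ↔ Conn ω R (L.v u) (L.v v) := by
  constructor
  · intro h
    exact L.conn hR h
  · intro h
    have h1 : L.e ⁻¹' (L.e ⁻¹' ω) = ω := by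
      ext e
      simp only [Set.mem_preimage, hL]
    rw [← h1] at h
    have h2 := L.conn hR h
    rw [hv, hv] at h2
    exact h2

theorem pr_rx (n : ℕ) (A : Set (Set Ed)) :
    pr (EW 0 n 0 n) {ω | (rxL n).e ⁻¹' ω ∈ A} = pr (EW 0 n 0 n) A :=
  pr_inv (rxL n) _ (rxL_rxL n) (rxL_mem n) A

theorem pr_tr (n : ℕ) (A : Set (Set Ed)) :
    pr (EW 0 n 0 n) {ω | trL.e ⁻¹' ω ∈ A} = pr (EW 0 n 0 n) A :=
  pr_inv trL _ trL_trL (trL_mem n) A

/-- Connections in the reflected configuration. -/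
theorem conn_rx {n : ℕ} {ω : Set Ed} {u v : ℤ × ℤ} :
    Conn ((rxL n).e ⁻¹' ω) (Bx n) u v ↔ Conn ω (Bx n) ((n : ℤ) - u.1, u.2) ((n : ℤ) - v.1, v.2) := by
  refine conn_inv (rxL n) (Bx n) (rxL_rxL n) ?_ ?_
  · rintro ⟨x, y⟩
    simp [rxL]
  · rintro ⟨x, y⟩ h
    simp only [mem_Rect, rxL] at h ⊢
    omega

theorem conn_tr {n : ℕ} {ω : Set Ed} {u v : ℤ × ℤ} :
    Conn (trL.e ⁻¹' ω) (Bx n) u v ↔ Conn ω (Bx n) (u.2, u.1) (v.2, v.1) := by
  refine conn_inv trL (Bx n) trL_trL ?_ ?_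
  · rintro ⟨x, y⟩
    rfl
  · rintro ⟨x, y⟩ h
    simp only [mem_Rect, trL] at h ⊢
    omega

end Pool.Agent.NT6
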