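import Pool.Agent.Lib.MP_6bd702_nt.P1
import Pool.Agent.Lib.MP_6bd702_nt.P2

/-!
# Row D1: from a good extreme point to a centre

`cx = d (u.1 / d)`, `cy = d (u.2 / d)`. Third condition: `p ∈ Qr` has `sd p u ≤ L + d ≤ 2 L`, so by `NB1` `sd q u < r₁`, `sd q' u < r₁`, hence
`ed q q' ≤ 3/2 * 2 r₁ ≤ θ`. Fourth condition: `sd z u ≤ 2 d`, `sd w u ≥ d' - d ≥ r₂`.
-/

set_option autoImplicit false

namespace Pool.Agent.NT6

open Finset Pool.Agent.MP_6bd702 Pool.Agent.MP_6bd702.H23 Pool.Agent.Perc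

theorem badC_of {n : ℕ} {ω : Set Ed} {u v : ℤ × ℤ} {L d' d θ s r₁ r₂ : ℤ} {h : ℝ}
    (hd0 : 1 ≤ d) (hd : 2 * d ≤ d') (hL : 2 * d' ≤ L) (hdθ : d ≤ θ) (hs : L + d ≤ s)
    (hr1 : 3 * r₁ ≤ θ) (hr2 : r₂ ≤ d' - d)
    (hu : u ∈ Bx n) (huv : Conn ω (Bx n) u v)
    (hmax : ∀ a b, Conn ω (Bx n) u a → Conn ω (Bx n) u b → ed a b ≤ ed u v)
    (hnear : ∀ a ∈ Bx n, ∀ b, Conn ω (Bx n) a b → ed a b ≤ ed u v + h)
    (hp : ∃ p ∈ Bx n, ∃ q, Conn ω (Bx n) p q ∧ ¬ Conn ω (Bx n) u p ∧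
      ∀ a ∈ Bx n, ∀ b, Conn ω (Bx n) a b → ed a b ≤ ed p q + h)
    (h1 : 3 * θ ≤ u.1 - v.1) (h2 : s ≤ u.1) (h3 : u.1 ≤ n - s)
    (NB1 : ∀ p q, ¬ Conn ω (Bx n) u p → Conn ω (Bx n) p q → sd p u ≤ 2 * L → sd q u < r₁)
    (NB2 : ∀ p q, ¬ Conn ω (Bx n) u p → Conn ω (Bx n) p q → sd p u ≤ 3 * d → sd q u < r₂) :
    ∃ i ∈ range (n + 1), ∃ j ∈ range (n + 1), d * (i : ℤ) ≤ n ∧ d * (j : ℤ) ≤ n ∧
      0 ≤ d * (i : ℤ) - L ∧ d * (i : ℤ) + L ≤ n - (s - L) ∧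
      ω ∈ BadC n (d * i) (d * j) L d' d θ h := by
  have hu' := hu
  simp only [Bx, mem_Rect] at hu'
  obtain ⟨hu1, hu2, hu3, hu4⟩ := hu'
  have hd1 : (0 : ℤ) < d := by omega
  have e1 := Int.ediv_mul_add_emod u.1 d
  have e2 := Int.emod_nonneg u.1 hd1.ne'
  have e3 := Int.emod_lt_of_pos u.1 hd1
  have f1 := Int.ediv_mul_add_emod u.2 d
  have f2 := Int.emod_nonneg u.2 hd1.ne'
  have f3 := Int.emod_lt_of_pos u.2 hd1
  have g1 : 0 ≤ u.1 / d := Int.ediv_nonneg hu1 hd1.le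
  have g2 : 0 ≤ u.2 / d := Int.ediv_nonneg hu3 hd1.le
  have g3 : u.1 / d ≤ n := le_trans (Int.ediv_le_self _ hu1) hu2
  have g4 : u.2 / d ≤ n := le_trans (Int.ediv_le_self _ hu3) hu4
  obtain ⟨i, hi⟩ := Int.eq_ofNat_of_zero_le g1
  obtain ⟨j, hj⟩ := Int.eq_ofNat_of_zero_le g2
  have hi' : u.1 / d * d = d * (i : ℤ) := by rw [hi, mul_comm]
  have hj' : u.2 / d * d = d * (j : ℤ) := by rw [hj, mul_comm]
  rw [hi'] at e1
  rw [hj'] at f1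
  generalize hcx : d * (i : ℤ) = cx at *
  generalize hcy : d * (j : ℤ) = cy at *
  have k1 : cx ≤ u.1 := by omega
  have k2 : u.1 < cx + d := by omega
  have k3 : cy ≤ u.2 := by omega
  have k4 : u.2 < cy + d := by omega
  refine ⟨i, by rw [mem_range]; omega, j, by rw [mem_range]; omega, ?_, ?_, ?_, ?_, ?_⟩
  · rw [hcx]; omega
  · rw [hcy]; omega
  · rw [hcx]; omega
  · rw [hcx]; omega
  rw [hcx, hcy]
  refine ⟨u, hu, ⟨?_, ?_, hu3, hu4⟩, v, ?_, huv, hmax, hnear, hp, ?_, ?_⟩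
  · rw [abs_le]; constructor <;> omega
  · rw [abs_le]; constructor <;> omega
  · omega
  · intro p hpQ hnp q q' hq hq'
    simp only [Qr, mem_Rect, max_le_iff, le_min_iff] at hpQ
    have hpu : sd p u ≤ 2 * L := by
      unfold sd
      rw [max_le_iff, abs_le, abs_le]
      refine ⟨⟨?_, ?_⟩, ?_, ?_⟩ <;> omega
    have s1 := NB1 p q hnp hq hpu
    have s2 := NB1 p q' hnp hq' hpu
    have s3 := sd_tri q u q'
    rw [sd_comm u q'] at s3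
    have s4 := ed_le_sd q q'
    have s5 : sd q q' ≤ 2 * r₁ - 2 := by omega
    have s6 : ((sd q q' : ℤ) : ℝ) ≤ 2 * (r₁ : ℝ) - 2 := by exact_mod_cast s5
    have s7 : 3 * (r₁ : ℝ) ≤ θ := by exact_mod_cast hr1
    linarith
  · intro z hz w hw hzw
    by_contra hcon
    obtain ⟨z1, z2, z3, z4⟩ := hz
    rw [abs_le] at z1 z2
    have hzw' : Conn ω (Bx n) z w := by
      refine hzw.mono le_rfl ?_
      intro y hy
      simp only [Qr, mem_Rect, max_le_iff, le_min_iff] at hy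
      simp only [Bx, mem_Rect]
      refine ⟨?_, ?_, ?_, ?_⟩ <;> omega
    have hzu : sd z u ≤ 3 * d := by
      unfold sd
      rw [max_le_iff, abs_le, abs_le]
      refine ⟨⟨?_, ?_⟩, ?_, ?_⟩ <;> omega
    have s1 := NB2 z w hcon hzw' hzu
    unfold sd at s1
    rw [max_lt_iff, abs_lt, abs_lt] at s1
    rcases hw with hw | hw <;> omega

end Pool.Agent.NT6
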