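import Pool.Agent.Lib.MP_6bd702_nt.D1
import Pool.Agent.Lib.MP_6bd702_nt.C3
import Pool.Agent.Lib.MP_6bd702_nt.A5

/-!
# Row D2: the case distinction

`(u, v) = ext (Cl ω (Bx n) u₀)` for the cluster of the first point of the near tie. `a = |u.1 - v.1|`, `b = |u.2 - v.2|`; `ed u v ≥ m` (there is a pair at distance `≥ m`, `h ≤ ..`).
If `a ≥ 3 θ` and `u` or `v` has its first coordinate in `[s, n - s]`: `badC_of` for `ω` or for the reflected configuration.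
Same with the second coordinates (transposition, then reflection). Otherwise both are within `s` of opposite
vertical (or horizontal) sides; if also `b ≥ 3 θ` then both are within `s` of a corner; if `b < 3 θ`: `Opp` (`k² ≥ 9 θ² + 4 s n`), or near a corner (`6 l`).
Near a corner: arm (the cluster has a vertex at distance `≥ m / 4` from the corner).
-/

set_option autoImplicit false

namespace Pool.Agent.NT6

open Finset Pool.Agent.MP_6bd702 Pool.Agent.MP_6bd702.H23 Pool.Agent.Perc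

/-- The situation of the near tie at an extreme pair. -/
private structure GD (n : ℕ) (h : ℝ) (L d r₁ r₂ : ℤ) (ω : Set Ed) (u v : ℤ × ℤ) : Prop where
  hu : u ∈ Bx n
  hv : v ∈ Bx n
  huv : Conn ω (Bx n) u v
  hmax : ∀ a b, Conn ω (Bx n) u a → Conn ω (Bx n) u b → ed a b ≤ ed u v
  hnear : ∀ a ∈ Bx n, ∀ b, Conn ω (Bx n) a b → ed a b ≤ ed u v + h
  hp : ∃ p ∈ Bx n, ∃ q, Conn ω (Bx n) p q ∧ ¬ Conn ω (Bx n) u p ∧
    ∀ a ∈ Bx n, ∀ b, Conn ω (Bx n) a b → ed a b ≤ ed p q + h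
  nb : ∀ x, (x = u ∨ x = v) → ∀ p q, ¬ Conn ω (Bx n) u p → Conn ω (Bx n) p q →
    (sd p x ≤ 2 * L → sd q x < r₁) ∧ (sd p x ≤ 3 * d → sd q x < r₂)

private theorem GD.symm {n : ℕ} {h : ℝ} {L d r₁ r₂ : ℤ} {ω : Set Ed} {u v : ℤ × ℤ}
    (g : GD n h L d r₁ r₂ ω u v) : GD n h L d r₁ r₂ ω v u := by
  refine ⟨g.hv, g.hu, g.huv.symm, ?_, ?_, ?_, ?_⟩
  · intro a b ha hb
    rw [ed_comm v u]
    exact g.hmax a b (g.huv.trans ha) (g.huv.trans hb)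
  · intro a ha b hb
    rw [ed_comm v u]
    exact g.hnear a ha b hb
  · obtain ⟨p, hp, q, hq, h1, h2⟩ := g.hp
    exact ⟨p, hp, q, hq, fun h3 => h1 (g.huv.trans h3), h2⟩
  · intro x hx p q h1 h2
    exact g.nb x hx.symm p q (fun h3 => h1 (g.huv.symm.trans h3)) h2

private theorem GD.map {n : ℕ} {h : ℝ} {L d r₁ r₂ : ℤ} {ω ω' : Set Ed} {u v : ℤ × ℤ}
    (ρ : ℤ × ℤ → ℤ × ℤ) (hinv : ∀ a, ρ (ρ a) = a) (hB : ∀ a ∈ Bx n, ρ a ∈ Bx n)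
    (hed : ∀ a b, ed (ρ a) (ρ b) = ed a b) (hsd : ∀ a b, sd (ρ a) (ρ b) = sd a b)
    (hC : ∀ a b, Conn ω' (Bx n) a b ↔ Conn ω (Bx n) (ρ a) (ρ b))
    (g : GD n h L d r₁ r₂ ω u v) : GD n h L d r₁ r₂ ω' (ρ u) (ρ v) := by
  refine ⟨hB _ g.hu, hB _ g.hv, ?_, ?_, ?_, ?_, ?_⟩
  · rw [hC, hinv, hinv]; exact g.huv
  · intro a b ha hb
    rw [hC, hinv] at ha hb
    have h1 := g.hmax _ _ ha hb
    rw [hed] at h1
    rw [hed]; exact h1
  · intro a ha b hb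
    rw [hC] at hb
    have h1 := g.hnear _ (hB a ha) _ hb
    rw [hed] at h1
    rw [hed]; exact h1
  · obtain ⟨p, hp, q, hq, h1, h2⟩ := g.hp
    refine ⟨ρ p, hB p hp, ρ q, ?_, ?_, ?_⟩
    · rw [hC, hinv, hinv]; exact hq
    · rw [hC, hinv, hinv]; exact h1
    · intro a ha b hb
      rw [hC] at hb
      have h3 := h2 _ (hB a ha) _ hb
      rw [hed] at h3
      rw [hed]; exact h3
  · intro x hx p q h1 h2
    rw [hC, hinv] at h1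
    rw [hC] at h2
    have hx' : ρ x = u ∨ ρ x = v := by
      rcases hx with hx | hx
      · left; rw [hx, hinv]
      · right; rw [hx, hinv]
    have h3 := g.nb (ρ x) hx' _ _ h1 h2
    rw [hsd, hsd] at h3
    exact h3

private theorem ed_nonneg' (a b : ℤ × ℤ) : 0 ≤ ed a b := dist_nonneg

private theorem ed_congr {a b a' b' : ℤ × ℤ}
    (h : (a.1 - b.1) ^ 2 + (a.2 - b.2) ^ 2 = (a'.1 - b'.1) ^ 2 + (a'.2 - b'.2) ^ 2) :
    ed a b = ed a' b' := by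
  have h1 := ed_sq a b
  have h2 := ed_sq a' b'
  have h3 : ((a.1 - b.1 : ℤ) : ℝ) ^ 2 + ((a.2 - b.2 : ℤ) : ℝ) ^ 2 =
      ((a'.1 - b'.1 : ℤ) : ℝ) ^ 2 + ((a'.2 - b'.2 : ℤ) : ℝ) ^ 2 := by exact_mod_cast h
  have h4 : ed a b ^ 2 = ed a' b' ^ 2 := by rw [h1, h2, h3]
  exact (pow_left_inj₀ (ed_nonneg' _ _) (ed_nonneg' _ _) two_ne_zero).1 h4

private theorem GD.rx {n : ℕ} {h : ℝ} {L d r₁ r₂ : ℤ} {ω : Set Ed} {u v : ℤ × ℤ}
    (g : GD n h L d r₁ r₂ ω u v) :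
    GD n h L d r₁ r₂ ((rxL n).e ⁻¹' ω) ((n : ℤ) - u.1, u.2) ((n : ℤ) - v.1, v.2) := by
  refine GD.map (fun x => ((n : ℤ) - x.1, x.2)) ?_ ?_ ?_ ?_ ?_ g
  · intro a; simp
  · intro a ha
    simp only [Bx, mem_Rect] at ha ⊢
    refine ⟨?_, ?_, ?_, ?_⟩ <;> omega
  · intro a b
    apply ed_congr
    simp only
    ring
  · intro a b
    unfold sd
    simp only
    rw [show (n : ℤ) - a.1 - (n - b.1) = -(a.1 - b.1) by ring, abs_neg]
  · intro a b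
    exact conn_rx

private theorem GD.tr {n : ℕ} {h : ℝ} {L d r₁ r₂ : ℤ} {ω : Set Ed} {u v : ℤ × ℤ}
    (g : GD n h L d r₁ r₂ ω u v) :
    GD n h L d r₁ r₂ (trL.e ⁻¹' ω) (u.2, u.1) (v.2, v.1) := by
  refine GD.map (fun x => (x.2, x.1)) ?_ ?_ ?_ ?_ ?_ g
  · intro a; rfl
  · intro a ha
    simp only [Bx, mem_Rect] at ha ⊢
    exact ⟨ha.2.2.1, ha.2.2.2, ha.1, ha.2.1⟩
  · intro a b
    apply ed_congr
    simp only
    ring
  · intro a b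
    unfold sd
    simp only
    rw [max_comm]
  · intro a b
    exact conn_tr

private theorem GD.bad {n : ℕ} {ω : Set Ed} {u v : ℤ × ℤ} {L d' d θ s r₁ r₂ : ℤ} {h : ℝ}
    (hd0 : 1 ≤ d) (hd : 2 * d ≤ d') (hL : 2 * d' ≤ L) (hdθ : d ≤ θ) (hs : L + d ≤ s)
    (hr1 : 3 * r₁ ≤ θ) (hr2 : r₂ ≤ d' - d) (g : GD n h L d r₁ r₂ ω u v)
    (h1 : 3 * θ ≤ |u.1 - v.1|) (h2 : s ≤ u.1) (h3 : u.1 ≤ n - s) :
    ∃ i ∈ range (n + 1), ∃ j ∈ range (n + 1), d * (i : ℤ) ≤ n ∧ d * (j : ℤ) ≤ n ∧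
      0 ≤ d * (i : ℤ) - L ∧ d * (i : ℤ) + L ≤ n - (s - L) ∧
      (ω ∈ BadC n (d * i) (d * j) L d' d θ h ∨
       (rxL n).e ⁻¹' ω ∈ BadC n (d * i) (d * j) L d' d θ h) := by
  rcases le_abs.1 h1 with h1 | h1
  · obtain ⟨i, hi, j, hj, a1, a2, a3, a4, a5⟩ := badC_of hd0 hd hL hdθ hs hr1 hr2 g.hu g.huv
      g.hmax g.hnear g.hp h1 h2 h3 (fun p q e1 e2 => (g.nb u (Or.inl rfl) p q e1 e2).1)
      (fun p q e1 e2 => (g.nb u (Or.inl rfl) p q e1 e2).2)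
    exact ⟨i, hi, j, hj, a1, a2, a3, a4, Or.inl a5⟩
  · have g' := g.rx
    obtain ⟨i, hi, j, hj, a1, a2, a3, a4, a5⟩ := badC_of (s := s) hd0 hd hL hdθ hs hr1 hr2 g'.hu
      g'.huv g'.hmax g'.hnear g'.hp (by simp only; omega) (by simp only; omega)
      (by simp only; omega)
      (fun p q e1 e2 => (g'.nb _ (Or.inl rfl) p q e1 e2).1)
      (fun p q e1 e2 => (g'.nb _ (Or.inl rfl) p q e1 e2).2)
    exact ⟨i, hi, j, hj, a1, a2, a3, a4, Or.inr a5⟩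

private theorem GD.bad' {n : ℕ} {ω : Set Ed} {u v : ℤ × ℤ} {L d' d θ s r₁ r₂ : ℤ} {h : ℝ}
    (hd0 : 1 ≤ d) (hd : 2 * d ≤ d') (hL : 2 * d' ≤ L) (hdθ : d ≤ θ) (hs : L + d ≤ s)
    (hr1 : 3 * r₁ ≤ θ) (hr2 : r₂ ≤ d' - d) (g : GD n h L d r₁ r₂ ω u v)
    (h1 : 3 * θ ≤ |u.1 - v.1|) (h2 : (s ≤ u.1 ∧ u.1 ≤ n - s) ∨ (s ≤ v.1 ∧ v.1 ≤ n - s)) :
    ∃ i ∈ range (n + 1), ∃ j ∈ range (n + 1), d * (i : ℤ) ≤ n ∧ d * (j : ℤ) ≤ n ∧
      0 ≤ d * (i : ℤ) - L ∧ d * (i : ℤ) + L ≤ n - (s - L) ∧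
      (ω ∈ BadC n (d * i) (d * j) L d' d θ h ∨
       (rxL n).e ⁻¹' ω ∈ BadC n (d * i) (d * j) L d' d θ h) := by
  rcases h2 with h2 | h2
  · exact g.bad hd0 hd hL hdθ hs hr1 hr2 h1 h2.1 h2.2
  · rw [abs_sub_comm] at h1
    exact g.symm.bad hd0 hd hL hdθ hs hr1 hr2 h1 h2.1 h2.2

/-- Right point `u`, left point `v`. -/
private theorem GD.opp {n : ℕ} {ω : Set Ed} {u v : ℤ × ℤ} {L d θ s r₁ r₂ k l m : ℤ}
    {h : ℝ} (hs0 : 0 ≤ s) (hsl : s ≤ 6 * l) (hθ0 : 0 ≤ θ) (hsm : 4 * s ≤ m) (hmn : m ≤ n)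
    (hk : 9 * θ ^ 2 + 4 * s * n ≤ k ^ 2) (hk0 : 0 ≤ k) (g : GD n h L d r₁ r₂ ω u v)
    (h1 : n - s ≤ u.1) (h2 : v.1 ≤ s) (h3 : |u.2 - v.2| ≤ 3 * θ) :
    (∃ x ∈ ({((0 : ℤ), (0 : ℤ)), ((n : ℤ), 0), (0, (n : ℤ)), ((n : ℤ), (n : ℤ))} :
      Finset (ℤ × ℤ)), sd u x ≤ 6 * l ∧ m / 4 ≤ sd v x) ∨ ω ∈ Opp n s k l := by
  have hu := g.hu
  have hv := g.hv
  simp only [Bx, mem_Rect] at hu hv
  by_cases c1 : u.2 < 6 * l
  · left
    refine ⟨((n : ℤ), 0), by simp, ?_, ?_⟩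
    · unfold sd
      rw [max_le_iff, abs_le, abs_le]
      simp only
      refine ⟨⟨?_, ?_⟩, ?_, ?_⟩ <;> omega
    · unfold sd
      refine le_max_of_le_left ?_
      rw [le_abs]
      right
      simp only
      omega
  by_cases c2 : (n : ℤ) - 6 * l < u.2
  · left
    refine ⟨((n : ℤ), (n : ℤ)), by simp, ?_, ?_⟩
    · unfold sd
      rw [max_le_iff, abs_le, abs_le]
      simp only
      refine ⟨⟨?_, ?_⟩, ?_, ?_⟩ <;> omega
    · unfold sd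
      refine le_max_of_le_left ?_
      rw [le_abs]
      right
      simp only
      omega
  right
  push Not at c1 c2
  have hn0 : (0 : ℤ) ≤ n := Int.natCast_nonneg n
  have e0 : (u.1 - v.1) ^ 2 + (u.2 - v.2) ^ 2 ≤ (n : ℤ) ^ 2 + 9 * θ ^ 2 := by
    have a1 : (u.1 - v.1) ^ 2 ≤ (n : ℤ) ^ 2 := by
      apply sq_le_sq'
      · omega
      · omega
    have a2 : (u.2 - v.2) ^ 2 ≤ (3 * θ) ^ 2 := by
      rw [← sq_abs (u.2 - v.2)]
      exact pow_le_pow_left₀ (abs_nonneg _) h3 2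
    nlinarith
  have key : ∀ a b : ℤ × ℤ, ed a b ≤ ed u v → (n : ℤ) - 2 * s ≤ a.1 - b.1 → |a.2 - b.2| ≤ k := by
    intro a b hab hd
    have b1 : ed a b ^ 2 ≤ ed u v ^ 2 := pow_le_pow_left₀ (ed_nonneg' _ _) hab 2
    rw [ed_sq, ed_sq] at b1
    have b2 : (a.1 - b.1) ^ 2 + (a.2 - b.2) ^ 2 ≤ (u.1 - v.1) ^ 2 + (u.2 - v.2) ^ 2 := by
      exact_mod_cast b1
    have b3 : ((n : ℤ) - 2 * s) ^ 2 ≤ (a.1 - b.1) ^ 2 := by
      apply pow_le_pow_left₀ (by omega) hd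
    have b4 : (a.2 - b.2) ^ 2 ≤ k ^ 2 := by nlinarith [sq_nonneg s]
    exact abs_le_of_sq_le_sq b4 hk0
  refine ⟨u, g.hu, v, g.huv, h1, h2, c1, c2, ?_⟩
  intro w hw
  constructor
  · intro hw1
    have := g.hmax w v hw g.huv
    exact key w v this (by omega)
  · intro hw1
    have := g.hmax u w .refl hw
    rw [abs_sub_comm]
    exact key u w this (by omega)

/-- Both first coordinates near the sides. -/
private theorem GD.opp' {n : ℕ} {ω : Set Ed} {u v : ℤ × ℤ} {L d θ s r₁ r₂ k l m : ℤ}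
    {h : ℝ} (hs0 : 0 ≤ s) (hsl : s ≤ 6 * l) (hθ0 : 0 ≤ θ) (hsθ : 2 * s < 3 * θ)
    (hsm : 4 * s ≤ m) (hmn : m ≤ n)
    (hk : 9 * θ ^ 2 + 4 * s * n ≤ k ^ 2) (hk0 : 0 ≤ k) (g : GD n h L d r₁ r₂ ω u v)
    (h0 : 3 * θ ≤ |u.1 - v.1|)
    (h1 : ¬ (s ≤ u.1 ∧ u.1 ≤ n - s)) (h2 : ¬ (s ≤ v.1 ∧ v.1 ≤ n - s))
    (h3 : |u.2 - v.2| ≤ 3 * θ ∨ (¬ (s ≤ u.2 ∧ u.2 ≤ n - s) ∧ ¬ (s ≤ v.2 ∧ v.2 ≤ n - s))) :
    (∃ x ∈ ({((0 : ℤ), (0 : ℤ)), ((n : ℤ), 0), (0, (n : ℤ)), ((n : ℤ), (n : ℤ))} :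
      Finset (ℤ × ℤ)), (sd u x ≤ 6 * l ∧ m / 4 ≤ sd v x) ∨ (sd v x ≤ 6 * l ∧ m / 4 ≤ sd u x)) ∨
      ω ∈ Opp n s k l := by
  have hu := g.hu
  have hv := g.hv
  simp only [Bx, mem_Rect] at hu hv
  have hor : (n - s ≤ u.1 ∧ v.1 ≤ s) ∨ (n - s ≤ v.1 ∧ u.1 ≤ s) := by
    rcases le_abs.1 h0 with h0 | h0
    · left
      constructor <;> omega
    · right
      constructor <;> omega
  rcases h3 with h3 | ⟨h3, h4⟩
  · rcases hor with ⟨a1, a2⟩ | ⟨a1, a2⟩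
    · rcases g.opp hs0 hsl hθ0 hsm hmn hk hk0 a1 a2 h3 with ⟨x, hx, h5⟩ | h5
      · exact Or.inl ⟨x, hx, Or.inl h5⟩
      · exact Or.inr h5
    · rw [abs_sub_comm] at h3
      rcases g.symm.opp hs0 hsl hθ0 hsm hmn hk hk0 a1 a2 h3 with ⟨x, hx, h5⟩ | h5
      · exact Or.inl ⟨x, hx, Or.inr h5⟩
      · exact Or.inr h5
  · left
    have hc : u.2 ≤ s ∨ n - s ≤ u.2 := by omega
    rcases hor with ⟨a1, a2⟩ | ⟨a1, a2⟩
    · rcases hc with hc | hc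
      · refine ⟨((n : ℤ), 0), by simp, Or.inl ⟨?_, ?_⟩⟩
        · unfold sd
          rw [max_le_iff, abs_le, abs_le]
          simp only
          refine ⟨⟨?_, ?_⟩, ?_, ?_⟩ <;> omega
        · unfold sd
          refine le_max_of_le_left ?_
          rw [le_abs]
          right
          simp only
          omega
      · refine ⟨((n : ℤ), (n : ℤ)), by simp, Or.inl ⟨?_, ?_⟩⟩
        · unfold sd
          rw [max_le_iff, abs_le, abs_le]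
          simp only
          refine ⟨⟨?_, ?_⟩, ?_, ?_⟩ <;> omega
        · unfold sd
          refine le_max_of_le_left ?_
          rw [le_abs]
          right
          simp only
          omega
    · rcases hc with hc | hc
      · refine ⟨((0 : ℤ), 0), by simp, Or.inl ⟨?_, ?_⟩⟩
        · unfold sd
          rw [max_le_iff, abs_le, abs_le]
          simp only
          refine ⟨⟨?_, ?_⟩, ?_, ?_⟩ <;> omega
        · unfold sd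
          refine le_max_of_le_left ?_
          rw [le_abs]
          left
          simp only
          omega
      · refine ⟨((0 : ℤ), (n : ℤ)), by simp, Or.inl ⟨?_, ?_⟩⟩
        · unfold sd
          rw [max_le_iff, abs_le, abs_le]
          simp only
          refine ⟨⟨?_, ?_⟩, ?_, ?_⟩ <;> omega
        · unfold sd
          refine le_max_of_le_left ?_
          rw [le_abs]
          left
          simp only
          omega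

private theorem Bx_finite (n : ℕ) : (Bx n).Finite := by
  refine (Set.Finite.prod (Set.finite_Icc (0 : ℤ) n) (Set.finite_Icc (0 : ℤ) n)).subset ?_
  intro x hx
  simp only [Bx, mem_Rect] at hx
  exact ⟨⟨hx.1, hx.2.1⟩, hx.2.2.1, hx.2.2.2⟩

theorem near_cases {n : ℕ} {ω : Set Ed} (hω : ω ⊆ (EW 0 n 0 n : Finset Ed)) {K : ℕ}
    {L d' d θ s r₁ r₂ k l m : ℤ} {h : ℝ}
    (hd0 : 1 ≤ d) (hd : 2 * d ≤ d') (hL : 2 * d' ≤ L) (hdθ : d ≤ θ) (hs : L + d ≤ s)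
    (hr1 : 3 * r₁ ≤ θ) (hr2 : r₂ ≤ d' - d) (hsθ : 2 * s < 3 * θ) (hsl : s ≤ 6 * l)
    (hθm : 6 * θ ≤ m) (hlm : 24 * l ≤ m) (hm : (n : ℤ) < K * m) (hh0 : 0 ≤ h) (hh : h ≤ m)
    (hk : 9 * θ ^ 2 + 4 * s * n ≤ k ^ 2) (hk0 : 0 ≤ k) (hmn : m ≤ n)
    (hbig : ∃ a ∈ Bx n, ∃ b, Conn ω (Bx n) a b ∧ 3 * (m : ℝ) ≤ ed a b)
    (hcorner : ∀ x ∈ ({((0 : ℤ), (0 : ℤ)), ((n : ℤ), 0), (0, (n : ℤ)), ((n : ℤ), (n : ℤ))} :
      Finset (ℤ × ℤ)), ω ∉ Arm x (6 * l) (m / 4))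
    (hopp : ω ∉ Opp n s k l) (hopp' : trL.e ⁻¹' ω ∉ Opp n s k l)
    (hnb : ∀ z ∈ Bx n, BigS K n (Cl ω (Bx n) z) →
      ∀ x, (x = (ext (Cl ω (Bx n) z)).1 ∨ x = (ext (Cl ω (Bx n) z)).2) →
      ∀ p q, ¬ Conn ω (Bx n) z p → Conn ω (Bx n) p q →
        (sd p x ≤ 2 * L → sd q x < r₁) ∧ (sd p x ≤ 3 * d → sd q x < r₂))
    (hnear : ω ∈ Near n h) :
    ∃ i ∈ range (n + 1), ∃ j ∈ range (n + 1), d * (i : ℤ) ≤ n ∧ d * (j : ℤ) ≤ n ∧
      0 ≤ d * (i : ℤ) - L ∧ d * (i : ℤ) + L ≤ n - (s - L) ∧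
      (ω ∈ BadC n (d * i) (d * j) L d' d θ h ∨
       (rxL n).e ⁻¹' ω ∈ BadC n (d * i) (d * j) L d' d θ h ∨
       trL.e ⁻¹' ω ∈ BadC n (d * i) (d * j) L d' d θ h ∨
       (rxL n).e ⁻¹' (trL.e ⁻¹' ω) ∈ BadC n (d * i) (d * j) L d' d θ h) := by
  obtain ⟨u₀, hu₀, v₀, p, hp, q, h0v, hpq, h0p, hn1, hn2⟩ := hnear
  have hfin : (Cl ω (Bx n) u₀).Finite := (Bx_finite n).subset (fun x hx => hx.mem hu₀)
  have hne : (Cl ω (Bx n) u₀).Nonempty := ⟨u₀, .refl⟩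
  obtain ⟨hx1, hx2, hx3⟩ := ext_spec hfin hne
  have hnb' := hnb u₀ hu₀
  generalize (ext (Cl ω (Bx n) u₀)).1 = u at *
  generalize (ext (Cl ω (Bx n) u₀)).2 = v at *
  have hx1' : Conn ω (Bx n) u₀ u := hx1
  have hx2' : Conn ω (Bx n) u₀ v := hx2
  have hθ0 : 0 ≤ θ := by omega
  have hs0 : 0 ≤ s := by omega
  have hm0 : 0 ≤ m := by omega
  have hsm : 4 * s ≤ m := by omega
  have e1 : ed u₀ v₀ ≤ ed u v := hx3 _ .refl _ h0v
  obtain ⟨a, ha, b, hab, hbig'⟩ := hbig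
  have e2 : 2 * (m : ℝ) ≤ ed u v := by
    have := hn1 a ha b hab
    linarith
  have e3 : m ≤ sd u v := by
    have := ed_le_sd u v
    have h5 : (m : ℝ) ≤ sd u v := by
      have : (0 : ℝ) ≤ m := by exact_mod_cast hm0
      linarith
    exact_mod_cast h5
  have hB : BigS K n (Cl ω (Bx n) u₀) := by
    refine ⟨u, hx1, v, hx2, lt_of_lt_of_le hm ?_⟩
    exact mul_le_mul_of_nonneg_left e3 (Int.natCast_nonneg K)
  have g : GD n h L d r₁ r₂ ω u v := by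
    refine ⟨hx1'.mem hu₀, hx2'.mem hu₀, hx1'.symm.trans hx2', ?_, ?_, ?_, ?_⟩
    · intro a b ha hb
      exact hx3 _ (hx1'.trans ha) _ (hx1'.trans hb)
    · intro a ha b hb
      have := hn1 a ha b hb
      linarith
    · exact ⟨p, hp, q, hpq, fun h3 => h0p (hx1'.trans h3), hn2⟩
    · intro x hx p q h1 h2
      exact hnb' hB x hx p q (fun h3 => h1 (hx1'.symm.trans h3)) h2
  have harm : ∀ x ∈ ({((0 : ℤ), (0 : ℤ)), ((n : ℤ), 0), (0, (n : ℤ)), ((n : ℤ), (n : ℤ))} :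
      Finset (ℤ × ℤ)), ¬ ((sd u x ≤ 6 * l ∧ m / 4 ≤ sd v x) ∨
        (sd v x ≤ 6 * l ∧ m / 4 ≤ sd u x)) := by
    intro x hx h5
    apply hcorner x hx
    rcases h5 with ⟨h5, h6⟩ | ⟨h5, h6⟩
    · exact ⟨u, v, h5, h6, g.huv.mono le_rfl (Set.subset_univ _)⟩
    · exact ⟨v, u, h5, h6, g.huv.symm.mono le_rfl (Set.subset_univ _)⟩
  by_cases c1 : 3 * θ ≤ |u.1 - v.1|
  · by_cases c2 : (s ≤ u.1 ∧ u.1 ≤ n - s) ∨ (s ≤ v.1 ∧ v.1 ≤ n - s)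
    · obtain ⟨i, hi, j, hj, a1, a2, a3, a4, a5⟩ :=
        g.bad' hd0 hd hL hdθ hs hr1 hr2 c1 c2
      refine ⟨i, hi, j, hj, a1, a2, a3, a4, ?_⟩
      rcases a5 with a5 | a5
      · exact Or.inl a5
      · exact Or.inr (Or.inl a5)
    · push Not at c2
      by_cases c3 : 3 * θ ≤ |u.2 - v.2|
      · by_cases c4 : (s ≤ u.2 ∧ u.2 ≤ n - s) ∨ (s ≤ v.2 ∧ v.2 ≤ n - s)
        · obtain ⟨i, hi, j, hj, a1, a2, a3, a4, a5⟩ :=
            g.tr.bad' hd0 hd hL hdθ hs hr1 hr2 c3 c4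
          refine ⟨i, hi, j, hj, a1, a2, a3, a4, ?_⟩
          rcases a5 with a5 | a5
          · exact Or.inr (Or.inr (Or.inl a5))
          · exact Or.inr (Or.inr (Or.inr a5))
        · exfalso
          rw [not_or] at c4
          rcases g.opp' hs0 hsl hθ0 hsθ hsm hmn hk hk0 c1 (by omega) (by omega)
            (Or.inr c4) with ⟨x, hx, h5⟩ | h5
          · exact harm x hx h5
          · exact hopp h5
      · exfalso
        rcases g.opp' hs0 hsl hθ0 hsθ hsm hmn hk hk0 c1 (by omega) (by omega)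
            (Or.inl (by omega)) with ⟨x, hx, h5⟩ | h5
        · exact harm x hx h5
        · exact hopp h5
  · have c3 : 3 * θ ≤ |u.2 - v.2| := by
      by_contra hcon
      unfold sd at e3
      rcases le_max_iff.1 e3 with e3 | e3 <;> omega
    by_cases c4 : (s ≤ u.2 ∧ u.2 ≤ n - s) ∨ (s ≤ v.2 ∧ v.2 ≤ n - s)
    · obtain ⟨i, hi, j, hj, a1, a2, a3, a4, a5⟩ :=
        g.tr.bad' hd0 hd hL hdθ hs hr1 hr2 c3 c4
      refine ⟨i, hi, j, hj, a1, a2, a3, a4, ?_⟩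
      rcases a5 with a5 | a5
      · exact Or.inr (Or.inr (Or.inl a5))
      · exact Or.inr (Or.inr (Or.inr a5))
    · exfalso
      rw [not_or] at c4
      rcases g.tr.opp' hs0 hsl hθ0 hsθ hsm hmn hk hk0 c3 c4.1 c4.2
            (Or.inl (by simp only; omega)) with ⟨x, hx, h5⟩ | h5
      · refine harm (x.2, x.1) ?_ ?_
        · simp only [Finset.mem_insert, Finset.mem_singleton] at hx ⊢
          rcases hx with hx | hx | hx | hx <;> rw [hx] <;> simp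
        · have e : ∀ y : ℤ × ℤ, sd (y.2, y.1) x = sd y (x.2, x.1) := by
            intro y; unfold sd; simp only; rw [max_comm]
          rw [e, e] at h5
          exact h5
      · exact hopp' h5

end Pool.Agent.NT6
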