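import Pool.Agent.Lib.MP_6bd702_z.Z013

/-!
# No near ties: definitions
-/

set_option autoImplicit false

namespace Pool.Agent.NT6

open Finset Pool.Agent.MP_6bd702 Pool.Agent.MP_6bd702.H23 Pool.Agent.Perc

/-- Sup distance. -/
def sd (u v : ℤ × ℤ) : ℤ := max |u.1 - v.1| |u.2 - v.2|

/-- Euclidean distance. -/
noncomputable def ed (u v : ℤ × ℤ) : ℝ := dist (toC u) (toC v)

/-- The cluster of `w` in the region `R`. -/
def Cl (ω : Set Ed) (R : Set (ℤ × ℤ)) (w : ℤ × ℤ) : Set (ℤ × ℤ) := {u | Conn ω R w u}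

/-- Some path joins the square of radius `ρ` around `x` to a vertex at distance at least `r`. -/
def Arm (x : ℤ × ℤ) (ρ r : ℤ) : Set (Set Ed) :=
  {ω | ∃ u v, sd u x ≤ ρ ∧ r ≤ sd v x ∧ Conn ω Set.univ u v}

/-- `w` is the smallest vertex of its cluster (lexicographic order). -/
def Mn (ω : Set Ed) (R : Set (ℤ × ℤ)) (w : ℤ × ℤ) : Prop :=
  ∀ u ∈ Cl ω R w, toLex w ≤ toLex u

/-- The set has two points whose sup distance is larger than `n / K`. -/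
def BigS (K : ℕ) (n : ℤ) (X : Set (ℤ × ℤ)) : Prop := ∃ u ∈ X, ∃ v ∈ X, n < K * sd u v

open Classical in
/-- A pair of points of `X` at maximal Euclidean distance. -/
noncomputable def ext (X : Set (ℤ × ℤ)) : (ℤ × ℤ) × (ℤ × ℤ) :=
  if h : ∃ p : (ℤ × ℤ) × (ℤ × ℤ), p.1 ∈ X ∧ p.2 ∈ X ∧ ∀ a ∈ X, ∀ b ∈ X, ed a b ≤ ed p.1 p.2
  then h.choose else ((0, 0), (0, 0))

/-- Flat extreme: a cluster of the square of radius `4 r` around `(x₀, y₀)` which reaches its boundary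
comes to the strip `x₀ < x ≤ x₀ + t` near `(x₀, y₀)` but not to the left of it. -/
def Flat (x₀ y₀ r t : ℤ) : Set (Set Ed) :=
  {ω | ∃ u, x₀ < u.1 ∧ u.1 ≤ x₀ + t ∧ |u.2 - y₀| ≤ r ∧
    (∀ w, Conn ω (Rect (x₀ - 4 * r) (x₀ + 4 * r) (y₀ - 4 * r) (y₀ + 4 * r)) u w → x₀ < w.1) ∧
    ∃ w, Conn ω (Rect (x₀ - 4 * r) (x₀ + 4 * r) (y₀ - 4 * r) (y₀ + 4 * r)) u w ∧
      (4 * r ≤ |w.1 - x₀| ∨ 4 * r ≤ |w.2 - y₀|)}

/-- Highest point on a side: a cluster of the half square to the left of `(X, y₀)` which reaches its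
boundary has a vertex in the strip `X - s ≤ x` at a height within `k` of `y₀`, and no vertex of this
strip above `y₀ + 5 k`. -/
def High (X y₀ l k s : ℤ) : Set (Set Ed) :=
  {ω | ∃ u, X - s ≤ u.1 ∧ u.1 ≤ X ∧ |u.2 - y₀| ≤ k ∧
    (∀ w, Conn ω (Rect (X - 4 * l) X (y₀ - 4 * l) (y₀ + 4 * l)) u w → X - s ≤ w.1 →
      w.2 ≤ y₀ + 5 * k) ∧
    ∃ w, Conn ω (Rect (X - 4 * l) X (y₀ - 4 * l) (y₀ + 4 * l)) u w ∧
      (w.1 ≤ X - 4 * l ∨ 4 * l ≤ |w.2 - y₀|)}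

/-- The long rectangle around `(cx, cy)` inside the box. -/
def Qr (n cx cy L d' : ℤ) : Set (ℤ × ℤ) :=
  Rect (cx - L) (cx + L) (max 0 (cy - d')) (min n (cy + d'))

/-- The edges of the long rectangle. -/
noncomputable def Qe (n cx cy L d' : ℤ) : Finset Ed :=
  EW (cx - L) (cx + L) (max 0 (cy - d')) (min n (cy + d'))

/-- Some vertex of `X` is joined inside the long rectangle to one of its two horizontal sides (those
which are not on the boundary of the box). -/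
def AX (n cx cy L d' : ℤ) (X : Set (ℤ × ℤ)) : Set (Set Ed) :=
  {ω | ∃ u ∈ X, u ∈ Qr n cx cy L d' ∧ ∃ w, (w.2 = cy - d' ∨ w.2 = cy + d') ∧
    Conn ω (Qr n cx cy L d') u w}

/-- The inner square. -/
def Qi (n cx cy d : ℤ) : Set (ℤ × ℤ) :=
  {u | |u.1 - cx| ≤ d ∧ |u.2 - cy| ≤ d ∧ 0 ≤ u.2 ∧ u.2 ≤ n}

/-- Points of the inner square at distance at least `b` from some point of `V`. -/
def Yb (n cx cy d : ℤ) (V : Set (ℤ × ℤ)) (b : ℝ) : Set (ℤ × ℤ) :=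
  {u | u ∈ Qi n cx cy d ∧ ∃ v ∈ V, b ≤ ed u v}

/-- Points of the inner square at distance larger than `b` from some point of `V`. -/
def Zb (n cx cy d : ℤ) (V : Set (ℤ × ℤ)) (b : ℝ) : Set (ℤ × ℤ) :=
  {u | u ∈ Qi n cx cy d ∧ ∃ v ∈ V, b < ed u v}

/-- The strip to the right of the inner square. -/
def Sb (n cx cy d t : ℤ) (V : Set (ℤ × ℤ)) (b : ℝ) : Set (ℤ × ℤ) :=
  {u | cx + d < u.1 ∧ u.1 ≤ cx + d + t ∧ |u.2 - cy| ≤ d ∧ 0 ≤ u.2 ∧ u.2 ≤ n ∧ ∃ v ∈ V, b < ed u v}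

/-- The square `{0, …, n}²`. -/
abbrev Bx (n : ℕ) : Set (ℤ × ℤ) := Rect 0 n 0 n

/-- Near tie: two different clusters whose diameters are within `h` of the maximum. -/
def Near (n : ℕ) (h : ℝ) : Set (Set Ed) :=
  {ω | ∃ u ∈ Bx n, ∃ v, ∃ p ∈ Bx n, ∃ q, Conn ω (Bx n) u v ∧ Conn ω (Bx n) p q ∧
    ¬ Conn ω (Bx n) u p ∧
    (∀ a ∈ Bx n, ∀ b, Conn ω (Bx n) a b → ed a b ≤ ed u v + h) ∧
    (∀ a ∈ Bx n, ∀ b, Conn ω (Bx n) a b → ed a b ≤ ed p q + h)}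

/-- The near tie seen from the centre `(cx, cy)`, the extreme pair being `(u, v)` with `u` in the
inner square and `v` far to the left, under the two conditions on the other clusters. -/
def BadC (n : ℕ) (cx cy L d' d θ : ℤ) (h : ℝ) : Set (Set Ed) :=
  {ω | ∃ u ∈ Bx n, u ∈ Qi n cx cy d ∧ ∃ v, v.1 ≤ cx - 2 * θ ∧ Conn ω (Bx n) u v ∧
    (∀ a b, Conn ω (Bx n) u a → Conn ω (Bx n) u b → ed a b ≤ ed u v) ∧
    (∀ a ∈ Bx n, ∀ b, Conn ω (Bx n) a b → ed a b ≤ ed u v + h) ∧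
    (∃ p ∈ Bx n, ∃ q, Conn ω (Bx n) p q ∧ ¬ Conn ω (Bx n) u p ∧
      ∀ a ∈ Bx n, ∀ b, Conn ω (Bx n) a b → ed a b ≤ ed p q + h) ∧
    (∀ p ∈ Qr n cx cy L d', ¬ Conn ω (Bx n) u p → ∀ q q', Conn ω (Bx n) p q →
      Conn ω (Bx n) p q' → ed q q' < θ) ∧
    (∀ z ∈ Qi n cx cy d, ∀ w, (w.2 = cy - d' ∨ w.2 = cy + d') →
      Conn ω (Qr n cx cy L d') z w → Conn ω (Bx n) u z)}

/-- Two almost opposite points near two opposite sides: all the points of the cluster near one of the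
sides are within `k` of the height of the point near the other side. -/
def Opp (n : ℕ) (s k l : ℤ) : Set (Set Ed) :=
  {ω | ∃ u ∈ Bx n, ∃ v, Conn ω (Bx n) u v ∧ n - s ≤ u.1 ∧ v.1 ≤ s ∧
    6 * l ≤ u.2 ∧ u.2 ≤ n - 6 * l ∧
    ∀ w, Conn ω (Bx n) u w → (n - s ≤ w.1 → |w.2 - v.2| ≤ k) ∧ (w.1 ≤ s → |w.2 - u.2| ≤ k)}

end Pool.Agent.NT6
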