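import Pool.Agent.Lib.MP_6bd702_nt.D2
import Pool.Agent.Lib.MP_6bd702_nt.A8
import Pool.Agent.Lib.MP_6bd702_nt.B3
import Pool.Agent.Lib.MP_6bd702_nt.C2

/-!
# Row E1: no near ties, in the language of connections (captain: helper10)
-/

set_option autoImplicit false

namespace Pool.Agent.NT6

open Finset Pool.Agent.MP_6bd702 Pool.Agent.MP_6bd702.H23 Pool.Agent.Perc Pool.Agent.PercW

/-- Some cluster has two points at distance `D` with high probability. -/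
private theorem big_le {n : ℕ} (m : ℕ) {D : ℕ} (hD : 1 ≤ D) (hm : m * (D + 1) ≤ n + 1) :
    pr (EW 0 n 0 n) {ω | ∀ a ∈ Bx n, ∀ b, Conn ω (Bx n) a b → ed a b < D} ≤ (1 / 2) ^ m := by
  have hdis : ∀ i j : ℕ, i < j → Disjoint (EW (i * (D + 1)) (i * (D + 1) + D) 0 D)
      (EW (j * (D + 1)) (j * (D + 1) + D) 0 D) := by
    intro i j hij
    rw [Finset.disjoint_left]
    intro e h1 h2
    rw [mem_EW] at h1 h2
    simp only [mem_Rect] at h1 h2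
    have h3 : ((i : ℤ) + 1) * (D + 1) ≤ j * (D + 1) :=
      mul_le_mul_of_nonneg_right (by exact_mod_cast hij) (by omega)
    have h4 : ((i : ℤ) + 1) * (D + 1) = i * (D + 1) + (D + 1) := by ring
    omega
  have hfit : ∀ i < m, (0 : ℤ) ≤ i * (D + 1) ∧ (i : ℤ) * (D + 1) + D ≤ n ∧ (D : ℤ) ≤ n := by
    intro i hi
    have h1 : (i + 1) * (D + 1) ≤ m * (D + 1) := Nat.mul_le_mul_right _ hi
    have h2 : (i + 1) * (D + 1) = i * (D + 1) + (D + 1) := by ring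
    have h3 : i * (D + 1) + D ≤ n := by omega
    have h4 : D ≤ n := by
      have : 0 ≤ i * (D + 1) := Nat.zero_le _
      omega
    refine ⟨by positivity, by exact_mod_cast h3, by exact_mod_cast h4⟩
  refine (pr_mono ?_).trans (pr_iInter_le (W := EW 0 (n : ℤ) 0 n) (by norm_num)
    (fun i : ℕ => EW (i * (D + 1)) (i * (D + 1) + D) 0 D)
    (fun i : ℕ => {ω | HC (i * (D + 1)) (i * (D + 1) + D) 0 D ω}ᶜ) hdis
    (fun i => Loc.compl (HC_loc _ _ _ _)) m (fun i hi => ?_))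
  · intro ω hsm i hi hHC
    obtain ⟨y, y', h1, h2, h3, h4, h5⟩ := hHC
    obtain ⟨h6, h7, h8⟩ := hfit i hi
    have hbox : ((i * (D + 1), y) : ℤ × ℤ) ∈ Bx n := by
      rw [mem_Rect]
      refine ⟨?_, ?_, ?_, ?_⟩ <;> simp only <;> omega
    have h9 := hsm _ hbox _ (h5.mono le_rfl (by
      intro w hw
      rw [mem_Rect] at hw ⊢
      refine ⟨?_, ?_, ?_, ?_⟩ <;> omega))
    have h10 := sd_le_ed ((i * (D + 1), y) : ℤ × ℤ) ((i * (D + 1) + D, y') : ℤ × ℤ)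
    have h11 : (D : ℤ) ≤ sd ((i * (D + 1), y) : ℤ × ℤ) ((i * (D + 1) + D, y') : ℤ × ℤ) := by
      refine le_trans ?_ (le_max_left _ _)
      rw [show ((i * (D + 1), y) : ℤ × ℤ).1 - ((i * (D + 1) + D, y') : ℤ × ℤ).1 = -(D : ℤ) by
        simp only; ring, abs_neg]
      exact le_abs_self _
    have h12 : (D : ℝ) ≤ ((sd ((i * (D + 1), y) : ℤ × ℤ) ((i * (D + 1) + D, y') : ℤ × ℤ) : ℤ) : ℝ) := by
      exact_mod_cast h11
    linarith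
  · obtain ⟨h6, h7, h8⟩ := hfit i hi
    rw [pr_compl, pr_hc_window (EW_sub h6 h7 le_rfl h8)]
    have h9 := hp_square (n := (D : ℤ)) (by omega)
    rw [show (i : ℤ) * (D + 1) + D - i * (D + 1) = D by ring, sub_zero]
    linarith

/-- Union bound over a finite set. -/
private theorem pr_bUnion (W : Finset Ed) {ι : Type} [DecidableEq ι] (s : Finset ι)
    (A : ι → Set (Set Ed)) {q : ℝ} (h : ∀ i ∈ s, pr W (A i) ≤ q) :
    pr W {ω | ∃ i ∈ s, ω ∈ A i} ≤ s.card * q := by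
  induction s using Finset.induction_on with
  | empty =>
    refine le_of_eq ?_
    have : {ω : Set Ed | ∃ i ∈ (∅ : Finset ι), ω ∈ A i} = (Set.univ)ᶜ := by
      ext ω; simp
    rw [this, pr_compl, pr_univ]
    simp
  | insert i s hi ih =>
    have h2 : {ω | ∃ j ∈ insert i s, ω ∈ A j} ⊆ A i ∪ {ω | ∃ j ∈ s, ω ∈ A j} := by
      rintro ω ⟨j, hj, hT⟩
      rcases Finset.mem_insert.1 hj with h3 | h3
      · left; rw [← h3]; exact hT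
      · right; exact ⟨j, h3, hT⟩
    refine (pr_mono h2).trans ((pr_union_le _ _ _).trans ?_)
    rw [card_insert_of_notMem hi]
    push_cast
    have h3 := h i (mem_insert_self i s)
    have h4 := ih fun j hj => h j (mem_insert_of_mem hj)
    linarith

/-- Floors of quotients. -/
private theorem div_mul_le' {n X c M : ℕ} (hM : 1 ≤ M) (h : c * M ≤ X) : n / X * c ≤ n / M := by
  by_cases hc : c = 0
  · simp [hc]
  · rw [Nat.le_div_iff_mul_le (by omega)]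
    calc n / X * c * M = n / X * (c * M) := by ring
      _ ≤ n / X * X := Nat.mul_le_mul_left _ h
      _ ≤ n := Nat.div_mul_le_self n X

private theorem div_real {n X : ℕ} (hX : 1 ≤ X) (hn : 2 * X ≤ n) :
    (n : ℝ) / (2 * X) ≤ ((n / X : ℕ) : ℝ) := by
  have h1 := Nat.div_add_mod n X
  have h2 := Nat.mod_lt n (show 0 < X by omega)
  have h3 : (n : ℝ) = X * ((n / X : ℕ) : ℝ) + ((n % X : ℕ) : ℝ) := by exact_mod_cast h1.symm
  have h4 : ((n % X : ℕ) : ℝ) ≤ X := by exact_mod_cast h2.le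
  have hX' : (1 : ℝ) ≤ X := by exact_mod_cast hX
  have h5 : (2 : ℝ) * X ≤ n := by exact_mod_cast hn
  rw [div_le_iff₀ (by positivity)]
  nlinarith

private theorem div_real' {n X : ℕ} (hX : 1 ≤ X) : ((n / X : ℕ) : ℝ) ≤ (n : ℝ) / X :=
  Nat.cast_div_le

/-- A power of `m` times `q ^ m` is small for some `m ≥ 1`. -/
private theorem exists_exp {q c : ℝ} (hq0 : 0 ≤ q) (hq1 : q < 1) (hc : 0 < c) :
    ∃ m : ℕ, 1 ≤ m ∧ (m : ℝ) ^ 2 * q ^ m ≤ c := by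
  have h := tendsto_pow_const_mul_const_pow_of_abs_lt_one 2 (r := q) (by rw [abs_of_nonneg hq0]; exact hq1)
  have h1 := (h.eventually (gt_mem_nhds hc)).and (Filter.eventually_ge_atTop 1)
  obtain ⟨m, h2, h3⟩ := h1.exists
  exact ⟨m, h3, h2.le⟩

/-- The orders of magnitude of the lengths. -/
private structure Par (m₀ Ka K' m M Λ κ Θ S Lq D' Dd : ℕ) : Prop where
  hM : 6 * (m₀ + 1) ≤ M
  hΛ : 24 * Ka * M ≤ Λ
  hΛ1 : 24 * M ≤ Λ
  hκ : Λ ≤ κ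
  hΘ1 : 9 * κ ≤ Θ
  hΘ2 : 6 * M ≤ Θ
  hS1 : 32 * κ ^ 2 ≤ S
  hS2 : Θ ≤ S
  hS3 : Λ ≤ S
  hL1 : 6 * K' * Θ ≤ Lq
  hL2 : 2 * S ≤ Lq
  hD' : (6 * m + 2) * Lq = D'
  hDd : (3 * K' + 2) * D' = Dd

private theorem par_exists (m₀ Ka K' κ₁ : ℕ) (hK' : 1 ≤ K') (hKa : 1 ≤ Ka) :
    ∃ M Λ κ Θ S Lq : ℕ, M = 6 * (m₀ + 1) ∧ Λ = 24 * Ka * M ∧ κ₁ ≤ κ ∧
      ∀ m, Par m₀ Ka K' m M Λ κ Θ S Lq ((6 * m + 2) * Lq) ((3 * K' + 2) * ((6 * m + 2) * Lq)) := by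
  refine ⟨6 * (m₀ + 1), 24 * Ka * (6 * (m₀ + 1)), κ₁ + 24 * Ka * (6 * (m₀ + 1)),
    9 * (κ₁ + 24 * Ka * (6 * (m₀ + 1))) + 6 * (6 * (m₀ + 1)),
    32 * (κ₁ + 24 * Ka * (6 * (m₀ + 1))) ^ 2 + (9 * (κ₁ + 24 * Ka * (6 * (m₀ + 1))) +
      6 * (6 * (m₀ + 1))) + 24 * Ka * (6 * (m₀ + 1)),
    6 * K' * (9 * (κ₁ + 24 * Ka * (6 * (m₀ + 1))) + 6 * (6 * (m₀ + 1))) +
      2 * (32 * (κ₁ + 24 * Ka * (6 * (m₀ + 1))) ^ 2 + (9 * (κ₁ + 24 * Ka * (6 * (m₀ + 1))) +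
      6 * (6 * (m₀ + 1))) + 24 * Ka * (6 * (m₀ + 1))), rfl, rfl, Nat.le_add_right _ _,
    fun m => ⟨le_rfl, le_rfl, ?_, Nat.le_add_left _ _, Nat.le_add_right _ _, Nat.le_add_left _ _,
      ?_, ?_, Nat.le_add_left _ _, Nat.le_add_right _ _, Nat.le_add_left _ _, rfl, rfl⟩⟩
  · have := Nat.mul_le_mul_right (6 * (m₀ + 1)) (show 24 ≤ 24 * Ka by omega)
    simpa using this
  · rw [Nat.add_assoc]; exact Nat.le_add_right _ _
  · rw [Nat.add_right_comm]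
    exact Nat.le_add_left _ _

/-- The relations between the lengths. -/
private structure Len (n Ka K' m : ℕ) (d d' L s θ l k mm : ℕ) : Prop where
  d1 : 1 ≤ d
  l1 : 1 ≤ l
  k1 : 1 ≤ k
  mm1 : 1 ≤ mm
  θ1 : 1 ≤ θ
  e1 : (3 * K' + 2) * d ≤ d'
  e2 : (6 * m + 2) * d' ≤ L
  e3 : 2 * L ≤ s
  e4 : 6 * K' * L ≤ θ
  e5 : s ≤ θ
  e6 : s ≤ l
  e7 : 6 * θ ≤ mm
  e8 : 24 * Ka * l ≤ mm
  e9 : k ≤ l
  e10 : mm ≤ n
  e11 : 9 * l ≤ n

private theorem len_of {m₀ Ka K' m M Λ κ Θ S Lq D' Dd n : ℕ}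
    (P : Par m₀ Ka K' m M Λ κ Θ S Lq D' Dd) (hK' : 1 ≤ K') (hn : 2 * Dd ≤ n) (hDd : 1 ≤ Dd) :
    Len n Ka K' m (n / Dd) (n / D') (n / Lq) (n / S) (n / Θ) (n / Λ) (n / κ) (n / M) := by
  obtain ⟨hM, hΛ, hΛ1, hκ, hΘ1, hΘ2, hS1, hS2, hS3, hL1, hL2, hD', hDd'⟩ := P
  have hM1 : 6 ≤ M := by omega
  have hΛ0 : 1 ≤ Λ := by omega
  have hκ0 : 1 ≤ κ := by omega
  have hΘ0 : 1 ≤ Θ := by omega
  have hS0 : 1 ≤ S := by omega
  have hLq0 : 1 ≤ Lq := by omega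
  have hLD : Lq ≤ D' := by rw [← hD']; exact Nat.le_mul_of_pos_left _ (by omega)
  have hDD : D' ≤ Dd := by rw [← hDd']; exact Nat.le_mul_of_pos_left _ (by omega)
  have hD'0 : 1 ≤ D' := by omega
  have nX : ∀ X, 1 ≤ X → X ≤ Dd → 1 ≤ n / X := fun X h1 h2 => by
    rw [Nat.le_div_iff_mul_le (by omega)]; omega
  have hSD : S ≤ Dd := by omega
  refine ⟨nX _ hDd le_rfl, nX _ hΛ0 (by omega), nX _ hκ0 (by omega), nX _ (by omega) (by omega),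
    nX _ hΘ0 (by omega), ?_, ?_, ?_, ?_, Nat.div_le_div_left hS2 hΘ0,
    Nat.div_le_div_left hS3 hΛ0, ?_, ?_, Nat.div_le_div_left hκ hΛ0, Nat.div_le_self _ _, ?_⟩
  · have := div_mul_le' (n := n) (X := Dd) (c := 3 * K' + 2) (M := D') hD'0 hDd'.le
    rw [Nat.mul_comm]; exact this
  · have := div_mul_le' (n := n) (X := D') (c := 6 * m + 2) (M := Lq) hLq0 hD'.le
    rw [Nat.mul_comm]; exact this
  · have := div_mul_le' (n := n) (X := Lq) (c := 2) (M := S) hS0 hL2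
    rw [Nat.mul_comm]; exact this
  · have := div_mul_le' (n := n) (X := Lq) (c := 6 * K') (M := Θ) hΘ0 hL1
    rw [Nat.mul_comm]; exact this
  · have := div_mul_le' (n := n) (X := Θ) (c := 6) (M := M) (by omega) hΘ2
    rw [Nat.mul_comm]; exact this
  · have := div_mul_le' (n := n) (X := Λ) (c := 24 * Ka) (M := M) (by omega) hΛ
    rw [Nat.mul_comm]; exact this
  · have := div_mul_le' (n := n) (X := Λ) (c := 9) (M := 1) le_rfl (by omega)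
    rw [Nat.mul_comm]; simpa using this

/-- The count of the centres against the lateral crossings. -/
private theorem count_le {c q ε₁ : ℝ} {m Dd : ℕ} (hq0 : 0 ≤ q) (hc0 : 0 < c) (hm1 : 1 ≤ m)
    (hm : (m : ℝ) ^ 2 * q ^ m ≤ ε₁ / (6912 * c ^ 2)) (hDdc : (Dd : ℝ) = c * (6 * m + 2))
    (hDd2 : 1 ≤ Dd) : 4 * ((2 * Dd + 1 : ℕ) : ℝ) ^ 2 * (3 * q ^ m) ≤ ε₁ := by
  have hm1' : (1 : ℝ) ≤ m := by exact_mod_cast hm1
  have hDd0 : (1 : ℝ) ≤ Dd := by exact_mod_cast hDd2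
  have h1 : ((2 * Dd + 1 : ℕ) : ℝ) ≤ 24 * c * m := by
    push_cast
    have : c * (6 * m + 2) ≤ c * (8 * m) := mul_le_mul_of_nonneg_left (by linarith) hc0.le
    rw [hDdc] at hDd0 ⊢
    nlinarith
  have h2 : ((2 * Dd + 1 : ℕ) : ℝ) ^ 2 ≤ (24 * c * m) ^ 2 :=
    pow_le_pow_left₀ (Nat.cast_nonneg _) h1 2
  have h3 : 0 ≤ q ^ m := pow_nonneg hq0 m
  have h4 : 12 * (24 * c * m) ^ 2 * q ^ m = 6912 * c ^ 2 * ((m : ℝ) ^ 2 * q ^ m) := by ring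
  have h5 : 6912 * c ^ 2 * ((m : ℝ) ^ 2 * q ^ m) ≤ 6912 * c ^ 2 * (ε₁ / (6912 * c ^ 2)) :=
    mul_le_mul_of_nonneg_left hm (by positivity)
  rw [mul_div_cancel₀ _ (by positivity)] at h5
  calc 4 * ((2 * Dd + 1 : ℕ) : ℝ) ^ 2 * (3 * q ^ m)
      = 12 * ((2 * Dd + 1 : ℕ) : ℝ) ^ 2 * q ^ m := by ring
    _ ≤ 12 * (24 * c * m) ^ 2 * q ^ m := by
      refine mul_le_mul_of_nonneg_right ?_ h3
      linarith
    _ ≤ ε₁ := by rw [h4]; exact h5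

private theorem le_of_coef {a b x y : ℤ} (hab : b ≤ a) (hx : 0 ≤ x) (h : a * x ≤ y) :
    b * x ≤ y := (mul_le_mul_of_nonneg_right hab hx).trans h

/-- The condition on the heights. -/
private theorem k_bound {n Θ κ S tΘ tS tκ : ℝ} (hn : 0 < n) (hκ : 1 ≤ κ) (b1 : 9 * κ ≤ Θ)
    (b2 : 32 * κ ^ 2 ≤ S) (h6 : 0 ≤ tΘ) (r6 : tΘ ≤ n / Θ) (r7 : tS ≤ n / S)
    (r3 : n / (2 * κ) ≤ tκ) : 9 * tΘ ^ 2 + 4 * tS * n ≤ tκ ^ 2 := by
  have hκ0 : 0 < κ := by linarith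
  obtain ⟨x, hx⟩ : ∃ x, x = n / κ := ⟨_, rfl⟩
  have hx0 : 0 ≤ x := by rw [hx]; positivity
  have c1 : tΘ ≤ x / 9 := by
    refine r6.trans ((div_le_div_of_nonneg_left hn.le (by positivity) b1).trans (le_of_eq ?_))
    rw [hx, mul_comm, div_div]
  have c2 : tΘ ^ 2 ≤ (x / 9) ^ 2 := pow_le_pow_left₀ h6 c1 2
  have c3 : tS * n ≤ x ^ 2 / 32 := by
    refine (mul_le_mul_of_nonneg_right (r7.trans
      (div_le_div_of_nonneg_left hn.le (by positivity) b2)) hn.le).trans (le_of_eq ?_)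
    rw [hx, div_pow, div_div, div_mul_eq_mul_div, mul_comm (32 : ℝ), sq n]
  have c4 : (x / 2) ^ 2 ≤ tκ ^ 2 := by
    refine pow_le_pow_left₀ (by positivity) (le_trans (le_of_eq ?_) r3) 2
    rw [hx, div_div, mul_comm]
  have c5 : 0 ≤ x ^ 2 := sq_nonneg x
  have c6 : (x / 9) ^ 2 = x ^ 2 / 81 := by ring
  have c7 : (x / 2) ^ 2 = x ^ 2 / 4 := by ring
  rw [c6] at c2
  rw [c7] at c4
  have c8 : 4 * tS * n = 4 * (tS * n) := by ring
  rw [c8]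
  linarith

/-- The bound for given lengths. -/
private theorem near_len {ε₁ εc q κ₀ ηc Co η : ℝ} {n Ka K' m : ℕ} {M : ℕ}
    {d d' L s θ l k mm Dd Nc m₀ : ℕ} (T : Len n Ka K' m d d' L s θ l k mm)
    (hε₁ : 0 < ε₁) (hKa1 : 1 ≤ Ka) (hK'1 : 1 ≤ K') (hm1 : 1 ≤ m)
    (hKa : ∀ (W : Finset Ed) (x : ℤ × ℤ) (ρ r : ℤ), 1 ≤ ρ → Ka * ρ ≤ r → pr W (Arm x ρ r) ≤ ε₁)
    (hK' : ∀ (n : ℕ) (ρ r : ℤ), 1 ≤ ρ → K' * ρ ≤ r →
      pr (EW 0 n 0 n) {ω | ∃ z ∈ Bx n, BigS (2 * M) n (Cl ω (Bx n) z) ∧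
        ∃ x, (x = (ext (Cl ω (Bx n) z)).1 ∨ x = (ext (Cl ω (Bx n) z)).2) ∧
        ∃ p q, ¬ Conn ω (Bx n) z p ∧ Conn ω (Bx n) p q ∧ sd p x ≤ ρ ∧ r ≤ sd q x} ≤ ε₁)
    (hq0 : 0 ≤ q)
    (hq : ∀ (m : ℕ) (n : ℕ) (a b cy d' : ℤ), 0 ≤ a → a < b → b ≤ n →
      0 ≤ cy → cy ≤ n → 1 ≤ d' → m * (2 * d' + 4) ≤ b - a →
      pr (EW 0 n 0 n) {ω | HC a b (max 0 (cy - d')) (min n (cy + d')) ω} ≤ q ^ m)
    (hopp : pr (EW 0 n 0 n) (Opp n s k l) ≤ ε₁)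
    (hbig : pr (EW 0 n 0 n) {ω | ∀ a ∈ Bx n, ∀ b, Conn ω (Bx n) a b → ed a b < (3 * mm + 1 : ℕ)} ≤ ε₁)
    (hcen : ∀ cx cy L d' d θ : ℤ, κ₀ * n ≤ d → 2 * d ≤ d' → 2 * d' ≤ L → 0 ≤ cx - L →
      ((cx + L : ℤ) : ℝ) + κ₀ * n ≤ n → 0 ≤ cy → cy ≤ n → κ₀ * n ≤ θ →
      ∀ V : Set (ℤ × ℤ), V ⊆ Bx n → (∀ v ∈ V, v.1 ≤ cx - d - θ) → ∀ b b' : ℝ, b ≤ b' →
      b' ≤ b + 2 * ηc * n → κ₀ * n ≤ b' → b' ≤ 2 * n →
      pr (EW 0 n 0 n) (AX n cx cy L d' (Yb n cx cy d V b) \ AX n cx cy L d' (Zb n cx cy d V b')) ≤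
        εc + pr (EW 0 n 0 n)
          {ω | HC (cx + 2 * d) (cx + L) (max 0 (cy - d')) (min n (cy + d')) ω})
    (hdκ : κ₀ * n ≤ d) (hη0 : 0 < η) (hηc : η ≤ ηc) (hηθ : 2 * (η * n) ≤ θ) (hηm : η * n ≤ mm)
    (hk : 9 * (θ : ℤ) ^ 2 + 4 * s * n ≤ (k : ℤ) ^ 2) (hmM : (n : ℤ) < (2 * M : ℕ) * mm)
    (hnd : n < (2 * Dd + 1) * d) (hεc0 : 0 ≤ εc)
    (hεc : 4 * ((2 * Dd + 1 : ℕ) : ℝ) ^ 2 * εc ≤ ε₁)
    (hcount : 4 * ((2 * Dd + 1 : ℕ) : ℝ) ^ 2 * (3 * q ^ m) ≤ ε₁) :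
    pr (EW 0 n 0 n) (Near n (η * n)) ≤ 12 * ε₁ := by
  obtain ⟨d1, l1, k1, mm1, θ1, e1, e2, e3, e4, e5, e6, e7, e8, e9, e10, e11⟩ := T
  have hn0 : (0 : ℝ) ≤ n := Nat.cast_nonneg n
  have hh0 : 0 ≤ η * n := mul_nonneg hη0.le hn0
  -- integer versions
  have z1 : (3 * (K' : ℤ) + 2) * d ≤ d' := by exact_mod_cast e1
  have z2 : (6 * (m : ℤ) + 2) * d' ≤ L := by exact_mod_cast e2
  have z3 : 2 * (L : ℤ) ≤ s := by exact_mod_cast e3
  have z4 : 6 * (K' : ℤ) * L ≤ θ := by exact_mod_cast e4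
  have z5 : (s : ℤ) ≤ θ := by exact_mod_cast e5
  have z6 : (s : ℤ) ≤ l := by exact_mod_cast e6
  have z7 : 6 * (θ : ℤ) ≤ mm := by exact_mod_cast e7
  have z8 : 24 * (Ka : ℤ) * l ≤ mm := by exact_mod_cast e8
  have z9 : (k : ℤ) ≤ l := by exact_mod_cast e9
  have z10 : (mm : ℤ) ≤ n := by exact_mod_cast e10
  have z11 : 9 * (l : ℤ) ≤ n := by exact_mod_cast e11
  have y1 : (1 : ℤ) ≤ d := by exact_mod_cast d1
  have y2 : (1 : ℤ) ≤ l := by exact_mod_cast l1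
  have y3 : (1 : ℤ) ≤ θ := by exact_mod_cast θ1
  have yK : (1 : ℤ) ≤ K' := by exact_mod_cast hK'1
  have yKa : (1 : ℤ) ≤ Ka := by exact_mod_cast hKa1
  have ym : (1 : ℤ) ≤ m := by exact_mod_cast hm1
  have x1 : 5 * (d : ℤ) ≤ d' := le_of_coef (by omega) (by omega) z1
  have x2 : 8 * (d' : ℤ) ≤ L := le_of_coef (by omega) (by omega) z2
  have x3 : 6 * (L : ℤ) ≤ θ := le_of_coef (by omega) (by omega) z4
  have x4 : 24 * (l : ℤ) ≤ mm := le_of_coef (by omega) (by omega) z8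
  have x5 : (m : ℤ) * (6 * d') + 2 * d' ≤ L := by
    have h : (m : ℤ) * (6 * d') + 2 * d' = (6 * (m : ℤ) + 2) * d' := by ring
    rw [h]; exact z2
  have x6 : (m : ℤ) * (2 * d' + 4) ≤ L - 2 * d := by
    have h1 : 2 * (d' : ℤ) + 4 ≤ 6 * d' := by omega
    have h2 : (m : ℤ) * (2 * d' + 4) ≤ m * (6 * d') := mul_le_mul_of_nonneg_left h1 (by omega)
    omega
  -- the bound for one centre
  have hbad : ∀ cx cy : ℤ, 0 ≤ cx - L → cx + L ≤ n - (s - L) → 0 ≤ cy → cy ≤ n →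
      pr (EW 0 n 0 n) (BadC n cx cy L d' d θ (η * n)) ≤ (εc + q ^ m) + 2 * q ^ m := by
    intro cx cy hc1 hc2 hc3 hc4
    have hcxn : cx + L ≤ n := by omega
    have hL1 := hq m n (cx + 2 * d) (cx + L) cy d' (by omega) (by omega) (by omega) hc3 hc4 (by omega)
      (by omega)
    refine badC_le hc1 hcxn hc3 hc4 y1 (by omega) (by omega) (by omega) hh0 hηθ
      (by positivity) ?_ ?_ ?_
    · intro V hV hVθ b b' hbb hθb hb'
      have hκL : ((cx + L : ℤ) : ℝ) + κ₀ * n ≤ n := by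
        have h1 : ((cx + L : ℤ) : ℝ) ≤ ((n - (s - L) : ℤ) : ℝ) := by exact_mod_cast hc2
        have h2 : ((d : ℤ) : ℝ) ≤ ((s - L : ℤ) : ℝ) := by exact_mod_cast (by omega : (d : ℤ) ≤ s - L)
        push_cast at h1 h2 ⊢
        linarith
      have hdθ : ((d : ℤ) : ℝ) ≤ ((θ : ℤ) : ℝ) := by exact_mod_cast (by omega : (d : ℤ) ≤ θ)
      have h5 := hcen cx cy L d' d θ (by exact_mod_cast hdκ) (by omega) (by omega) hc1 hκL hc3 hc4
        (by push_cast at hdθ ⊢; linarith) V hV (fun v hv => by have := hVθ v hv; omega) b b'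
        (by linarith) (by
          have : 2 * (η * n) ≤ 2 * ηc * n := by
            have := mul_le_mul_of_nonneg_right hηc hn0
            linarith
          linarith) (by push_cast at hdθ hθb; linarith) hb'
      linarith
    · exact hq m n (cx + d) (cx + L) cy d' (by omega) (by omega) (by omega) hc3 hc4 (by omega)
        (by omega)
    · exact hq m n (cx - L) (cx - d) cy d' (by omega) (by omega) (by omega) hc3 hc4 (by omega)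
        (by omega)
  have hqm : 0 ≤ q ^ m := pow_nonneg hq0 m
  -- the events
  set W := EW 0 (n : ℤ) 0 n with hW
  set E1 : Set (Set Ed) := {ω | ∀ a ∈ Bx n, ∀ b, Conn ω (Bx n) a b → ed a b < (3 * mm + 1 : ℕ)} with hE1
  set cs : Finset (ℤ × ℤ) := {((0 : ℤ), (0 : ℤ)), ((n : ℤ), 0), (0, (n : ℤ)), ((n : ℤ), (n : ℤ))} with hcs
  set E2 : Set (Set Ed) := {ω | ∃ x ∈ cs, ω ∈ Arm x (6 * l) (mm / 4)} with hE2
  set E3 : Set (Set Ed) := {ω | trL.e ⁻¹' ω ∈ Opp n s k l} with hE3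
  set NB : ℤ → ℤ → Set (Set Ed) := fun ρ r => {ω | ∃ z ∈ Bx n, BigS (2 * M) n (Cl ω (Bx n) z) ∧
        ∃ x, (x = (ext (Cl ω (Bx n) z)).1 ∨ x = (ext (Cl ω (Bx n) z)).2) ∧
        ∃ p q, ¬ Conn ω (Bx n) z p ∧ Conn ω (Bx n) p q ∧ sd p x ≤ ρ ∧ r ≤ sd q x} with hNB
  set F : ℕ × ℕ → Set (Set Ed) := fun ij => {ω | (0 ≤ (d : ℤ) * ij.1 - L ∧
      (d : ℤ) * ij.1 + L ≤ n - (s - L) ∧ (d : ℤ) * ij.2 ≤ n) ∧
      (ω ∈ BadC n (d * ij.1) (d * ij.2) L d' d θ (η * n) ∨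
       (rxL n).e ⁻¹' ω ∈ BadC n (d * ij.1) (d * ij.2) L d' d θ (η * n) ∨
       trL.e ⁻¹' ω ∈ BadC n (d * ij.1) (d * ij.2) L d' d θ (η * n) ∨
       (rxL n).e ⁻¹' (trL.e ⁻¹' ω) ∈ BadC n (d * ij.1) (d * ij.2) L d' d θ (η * n))} with hF
  set IJ : Finset (ℕ × ℕ) := range (2 * Dd + 1) ×ˢ range (2 * Dd + 1) with hIJ
  have hcover : ∀ ω ⊆ (W : Set Ed), ω ∈ Near n (η * n) →
      ω ∈ E1 ∪ (E2 ∪ (Opp n s k l ∪ (E3 ∪ (NB (2 * L) (K' * (2 * L)) ∪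
        (NB (3 * d) (K' * (3 * d)) ∪ {ω | ∃ ij ∈ IJ, ω ∈ F ij}))))) := by
    intro ω hωW hω
    by_contra hcon
    simp only [Set.mem_union, not_or] at hcon
    obtain ⟨c1, c2, c3, c4, c5, c6, c7⟩ := hcon
    have hbig' : ∃ a ∈ Bx n, ∃ b, Conn ω (Bx n) a b ∧ 3 * ((mm : ℤ) : ℝ) ≤ ed a b := by
      simp only [hE1, Set.mem_setOf_eq, not_forall, not_lt] at c1
      obtain ⟨a, ha, b, hb, h1⟩ := c1
      refine ⟨a, ha, b, hb, ?_⟩
      push_cast at h1 ⊢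
      linarith
    have hcorner' : ∀ x ∈ ({((0 : ℤ), (0 : ℤ)), ((n : ℤ), 0), (0, (n : ℤ)), ((n : ℤ), (n : ℤ))} :
        Finset (ℤ × ℤ)), ω ∉ Arm x (6 * l) (mm / 4) := fun x hx h1 => c2 ⟨x, hx, h1⟩
    have hnb' : ∀ z ∈ Bx n, BigS (2 * M) n (Cl ω (Bx n) z) →
        ∀ x, (x = (ext (Cl ω (Bx n) z)).1 ∨ x = (ext (Cl ω (Bx n) z)).2) →
        ∀ p q, ¬ Conn ω (Bx n) z p → Conn ω (Bx n) p q →
          (sd p x ≤ 2 * L → sd q x < K' * (2 * L)) ∧ (sd p x ≤ 3 * d → sd q x < K' * (3 * d)) := by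
      intro z hz hB x hx p q h1 h2
      refine ⟨fun h3 => ?_, fun h3 => ?_⟩
      · by_contra h4
        exact c5 ⟨z, hz, hB, x, hx, p, q, h1, h2, h3, not_lt.1 h4⟩
      · by_contra h4
        exact c6 ⟨z, hz, hB, x, hx, p, q, h1, h2, h3, not_lt.1 h4⟩
    obtain ⟨i, -, j, -, h3, h4, h5, h6, h7⟩ := near_cases (K := 2 * M) (L := L) (d' := d') (d := d)
      (θ := θ) (s := s) (r₁ := K' * (2 * L)) (r₂ := K' * (3 * d)) (k := k) (l := l) (m := mm)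
      (h := η * n) hωW y1 (by omega) (by omega) (by omega) (by omega) (by linarith) (by linarith)
      (by omega) (by omega) z7 x4 hmM hh0 (by exact_mod_cast hηm) hk (by omega) z10 hbig' hcorner'
      c3 c4 hnb' hω
    refine c7 ⟨(i, j), ?_, ⟨h5, h6, h4⟩, h7⟩
    have hnd' : (n : ℤ) < (2 * Dd + 1 : ℕ) * d := by exact_mod_cast hnd
    rw [hIJ, mem_product, mem_range, mem_range]
    constructor
    · by_contra h8
      have h9 : ((2 * Dd + 1 : ℕ) : ℤ) ≤ i := by exact_mod_cast not_lt.1 h8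
      have := mul_le_mul_of_nonneg_right h9 (show (0 : ℤ) ≤ d by omega)
      linarith [mul_comm (d : ℤ) (i : ℤ)]
    · by_contra h8
      have h9 : ((2 * Dd + 1 : ℕ) : ℤ) ≤ j := by exact_mod_cast not_lt.1 h8
      have := mul_le_mul_of_nonneg_right h9 (show (0 : ℤ) ≤ d by omega)
      linarith [mul_comm (d : ℤ) (j : ℤ)]
  have b2 : pr W E2 ≤ 4 * ε₁ := by
    have h1 := pr_bUnion W cs (fun x => Arm x (6 * l) (mm / 4)) (q := ε₁) (fun x _ => by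
      refine hKa W x _ _ (by omega) ?_
      rw [Int.le_ediv_iff_mul_le (by norm_num)]
      have h : (Ka : ℤ) * (6 * l) * 4 = 24 * (Ka : ℤ) * l := by ring
      rw [h]; exact z8)
    refine h1.trans (mul_le_mul_of_nonneg_right ?_ hε₁.le)
    have : cs.card ≤ 4 := Finset.card_le_four
    exact_mod_cast this
  have b3 : pr W E3 ≤ ε₁ := by
    rw [hE3, pr_tr n (Opp n s k l)]; exact hopp
  have b4 : pr W (NB (2 * L) (K' * (2 * L))) ≤ ε₁ := by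
    by_cases hL0 : (1 : ℤ) ≤ 2 * L
    · exact hK' n _ _ hL0 le_rfl
    · omega
  have b5 : pr W (NB (3 * d) (K' * (3 * d))) ≤ ε₁ := hK' n _ _ (by omega) le_rfl
  have b6 : pr W {ω | ∃ ij ∈ IJ, ω ∈ F ij} ≤ 2 * ε₁ := by
    have h1 := pr_bUnion W IJ F (q := 4 * (εc + 3 * q ^ m)) (fun ij _ => by
      by_cases hc : 0 ≤ (d : ℤ) * ij.1 - L ∧ (d : ℤ) * ij.1 + L ≤ n - (s - L) ∧ (d : ℤ) * ij.2 ≤ n
      · have hb := hbad (d * ij.1) (d * ij.2) hc.1 hc.2.1 (by positivity) hc.2.2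
        have hsub : F ij ⊆ BadC n (d * ij.1) (d * ij.2) L d' d θ (η * n) ∪
            ({ω | (rxL n).e ⁻¹' ω ∈ BadC n (d * ij.1) (d * ij.2) L d' d θ (η * n)} ∪
            ({ω | trL.e ⁻¹' ω ∈ BadC n (d * ij.1) (d * ij.2) L d' d θ (η * n)} ∪
            {ω | trL.e ⁻¹' ω ∈
              {ω | (rxL n).e ⁻¹' ω ∈ BadC n (d * ij.1) (d * ij.2) L d' d θ (η * n)}})) := by
          rintro ω ⟨-, h2⟩
          exact h2
        refine (pr_mono hsub).trans ?_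
        refine (pr_union_le _ _ _).trans ?_
        have g1 := pr_union_le W {ω | (rxL n).e ⁻¹' ω ∈ BadC n (d * ij.1) (d * ij.2) L d' d θ (η * n)}
          ({ω | trL.e ⁻¹' ω ∈ BadC n (d * ij.1) (d * ij.2) L d' d θ (η * n)} ∪
            {ω | trL.e ⁻¹' ω ∈
              {ω | (rxL n).e ⁻¹' ω ∈ BadC n (d * ij.1) (d * ij.2) L d' d θ (η * n)}})
        have g2 := pr_union_le W {ω | trL.e ⁻¹' ω ∈ BadC n (d * ij.1) (d * ij.2) L d' d θ (η * n)}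
          {ω | trL.e ⁻¹' ω ∈
              {ω | (rxL n).e ⁻¹' ω ∈ BadC n (d * ij.1) (d * ij.2) L d' d θ (η * n)}}
        have g3 := pr_rx n (BadC n (d * ij.1) (d * ij.2) L d' d θ (η * n))
        have g4 := pr_tr n (BadC n (d * ij.1) (d * ij.2) L d' d θ (η * n))
        have g5 := pr_tr n {ω | (rxL n).e ⁻¹' ω ∈ BadC n (d * ij.1) (d * ij.2) L d' d θ (η * n)}
        rw [← hW] at g3 g4 g5
        linarith
      · have : F ij ⊆ (Set.univ)ᶜ := by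
          rintro ω ⟨h2, -⟩
          exact absurd h2 hc
        refine (pr_mono this).trans ?_
        rw [pr_compl, pr_univ]
        have : 0 ≤ 4 * (εc + 3 * q ^ m) := by positivity
        linarith)
    refine h1.trans ?_
    rw [hIJ, card_product, card_range]
    have h2 : (((2 * Dd + 1) * (2 * Dd + 1) : ℕ) : ℝ) * (4 * (εc + 3 * q ^ m)) =
        4 * ((2 * Dd + 1 : ℕ) : ℝ) ^ 2 * εc + 4 * ((2 * Dd + 1 : ℕ) : ℝ) ^ 2 * (3 * q ^ m) := by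
      push_cast
      ring
    rw [h2]
    linarith
  refine (pr_mono' hcover).trans ?_
  have u1 := pr_union_le W E1 (E2 ∪ (Opp n s k l ∪ (E3 ∪ (NB (2 * L) (K' * (2 * L)) ∪
        (NB (3 * d) (K' * (3 * d)) ∪ {ω | ∃ ij ∈ IJ, ω ∈ F ij})))))
  have u2 := pr_union_le W E2 (Opp n s k l ∪ (E3 ∪ (NB (2 * L) (K' * (2 * L)) ∪
        (NB (3 * d) (K' * (3 * d)) ∪ {ω | ∃ ij ∈ IJ, ω ∈ F ij}))))
  have u3 := pr_union_le W (Opp n s k l) (E3 ∪ (NB (2 * L) (K' * (2 * L)) ∪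
        (NB (3 * d) (K' * (3 * d)) ∪ {ω | ∃ ij ∈ IJ, ω ∈ F ij})))
  have u4 := pr_union_le W E3 (NB (2 * L) (K' * (2 * L)) ∪
        (NB (3 * d) (K' * (3 * d)) ∪ {ω | ∃ ij ∈ IJ, ω ∈ F ij}))
  have u5 := pr_union_le W (NB (2 * L) (K' * (2 * L)))
        (NB (3 * d) (K' * (3 * d)) ∪ {ω | ∃ ij ∈ IJ, ω ∈ F ij})
  have u6 := pr_union_le W (NB (3 * d) (K' * (3 * d))) {ω | ∃ ij ∈ IJ, ω ∈ F ij}
  linarith

theorem near_le : ∀ ε : ℝ, 0 < ε → ∃ η : ℝ, 0 < η ∧ ∃ N : ℕ, ∀ n : ℕ, N ≤ n →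
    pr (EW 0 n 0 n) (Near n (η * n)) ≤ ε := by
  intro ε hε
  set ε₁ : ℝ := ε / 12 with hε₁
  have hε₁0 : 0 < ε₁ := by positivity
  obtain ⟨m₀, hm₀⟩ := exists_pow_lt_of_lt_one hε₁0 (show (1 / 2 : ℝ) < 1 by norm_num)
  obtain ⟨Ka, hKa1, hKa⟩ := one_arm ε₁ hε₁0
  obtain ⟨Co, hCo0, hCo⟩ := opp_le
  obtain ⟨κ₁, hκ₁⟩ := exists_nat_ge (4 * Co * ((24 * Ka * (6 * (m₀ + 1)) : ℕ) : ℝ) ^ 2 / ε₁)
  obtain ⟨K', hK'1, hK'⟩ := neighbours (2 * (6 * (m₀ + 1))) ε₁ hε₁0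
  obtain ⟨M, Λ, κ, Θ, S, Lq, hM, hΛ, hκ, hP⟩ := par_exists m₀ Ka K' κ₁ hK'1 hKa1
  rw [← hM] at hK' hκ₁
  rw [← hΛ] at hκ₁
  obtain ⟨q, hq0, hq1, hq⟩ := lateral
  have P0 := hP 0
  have hM1 : 6 ≤ M := by omega
  have hΛ1 : 1 ≤ Λ := by have := P0.hΛ1; omega
  have hκ1 : 1 ≤ κ := by have := P0.hκ; omega
  have hΘ1 : 1 ≤ Θ := by have := P0.hΘ1; omega
  have hS1 : 1 ≤ S := by have := P0.hS2; omega
  have hLq1 : 1 ≤ Lq := by have := P0.hL2; omega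
  set c : ℝ := (3 * K' + 2) * Lq with hc
  have hc0 : 0 < c := by
    have : (1 : ℝ) ≤ Lq := by exact_mod_cast hLq1
    rw [hc]; positivity
  obtain ⟨m, hm1, hm⟩ := exists_exp hq0 hq1 (show (0 : ℝ) < ε₁ / (6912 * c ^ 2) by positivity)
  have P := hP m
  obtain ⟨D', hD'⟩ : ∃ D', D' = (6 * m + 2) * Lq := ⟨_, rfl⟩
  rw [← hD'] at P
  obtain ⟨Dd, hDd⟩ : ∃ Dd, Dd = (3 * K' + 2) * D' := ⟨_, rfl⟩
  rw [← hDd] at P
  clear hP P0
  have hDd1 : 1 ≤ Dd := by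
    rw [hDd, hD']
    have h1 : 1 ≤ (6 * m + 2) * Lq := Nat.mul_pos (by omega) hLq1
    exact Nat.mul_pos (by omega) h1
  have hLD : Lq ≤ D' := by rw [hD']; exact Nat.le_mul_of_pos_left _ (by omega)
  have hDD : D' ≤ Dd := by rw [hDd]; exact Nat.le_mul_of_pos_left _ (by omega)
  have hSD : S ≤ Dd := by have := P.hL2; omega
  have hΘD : Θ ≤ Dd := by have := P.hS2; omega
  have hΛD : Λ ≤ Dd := by have := P.hS3; omega
  have hκD : κ ≤ Dd := by have := P.hΘ1; omega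
  have hMD : M ≤ Dd := by have := P.hΘ2; omega
  have hDdc : (Dd : ℝ) = c * (6 * m + 2) := by
    rw [hDd, hD', hc]; push_cast; ring
  have hcount := count_le hq0 hc0 hm1 hm hDdc hDd1
  have hDdR : (1 : ℝ) ≤ Dd := by exact_mod_cast hDd1
  have hκ₀0 : (0 : ℝ) < 1 / (2 * Dd) := by positivity
  have hεc0 : 0 < ε₁ / (4 * ((2 * Dd + 1 : ℕ) : ℝ) ^ 2) := by positivity
  obtain ⟨ηc, hηc0, Nc, hcen⟩ := central (1 / (2 * Dd)) _ hκ₀0 hεc0
  have rM : (6 : ℝ) ≤ M := by exact_mod_cast hM1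
  have rΘ : (1 : ℝ) ≤ Θ := by exact_mod_cast hΘ1
  have rκ : (1 : ℝ) ≤ κ := by exact_mod_cast hκ1
  have rΛ : (1 : ℝ) ≤ Λ := by exact_mod_cast hΛ1
  have rS : (1 : ℝ) ≤ S := by exact_mod_cast hS1
  refine ⟨min ηc (min (1 / (4 * Θ)) (1 / (2 * M))), by positivity,
    Nc + 2 * Dd + 8 * (m₀ + 1), fun n hn => ?_⟩
  obtain ⟨η, hη⟩ : ∃ η : ℝ, η = min ηc (min (1 / (4 * Θ)) (1 / (2 * M))) := ⟨_, rfl⟩
  rw [← hη]
  have hη0 : 0 < η := by rw [hη]; positivity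
  have hηc1 : η ≤ ηc := by rw [hη]; exact min_le_left _ _
  have hηΘ : η ≤ 1 / (4 * Θ) := by rw [hη]; exact (min_le_right _ _).trans (min_le_left _ _)
  have hηM : η ≤ 1 / (2 * M) := by rw [hη]; exact (min_le_right _ _).trans (min_le_right _ _)
  have hnD : 2 * Dd ≤ n := by omega
  have hnc : Nc ≤ n := by omega
  have hnm : 8 * (m₀ + 1) ≤ n := by omega
  have T := len_of P hK'1 hnD hDd1
  have rn : (0 : ℝ) < n := by
    have : 0 < n := by omega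
    exact_mod_cast this
  have r1 := div_real hΘ1 (n := n) (by omega)
  have r2 := div_real (X := M) (by omega) (n := n) (by omega)
  have r3 := div_real hκ1 (n := n) (by omega)
  have r4 := div_real hDd1 (n := n) (by omega)
  have r5 := div_real hΛ1 (n := n) (by omega)
  have r6 := div_real' hΘ1 (n := n)
  have r7 := div_real' hS1 (n := n)
  have r8 := div_real' hκ1 (n := n)
  have hfin : pr (EW 0 n 0 n) (Near n (η * n)) ≤ 12 * ε₁ := by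
    refine near_len (Nc := 0) (m₀ := 0) (Co := 0) T hε₁0 hKa1 hK'1 hm1 hKa hK' hq0 hq ?_ ?_
      (hcen n hnc) ?_ hη0 hηc1 ?_ ?_ ?_ ?_ (Dd := Dd) ?_ hεc0.le ?_ hcount
    · -- opposite points
      have h1 := hCo n ((n / S : ℕ) : ℤ) ((n / κ : ℕ) : ℤ) ((n / Λ : ℕ) : ℤ)
        (by exact_mod_cast T.k1) (by exact_mod_cast T.e9) (by positivity) (by exact_mod_cast T.e6)
        (by exact_mod_cast T.e11)
      rw [Int.cast_natCast, Int.cast_natCast] at h1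
      have hl0 : (0 : ℝ) < ((n / Λ : ℕ) : ℝ) := lt_of_lt_of_le (by positivity) r5
      have h2 : ((n : ℝ) / (2 * Λ)) ^ 2 ≤ ((n / Λ : ℕ) : ℝ) ^ 2 :=
        pow_le_pow_left₀ (by positivity) r5 2
      have h3 : Co * n * ((n / κ : ℕ) : ℝ) ≤ Co * n * (n / κ) :=
        mul_le_mul_of_nonneg_left r8 (by positivity)
      have h4 : Co * n * (n / κ) ≤ ε₁ * ((n : ℝ) / (2 * Λ)) ^ 2 := by
        have h5 : 4 * Co * (Λ : ℝ) ^ 2 / ε₁ ≤ κ := hκ₁.trans (by exact_mod_cast hκ)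
        rw [div_le_iff₀ hε₁0] at h5
        have h6 : Co * n * (n / κ) = (n : ℝ) ^ 2 * (Co / κ) := by ring
        have h7 : ε₁ * ((n : ℝ) / (2 * Λ)) ^ 2 = (n : ℝ) ^ 2 * (ε₁ / (4 * (Λ : ℝ) ^ 2)) := by
          field_simp
          ring
        rw [h6, h7]
        refine mul_le_mul_of_nonneg_left ?_ (by positivity)
        rw [div_le_div_iff₀ (by positivity) (by positivity)]
        linarith
      have h8 : pr (EW 0 n 0 n) (Opp n ((n / S : ℕ) : ℤ) ((n / κ : ℕ) : ℤ) ((n / Λ : ℕ) : ℤ)) *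
          ((n / Λ : ℕ) : ℝ) ^ 2 ≤ ε₁ * ((n / Λ : ℕ) : ℝ) ^ 2 :=
        h1.trans (h3.trans (h4.trans (mul_le_mul_of_nonneg_left h2 hε₁0.le)))
      exact le_of_mul_le_mul_right h8 (by positivity)
    · -- a large cluster
      refine (big_le (m₀ + 1) (D := 3 * (n / M) + 1) (by omega) ?_).trans ?_
      · have h1 : M * (n / M) ≤ n := Nat.mul_div_le n M
        rw [hM] at h1 ⊢
        have h2 : 2 * ((m₀ + 1) * (3 * (n / (6 * (m₀ + 1))) + 1 + 1)) =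
            6 * (m₀ + 1) * (n / (6 * (m₀ + 1))) + 4 * (m₀ + 1) := by ring
        omega
      · refine le_trans ?_ hm₀.le
        exact pow_le_pow_of_le_one (by norm_num) (by norm_num) (Nat.le_succ _)
    · refine le_trans (le_of_eq ?_) r4
      ring
    · refine le_trans ?_ r1
      have h1 : 2 * (η * n) ≤ 2 * (1 / (4 * Θ) * n) :=
        mul_le_mul_of_nonneg_left (mul_le_mul_of_nonneg_right hηΘ rn.le) (by norm_num)
      refine h1.trans (le_of_eq ?_)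
      field_simp
      ring
    · refine le_trans ?_ r2
      have h1 : η * n ≤ 1 / (2 * M) * n := mul_le_mul_of_nonneg_right hηM rn.le
      refine h1.trans (le_of_eq ?_)
      ring
    · -- k
      have h1 : (9 : ℝ) * ((n / Θ : ℕ) : ℝ) ^ 2 + 4 * ((n / S : ℕ) : ℝ) * n ≤
          ((n / κ : ℕ) : ℝ) ^ 2 :=
        k_bound rn rκ (by exact_mod_cast P.hΘ1) (by exact_mod_cast P.hS1) (Nat.cast_nonneg _)
          r6 r7 r3
      have h2 : (((9 * ((n / Θ : ℕ) : ℤ) ^ 2 + 4 * ((n / S : ℕ) : ℤ) * n : ℤ)) : ℝ) ≤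
          ((((n / κ : ℕ) : ℤ) ^ 2 : ℤ) : ℝ) := by
        push_cast
        push_cast at h1
        exact h1
      exact_mod_cast h2
    · -- M
      have h1 := Nat.div_add_mod n M
      have h2 := Nat.mod_lt n (show 0 < M by omega)
      have h3 := T.mm1
      have h4 : M * 1 ≤ M * (n / M) := Nat.mul_le_mul_left _ h3
      have h5 : n < 2 * M * (n / M) := by
        have : 2 * M * (n / M) = M * (n / M) + M * (n / M) := by ring
        omega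
      exact_mod_cast h5
    · have h1 := Nat.div_add_mod n Dd
      have h2 := Nat.mod_lt n (show 0 < Dd by omega)
      have h3 := T.d1
      have h4 : Dd * 1 ≤ Dd * (n / Dd) := Nat.mul_le_mul_left _ h3
      have h5 : (2 * Dd + 1) * (n / Dd) = Dd * (n / Dd) + Dd * (n / Dd) + n / Dd := by ring
      omega
    · rw [mul_div_cancel₀ _ (by positivity)]
  refine hfin.trans (le_of_eq ?_)
  rw [hε₁]; ring

end Pool.Agent.NT6
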