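import Pool.Agent.Lib.MP_6bd702_nt.E1

/-!
# Row E2: no near ties, in the language of the box (target of this part)
-/

set_option autoImplicit false

namespace Pool.Agent.NT6

open Finset Pool.Agent.MP_6bd702 Pool.Agent.MP_6bd702.H23 Pool.Agent.Perc

/-- The diameter of a cluster is attained at two of its vertices. -/
private theorem diam_attained (T : Finset Edg) (u : ℤ × ℤ) :
    ∃ a ∈ clV T u, ∃ b ∈ clV T u, Metric.diam (clS T u) ≤ ed a b := by
  classical
  have hfin : (clV T u).Finite := PercD.clV_finite' T u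
  set S : Finset ((ℤ × ℤ) × (ℤ × ℤ)) := hfin.toFinset ×ˢ hfin.toFinset with hS
  have hu : u ∈ clV T u := BoxAux.mem_clV_self T u
  have hne : S.Nonempty := ⟨(u, u), by simp [hS, hu]⟩
  obtain ⟨⟨a, b⟩, hab, hmax⟩ := Finset.exists_max_image S (fun p => ed p.1 p.2) hne
  simp only [hS, mem_product, Set.Finite.mem_toFinset] at hab
  refine ⟨a, hab.1, b, hab.2, ?_⟩
  have hD0 : 0 ≤ ed a b := dist_nonneg
  have h1 : ∀ c ∈ clV T u, ∀ d ∈ clV T u, dist (toC c) (toC d) ≤ ed a b := by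
    intro c hc d hd
    exact hmax (c, d) (by simp [hS, hc, hd])
  refine Metric.diam_le_of_forall_dist_le hD0 fun p hp q hq => ?_
  obtain ⟨x, hx, y, hy, hp⟩ := SmallClusters.mem_clS hp
  obtain ⟨x', hx', y', hy', hq⟩ := SmallClusters.mem_clS hq
  have h9 : ∀ c ∈ clV T u, dist p (toC c) ≤ ed a b := by
    intro c hc
    have h10 : segment ℝ (toC x) (toC y) ⊆ Metric.closedBall (toC c) (ed a b) :=
      (convex_closedBall _ _).segment_subset (Metric.mem_closedBall.2 (h1 x hx c hc))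
        (Metric.mem_closedBall.2 (h1 y hy c hc))
    exact Metric.mem_closedBall.1 (h10 hp)
  have h11 : segment ℝ (toC x') (toC y') ⊆ Metric.closedBall p (ed a b) := by
    refine (convex_closedBall _ _).segment_subset (Metric.mem_closedBall.2 ?_)
      (Metric.mem_closedBall.2 ?_)
    · rw [dist_comm]; exact h9 x' hx'
    · rw [dist_comm]; exact h9 y' hy'
  rw [dist_comm]
  exact Metric.mem_closedBall.1 (h11 hq)

/-- Two different clusters whose diameters are both within `η n` of the largest diameter exist with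
small probability. -/
theorem no_near_ties : ∀ ε : ℝ, 0 < ε → ∃ η : ℝ, 0 < η ∧ ∃ N : ℕ, ∀ n : ℕ, N ≤ n →
    prB n {T | ∃ u ∈ Box n, ∃ v ∈ Box n, v ∉ clV T u ∧
      (∀ w ∈ Box n, Metric.diam (clS T w) ≤ Metric.diam (clS T u) + η * n) ∧
      (∀ w ∈ Box n, Metric.diam (clS T w) ≤ Metric.diam (clS T v) + η * n)} ≤ ε := by
  intro ε hε
  obtain ⟨η, hη, N, hN⟩ := near_le ε hε
  refine ⟨η, hη, N, fun n hn => le_trans (PercW.prB_le ?_) (hN n hn)⟩
  rintro T hT ⟨u, hu, v, hv, huv, h1, h2⟩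
  obtain ⟨a, ha, b, hb, hab⟩ := diam_attained T u
  obtain ⟨p, hp, q, hq, hpq⟩ := diam_attained T v
  have hbox : ∀ w : ℤ × ℤ, w ∈ Box n ↔ w ∈ Bx n := by
    intro w
    simp only [Box, mem_product, mem_Icc, Bx, mem_Rect]
    tauto
  have hc : ∀ {x y z : ℤ × ℤ}, x ∈ Box n → y ∈ clV T x → z ∈ clV T x →
      Conn (T : Set Ed) (Bx n) y z := by
    intro x y z hx hy hz
    exact (SmallClusters.conn_of_clV hT hy).symm.trans (SmallClusters.conn_of_clV hT hz)
  have hd : ∀ c ∈ Bx n, ∀ d, Conn (T : Set Ed) (Bx n) c d → ed c d ≤ Metric.diam (clS T c) := by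
    intro c hc' d hcd
    have hc2 : c ∈ Box n := (hbox c).2 hc'
    exact Metric.dist_le_diam_of_mem (BoxAux.clS_bounded hT hc2)
      (BoxAux.mem_clS.2 (Or.inl ⟨c, BoxAux.mem_clV_self T c, rfl⟩))
      (BoxAux.mem_clS.2 (Or.inl ⟨d, PercW.clV_of_conn hcd, rfl⟩))
  have haB : a ∈ Bx n := (hbox a).1 (BoxAux.clV_subset_box hT hu ha)
  have hpB : p ∈ Bx n := (hbox p).1 (BoxAux.clV_subset_box hT hv hp)
  refine ⟨a, haB, b, p, hpB, q, hc hu ha hb, hc hv hp hq, ?_, ?_, ?_⟩
  · intro h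
    have h3 : p ∈ clV T a := PercW.clV_of_conn h
    rw [BoxAux.clV_eq ha] at h3
    have h4 : v ∈ clV T p := BoxAux.clV_symm hp
    rw [BoxAux.clV_eq h3] at h4
    exact huv h4
  · intro c hc' d hcd
    have h3 := hd c hc' d hcd
    have h4 := h1 c ((hbox c).2 hc')
    linarith
  · intro c hc' d hcd
    have h3 := hd c hc' d hcd
    have h4 := h2 c ((hbox c).2 hc')
    linarith

end Pool.Agent.NT6
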