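import Pool.Agent.Lib.MP_6bd702_nt.Defs

/-!
# Row P1: paths in rectangles

`exit_rect`: induction on the path; as long as the path stays in `Rect a b c d` the connection holds
inside; at the first step which leaves the rectangle the last vertex inside is on a side (one
coordinate changes by one, `PercW.step_coord` in Z012). Either the whole path is inside (then take
`w` itself if it is on a side or outside the open rectangle), or it leaves. `leave_rect`: same induction. `first_hit`: the last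
vertex before the first visit of `Q` and the entering edge: every edge used before has an end
outside `Q`, hence is not in `Qe` (`mem_EW`). `conn_avoid`: if no vertex of the cluster is in `Q`
then no edge of the path is in `Qe`.
-/

set_option autoImplicit false

namespace Pool.Agent.NT6

open Finset Pool.Agent.MP_6bd702 Pool.Agent.MP_6bd702.H23 Pool.Agent.Perc

private theorem step_coord' {ω : Set Ed} {R : Set (ℤ × ℤ)} {u v : ℤ × ℤ} (h : Step ω R u v) :
    v.1 ≤ u.1 + 1 ∧ u.1 ≤ v.1 + 1 ∧ v.2 ≤ u.2 + 1 ∧ u.2 ≤ v.2 + 1 := by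
  obtain ⟨-, -, ⟨ex, ey, t⟩, -, hh⟩ := h
  cases t
  · simp only [ea_mk, eb_false] at hh
    rcases hh with ⟨h5, h6⟩ | ⟨h5, h6⟩ <;> rw [← h5, ← h6] <;> simp only <;> omega
  · simp only [ea_mk, eb_true] at hh
    rcases hh with ⟨h5, h6⟩ | ⟨h5, h6⟩ <;> rw [← h5, ← h6] <;> simp only <;> omega

private theorem step_diff {ω : Set Ed} {R : Set (ℤ × ℤ)} {a b c d : ℤ} {u v : ℤ × ℤ}
    (hu : u ∉ Rect a b c d) (h : Step ω R u v) :
    Step (ω \ (EW a b c d : Set Ed)) R u v := by
  obtain ⟨h1, h2, e, he, hh⟩ := h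
  refine ⟨h1, h2, e, ⟨he, ?_⟩, hh⟩
  rw [mem_coe, mem_EW]
  rintro ⟨h3, h4⟩
  rcases hh with ⟨h5, -⟩ | ⟨-, h5⟩
  · exact hu (h5 ▸ h3)
  · exact hu (h5 ▸ h4)

/-- A path from a vertex of the rectangle to a vertex which is not strictly inside reaches a side
while staying inside. -/
theorem exit_rect {ω : Set Ed} {R : Set (ℤ × ℤ)} {a b c d : ℤ} {u w : ℤ × ℤ}
    (hu : u ∈ Rect a b c d) (hw : w.1 ≤ a ∨ b ≤ w.1 ∨ w.2 ≤ c ∨ d ≤ w.2) (h : Conn ω R u w) :
    ∃ w', w' ∈ Rect a b c d ∧ (w'.1 = a ∨ w'.1 = b ∨ w'.2 = c ∨ w'.2 = d) ∧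
      Conn ω (R ∩ Rect a b c d) u w' := by
  have key : (w ∈ Rect a b c d ∧ Conn ω (R ∩ Rect a b c d) u w) ∨
      ∃ w', w' ∈ Rect a b c d ∧ (w'.1 = a ∨ w'.1 = b ∨ w'.2 = c ∨ w'.2 = d) ∧
        Conn ω (R ∩ Rect a b c d) u w' := by
    clear hw
    unfold Conn at h
    induction h with
    | refl => exact Or.inl ⟨hu, .refl⟩
    | @tail v v' h1 h2 ih =>
      rcases ih with ⟨hv, hc⟩ | h3
      · by_cases hv' : v' ∈ Rect a b c d
        · obtain ⟨h4, h5, h6⟩ := h2
          exact Or.inl ⟨hv', Relation.ReflTransGen.tail hc ⟨⟨h4, hv⟩, ⟨h5, hv'⟩, h6⟩⟩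
        · right
          refine ⟨v, hv, ?_, hc⟩
          have h4 := step_coord' h2
          simp only [mem_Rect] at hv hv'
          omega
      · exact Or.inr h3
  rcases key with ⟨hw1, hw2⟩ | h1
  · refine ⟨w, hw1, ?_, hw2⟩
    simp only [mem_Rect] at hw1
    omega
  · exact h1

/-- A path which ends outside the rectangle leaves it: last vertex inside and first step out. -/
theorem leave_rect {ω : Set Ed} {R : Set (ℤ × ℤ)} {a b c d : ℤ} {u w : ℤ × ℤ}
    (hu : u ∈ Rect a b c d) (hw : w ∉ Rect a b c d) (h : Conn ω R u w) :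
    ∃ w' ∈ Rect a b c d, Conn ω (R ∩ Rect a b c d) u w' ∧ ∃ w'', w'' ∉ Rect a b c d ∧
      Step ω R w' w'' := by
  have key : (w ∈ Rect a b c d ∧ Conn ω (R ∩ Rect a b c d) u w) ∨
      ∃ w' ∈ Rect a b c d, Conn ω (R ∩ Rect a b c d) u w' ∧ ∃ w'', w'' ∉ Rect a b c d ∧
        Step ω R w' w'' := by
    clear hw
    unfold Conn at h
    induction h with
    | refl => exact Or.inl ⟨hu, .refl⟩
    | @tail v v' h1 h2 ih =>
      rcases ih with ⟨hv, hc⟩ | h3
      · by_cases hv' : v' ∈ Rect a b c d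
        · obtain ⟨h4, h5, h6⟩ := h2
          exact Or.inl ⟨hv', Relation.ReflTransGen.tail hc ⟨⟨h4, hv⟩, ⟨h5, hv'⟩, h6⟩⟩
        · exact Or.inr ⟨v, hv, hc, v', hv', h2⟩
      · exact Or.inr h3
  rcases key with ⟨hw1, -⟩ | h1
  · exact absurd hw1 hw
  · exact h1

/-- The part of a path before it enters `Rect a b c d` uses no edge of `EW a b c d`. -/
theorem first_hit {ω : Set Ed} {R : Set (ℤ × ℤ)} {a b c d : ℤ} {v u : ℤ × ℤ}
    (hv : v ∉ Rect a b c d) (hu : u ∈ Rect a b c d) (h : Conn ω R v u) :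
    ∃ q ∈ Rect a b c d, Conn (ω \ (EW a b c d : Set Ed)) R v q := by
  have key : (u ∉ Rect a b c d ∧ Conn (ω \ (EW a b c d : Set Ed)) R v u) ∨
      ∃ q ∈ Rect a b c d, Conn (ω \ (EW a b c d : Set Ed)) R v q := by
    clear hu
    unfold Conn at h
    induction h with
    | refl => exact Or.inl ⟨hv, .refl⟩
    | @tail w w' h1 h2 ih =>
      rcases ih with ⟨hw, hc⟩ | h3
      · have h4 : Conn (ω \ (EW a b c d : Set Ed)) R v w' :=
          Relation.ReflTransGen.tail hc (step_diff hw h2)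
        by_cases hw' : w' ∈ Rect a b c d
        · exact Or.inr ⟨w', hw', h4⟩
        · exact Or.inl ⟨hw', h4⟩
      · exact Or.inr h3
  rcases key with ⟨h1, -⟩ | h1
  · exact absurd hu h1
  · exact h1

/-- A cluster which avoids the rectangle does not use its edges. -/
theorem conn_avoid {ω : Set Ed} {R : Set (ℤ × ℤ)} {a b c d : ℤ} {p q : ℤ × ℤ}
    (hp : ∀ z ∈ Rect a b c d, ¬ Conn ω R p z) (h : Conn ω R p q) :
    Conn (ω \ (EW a b c d : Set Ed)) R p q := by
  unfold Conn at h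
  induction h with
  | refl => exact .refl
  | @tail w w' h1 h2 ih =>
    exact Relation.ReflTransGen.tail ih (step_diff (fun hw => hp w hw h1) h2)

/-- Edges of the rectangle are the only ones which matter for connections inside. -/
theorem conn_congr {ω ω' : Set Ed} {a b c d : ℤ} {u w : ℤ × ℤ}
    (h : ω ∩ (EW a b c d : Set Ed) = ω' ∩ (EW a b c d : Set Ed))
    (hc : Conn ω (Rect a b c d) u w) : Conn ω' (Rect a b c d) u w := by
  have h1 := (Conn_inter (ω := ω) (a := a) (b := b) (c := c) (d := d) le_rfl).1 hc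
  rw [h] at h1
  exact (Conn_inter (ω := ω') (a := a) (b := b) (c := c) (d := d) le_rfl).2 h1

end Pool.Agent.NT6
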